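import Pool.Agent.Y435.T7.Vec4

/-! Codes of fifteen bits. -/

set_option autoImplicit false
set_option linter.unusedVariables false
set_option maxRecDepth 100000
set_option maxHeartbeats 4000000
open Finset
open Pool.Agent.H122R2.N6 (Bt)

namespace Pool.Agent.Y435.T7

noncomputable section

def c15 (x0 x1 x2 x3 x4 x5 x6 x7 x8 x9 x10 x11 x12 x13 x14 : ℕ) : ℕ := (Nat.add x0 (Nat.mul 2 (Nat.add x1 (Nat.mul 2 (Nat.add x2 (Nat.mul 2 (Nat.add x3 (Nat.mul 2 (Nat.add x4 (Nat.mul 2 (Nat.add x5 (Nat.mul 2 (Nat.add x6 (Nat.mul 2 (Nat.add x7 (Nat.mul 2 (Nat.add x8 (Nat.mul 2 (Nat.add x9 (Nat.mul 2 (Nat.add x10 (Nat.mul 2 (Nat.add x11 (Nat.mul 2 (Nat.add x12 (Nat.mul 2 (Nat.add x13 (Nat.mul 2 x14))))))))))))))))))))))))))))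
theorem c15_lt {x0 x1 x2 x3 x4 x5 x6 x7 x8 x9 x10 x11 x12 x13 x14 : ℕ} (y0 : Bt x0) (y1 : Bt x1) (y2 : Bt x2) (y3 : Bt x3) (y4 : Bt x4) (y5 : Bt x5) (y6 : Bt x6) (y7 : Bt x7) (y8 : Bt x8) (y9 : Bt x9) (y10 : Bt x10) (y11 : Bt x11) (y12 : Bt x12) (y13 : Bt x13) (y14 : Bt x14) : c15 x0 x1 x2 x3 x4 x5 x6 x7 x8 x9 x10 x11 x12 x13 x14 < 2 ^ 15 := (hstep y0 (hstep y1 (hstep y2 (hstep y3 (hstep y4 (hstep y5 (hstep y6 (hstep y7 (hstep y8 (hstep y9 (hstep y10 (hstep y11 (hstep y12 (hstep y13 (Bt_lt y14)))))))))))))))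
theorem bt_zero {x : ℕ} (h : Bt x) (r : ℕ) : bt 0 (Nat.add x (Nat.mul 2 r)) = x := by
  have := Bt_lt h
  rw [bt_eq]
  show (x + 2 * r) / 2 ^ 0 % 2 = x
  rw [pow_zero, Nat.div_one]
  omega
theorem bt_succ {x : ℕ} (h : Bt x) (r k : ℕ) : bt (k + 1) (Nat.add x (Nat.mul 2 r)) = bt k r := by
  have := Bt_lt h
  rw [bt_eq, bt_eq]
  show (x + 2 * r) / 2 ^ (k + 1) % 2 = r / 2 ^ k % 2
  rw [pow_succ', ← Nat.div_div_eq_div_mul, show (x + 2 * r) / 2 = r by omega]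
theorem bt_self {x : ℕ} (h : Bt x) : bt 0 x = x := by
  have := Bt_lt h
  rw [bt_eq, pow_zero, Nat.div_one]
  omega
theorem bt_c15_0 {x0 x1 x2 x3 x4 x5 x6 x7 x8 x9 x10 x11 x12 x13 x14 : ℕ} (y0 : Bt x0) (y1 : Bt x1) (y2 : Bt x2) (y3 : Bt x3) (y4 : Bt x4) (y5 : Bt x5) (y6 : Bt x6) (y7 : Bt x7) (y8 : Bt x8) (y9 : Bt x9) (y10 : Bt x10) (y11 : Bt x11) (y12 : Bt x12) (y13 : Bt x13) (y14 : Bt x14) : bt 0 (c15 x0 x1 x2 x3 x4 x5 x6 x7 x8 x9 x10 x11 x12 x13 x14) = x0 := by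
  unfold c15
  rw [bt_zero y0]
theorem bt_c15_1 {x0 x1 x2 x3 x4 x5 x6 x7 x8 x9 x10 x11 x12 x13 x14 : ℕ} (y0 : Bt x0) (y1 : Bt x1) (y2 : Bt x2) (y3 : Bt x3) (y4 : Bt x4) (y5 : Bt x5) (y6 : Bt x6) (y7 : Bt x7) (y8 : Bt x8) (y9 : Bt x9) (y10 : Bt x10) (y11 : Bt x11) (y12 : Bt x12) (y13 : Bt x13) (y14 : Bt x14) : bt 1 (c15 x0 x1 x2 x3 x4 x5 x6 x7 x8 x9 x10 x11 x12 x13 x14) = x1 := by
  unfold c15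
  rw [bt_succ y0, bt_zero y1]
theorem bt_c15_2 {x0 x1 x2 x3 x4 x5 x6 x7 x8 x9 x10 x11 x12 x13 x14 : ℕ} (y0 : Bt x0) (y1 : Bt x1) (y2 : Bt x2) (y3 : Bt x3) (y4 : Bt x4) (y5 : Bt x5) (y6 : Bt x6) (y7 : Bt x7) (y8 : Bt x8) (y9 : Bt x9) (y10 : Bt x10) (y11 : Bt x11) (y12 : Bt x12) (y13 : Bt x13) (y14 : Bt x14) : bt 2 (c15 x0 x1 x2 x3 x4 x5 x6 x7 x8 x9 x10 x11 x12 x13 x14) = x2 := by
  unfold c15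
  rw [bt_succ y0, bt_succ y1, bt_zero y2]
theorem bt_c15_3 {x0 x1 x2 x3 x4 x5 x6 x7 x8 x9 x10 x11 x12 x13 x14 : ℕ} (y0 : Bt x0) (y1 : Bt x1) (y2 : Bt x2) (y3 : Bt x3) (y4 : Bt x4) (y5 : Bt x5) (y6 : Bt x6) (y7 : Bt x7) (y8 : Bt x8) (y9 : Bt x9) (y10 : Bt x10) (y11 : Bt x11) (y12 : Bt x12) (y13 : Bt x13) (y14 : Bt x14) : bt 3 (c15 x0 x1 x2 x3 x4 x5 x6 x7 x8 x9 x10 x11 x12 x13 x14) = x3 := by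
  unfold c15
  rw [bt_succ y0, bt_succ y1, bt_succ y2, bt_zero y3]
theorem bt_c15_4 {x0 x1 x2 x3 x4 x5 x6 x7 x8 x9 x10 x11 x12 x13 x14 : ℕ} (y0 : Bt x0) (y1 : Bt x1) (y2 : Bt x2) (y3 : Bt x3) (y4 : Bt x4) (y5 : Bt x5) (y6 : Bt x6) (y7 : Bt x7) (y8 : Bt x8) (y9 : Bt x9) (y10 : Bt x10) (y11 : Bt x11) (y12 : Bt x12) (y13 : Bt x13) (y14 : Bt x14) : bt 4 (c15 x0 x1 x2 x3 x4 x5 x6 x7 x8 x9 x10 x11 x12 x13 x14) = x4 := by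
  unfold c15
  rw [bt_succ y0, bt_succ y1, bt_succ y2, bt_succ y3, bt_zero y4]
theorem bt_c15_5 {x0 x1 x2 x3 x4 x5 x6 x7 x8 x9 x10 x11 x12 x13 x14 : ℕ} (y0 : Bt x0) (y1 : Bt x1) (y2 : Bt x2) (y3 : Bt x3) (y4 : Bt x4) (y5 : Bt x5) (y6 : Bt x6) (y7 : Bt x7) (y8 : Bt x8) (y9 : Bt x9) (y10 : Bt x10) (y11 : Bt x11) (y12 : Bt x12) (y13 : Bt x13) (y14 : Bt x14) : bt 5 (c15 x0 x1 x2 x3 x4 x5 x6 x7 x8 x9 x10 x11 x12 x13 x14) = x5 := by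
  unfold c15
  rw [bt_succ y0, bt_succ y1, bt_succ y2, bt_succ y3, bt_succ y4, bt_zero y5]
theorem bt_c15_6 {x0 x1 x2 x3 x4 x5 x6 x7 x8 x9 x10 x11 x12 x13 x14 : ℕ} (y0 : Bt x0) (y1 : Bt x1) (y2 : Bt x2) (y3 : Bt x3) (y4 : Bt x4) (y5 : Bt x5) (y6 : Bt x6) (y7 : Bt x7) (y8 : Bt x8) (y9 : Bt x9) (y10 : Bt x10) (y11 : Bt x11) (y12 : Bt x12) (y13 : Bt x13) (y14 : Bt x14) : bt 6 (c15 x0 x1 x2 x3 x4 x5 x6 x7 x8 x9 x10 x11 x12 x13 x14) = x6 := by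
  unfold c15
  rw [bt_succ y0, bt_succ y1, bt_succ y2, bt_succ y3, bt_succ y4, bt_succ y5, bt_zero y6]
theorem bt_c15_7 {x0 x1 x2 x3 x4 x5 x6 x7 x8 x9 x10 x11 x12 x13 x14 : ℕ} (y0 : Bt x0) (y1 : Bt x1) (y2 : Bt x2) (y3 : Bt x3) (y4 : Bt x4) (y5 : Bt x5) (y6 : Bt x6) (y7 : Bt x7) (y8 : Bt x8) (y9 : Bt x9) (y10 : Bt x10) (y11 : Bt x11) (y12 : Bt x12) (y13 : Bt x13) (y14 : Bt x14) : bt 7 (c15 x0 x1 x2 x3 x4 x5 x6 x7 x8 x9 x10 x11 x12 x13 x14) = x7 := by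
  unfold c15
  rw [bt_succ y0, bt_succ y1, bt_succ y2, bt_succ y3, bt_succ y4, bt_succ y5, bt_succ y6, bt_zero y7]
theorem bt_c15_8 {x0 x1 x2 x3 x4 x5 x6 x7 x8 x9 x10 x11 x12 x13 x14 : ℕ} (y0 : Bt x0) (y1 : Bt x1) (y2 : Bt x2) (y3 : Bt x3) (y4 : Bt x4) (y5 : Bt x5) (y6 : Bt x6) (y7 : Bt x7) (y8 : Bt x8) (y9 : Bt x9) (y10 : Bt x10) (y11 : Bt x11) (y12 : Bt x12) (y13 : Bt x13) (y14 : Bt x14) : bt 8 (c15 x0 x1 x2 x3 x4 x5 x6 x7 x8 x9 x10 x11 x12 x13 x14) = x8 := by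
  unfold c15
  rw [bt_succ y0, bt_succ y1, bt_succ y2, bt_succ y3, bt_succ y4, bt_succ y5, bt_succ y6, bt_succ y7, bt_zero y8]
theorem bt_c15_9 {x0 x1 x2 x3 x4 x5 x6 x7 x8 x9 x10 x11 x12 x13 x14 : ℕ} (y0 : Bt x0) (y1 : Bt x1) (y2 : Bt x2) (y3 : Bt x3) (y4 : Bt x4) (y5 : Bt x5) (y6 : Bt x6) (y7 : Bt x7) (y8 : Bt x8) (y9 : Bt x9) (y10 : Bt x10) (y11 : Bt x11) (y12 : Bt x12) (y13 : Bt x13) (y14 : Bt x14) : bt 9 (c15 x0 x1 x2 x3 x4 x5 x6 x7 x8 x9 x10 x11 x12 x13 x14) = x9 := by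
  unfold c15
  rw [bt_succ y0, bt_succ y1, bt_succ y2, bt_succ y3, bt_succ y4, bt_succ y5, bt_succ y6, bt_succ y7, bt_succ y8, bt_zero y9]
theorem bt_c15_10 {x0 x1 x2 x3 x4 x5 x6 x7 x8 x9 x10 x11 x12 x13 x14 : ℕ} (y0 : Bt x0) (y1 : Bt x1) (y2 : Bt x2) (y3 : Bt x3) (y4 : Bt x4) (y5 : Bt x5) (y6 : Bt x6) (y7 : Bt x7) (y8 : Bt x8) (y9 : Bt x9) (y10 : Bt x10) (y11 : Bt x11) (y12 : Bt x12) (y13 : Bt x13) (y14 : Bt x14) : bt 10 (c15 x0 x1 x2 x3 x4 x5 x6 x7 x8 x9 x10 x11 x12 x13 x14) = x10 := by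
  unfold c15
  rw [bt_succ y0, bt_succ y1, bt_succ y2, bt_succ y3, bt_succ y4, bt_succ y5, bt_succ y6, bt_succ y7, bt_succ y8, bt_succ y9, bt_zero y10]
theorem bt_c15_11 {x0 x1 x2 x3 x4 x5 x6 x7 x8 x9 x10 x11 x12 x13 x14 : ℕ} (y0 : Bt x0) (y1 : Bt x1) (y2 : Bt x2) (y3 : Bt x3) (y4 : Bt x4) (y5 : Bt x5) (y6 : Bt x6) (y7 : Bt x7) (y8 : Bt x8) (y9 : Bt x9) (y10 : Bt x10) (y11 : Bt x11) (y12 : Bt x12) (y13 : Bt x13) (y14 : Bt x14) : bt 11 (c15 x0 x1 x2 x3 x4 x5 x6 x7 x8 x9 x10 x11 x12 x13 x14) = x11 := by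
  unfold c15
  rw [bt_succ y0, bt_succ y1, bt_succ y2, bt_succ y3, bt_succ y4, bt_succ y5, bt_succ y6, bt_succ y7, bt_succ y8, bt_succ y9, bt_succ y10, bt_zero y11]
theorem bt_c15_12 {x0 x1 x2 x3 x4 x5 x6 x7 x8 x9 x10 x11 x12 x13 x14 : ℕ} (y0 : Bt x0) (y1 : Bt x1) (y2 : Bt x2) (y3 : Bt x3) (y4 : Bt x4) (y5 : Bt x5) (y6 : Bt x6) (y7 : Bt x7) (y8 : Bt x8) (y9 : Bt x9) (y10 : Bt x10) (y11 : Bt x11) (y12 : Bt x12) (y13 : Bt x13) (y14 : Bt x14) : bt 12 (c15 x0 x1 x2 x3 x4 x5 x6 x7 x8 x9 x10 x11 x12 x13 x14) = x12 := by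
  unfold c15
  rw [bt_succ y0, bt_succ y1, bt_succ y2, bt_succ y3, bt_succ y4, bt_succ y5, bt_succ y6, bt_succ y7, bt_succ y8, bt_succ y9, bt_succ y10, bt_succ y11, bt_zero y12]
theorem bt_c15_13 {x0 x1 x2 x3 x4 x5 x6 x7 x8 x9 x10 x11 x12 x13 x14 : ℕ} (y0 : Bt x0) (y1 : Bt x1) (y2 : Bt x2) (y3 : Bt x3) (y4 : Bt x4) (y5 : Bt x5) (y6 : Bt x6) (y7 : Bt x7) (y8 : Bt x8) (y9 : Bt x9) (y10 : Bt x10) (y11 : Bt x11) (y12 : Bt x12) (y13 : Bt x13) (y14 : Bt x14) : bt 13 (c15 x0 x1 x2 x3 x4 x5 x6 x7 x8 x9 x10 x11 x12 x13 x14) = x13 := by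
  unfold c15
  rw [bt_succ y0, bt_succ y1, bt_succ y2, bt_succ y3, bt_succ y4, bt_succ y5, bt_succ y6, bt_succ y7, bt_succ y8, bt_succ y9, bt_succ y10, bt_succ y11, bt_succ y12, bt_zero y13]
theorem bt_c15_14 {x0 x1 x2 x3 x4 x5 x6 x7 x8 x9 x10 x11 x12 x13 x14 : ℕ} (y0 : Bt x0) (y1 : Bt x1) (y2 : Bt x2) (y3 : Bt x3) (y4 : Bt x4) (y5 : Bt x5) (y6 : Bt x6) (y7 : Bt x7) (y8 : Bt x8) (y9 : Bt x9) (y10 : Bt x10) (y11 : Bt x11) (y12 : Bt x12) (y13 : Bt x13) (y14 : Bt x14) : bt 14 (c15 x0 x1 x2 x3 x4 x5 x6 x7 x8 x9 x10 x11 x12 x13 x14) = x14 := by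
  unfold c15
  rw [bt_succ y0, bt_succ y1, bt_succ y2, bt_succ y3, bt_succ y4, bt_succ y5, bt_succ y6, bt_succ y7, bt_succ y8, bt_succ y9, bt_succ y10, bt_succ y11, bt_succ y12, bt_succ y13, bt_self y14]

end

end Pool.Agent.Y435.T7
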