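import Pool.Agent.Y435.T7.Vec5
import Pool.Agent.Y435.T7.C15

/-! The sum over the frames. -/

set_option autoImplicit false
set_option linter.unusedVariables false
set_option maxRecDepth 100000
set_option maxHeartbeats 4000000
set_option exponentiation.threshold 700000
open Finset
open Pool.Agent.H122R2.N6 (Bt)

namespace Pool.Agent.Y435.T7

noncomputable section

theorem bt_fld (k i : ℕ) : fld 1 i k = bt k i := by unfold fld; rw [bt_eq, one_mul, pow_one]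

/-- transposition of `p` and `q` -/
def tsp (p q k : ℕ) : ℕ := if k = p then q else if k = q then p else k

theorem tsp_lt {p q k n : ℕ} (hp : p < n) (hq : q < n) (hk : k < n) : tsp p q k < n := by
  unfold tsp; split_ifs <;> assumption

theorem sb_bits {p q i : ℕ} (h : p < q) (hq : q < 16) (hi : i < 2 ^ 16) :
    sb p q i = enc 1 4 (fun k => bt (tsp p q k) i) := by
  have e1 : i = ∑ k ∈ range 16, bt k i * 2 ^ k := by
    have h1 := enc_fld (s := 1) (n := 4) one_pos hi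
    unfold enc at h1
    conv_lhs => rw [← h1]
    refine sum_congr rfl fun k _ => ?_
    rw [bt_fld, one_mul]
  have e2 : enc 1 4 (fun k => bt (tsp p q k) i) = ∑ k ∈ range 16, bt (tsp p q k) i * 2 ^ k := by
    unfold enc
    exact sum_congr rfl fun k _ => by rw [one_mul]
  have e3 : ∑ k ∈ range 16, ((bt (tsp p q k) i : ℤ) - (bt k i : ℤ)) * 2 ^ k
      = ((bt q i : ℤ) - bt p i) * 2 ^ p + ((bt p i : ℤ) - bt q i) * 2 ^ q := by
    rw [sum_eq_add_of_mem p q (mem_range.mpr (by omega)) (mem_range.mpr hq) (by omega)]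
    · unfold tsp
      rw [if_pos rfl, if_neg (by omega), if_pos rfl]
    · intro c _ hc
      unfold tsp
      rw [if_neg hc.1, if_neg hc.2, sub_self, zero_mul]
  rw [e2]
  have e4 : (∑ k ∈ range 16, bt (tsp p q k) i * 2 ^ k : ℕ) = (i : ℤ) + (((bt q i : ℤ) - bt p i) * 2 ^ p + ((bt p i : ℤ) - bt q i) * 2 ^ q) := by
    rw [← e3]
    conv_rhs => rw [e1]
    push_cast
    rw [← sum_add_distrib]
    refine sum_congr rfl fun k _ => ?_
    rw [← e1]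
    ring
  have hpq : (2 : ℕ) ^ p ≤ 2 ^ q := Nat.pow_le_pow_right (by norm_num) h.le
  have hle : bt q i * (2 ^ q - 2 ^ p) ≤ i + bt p i * (2 ^ q - 2 ^ p) := by
    rcases bt01 p i with h0 | h0 <;> rcases bt01 q i with h1 | h1 <;> rw [h0, h1]
    · omega
    · have := (keyK' h h0 h1).1; omega
    · omega
    · omega
  have e5 : ((sb p q i : ℕ) : ℤ) = (i : ℤ) + (((bt q i : ℤ) - bt p i) * 2 ^ p + ((bt p i : ℤ) - bt q i) * 2 ^ q) := by
    rw [sb_eq, Nat.cast_sub hle]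
    push_cast [Nat.cast_sub hpq]
    ring
  exact_mod_cast e5.trans e4.symm

theorem bt_sb {p q i k : ℕ} (h : p < q) (hq : q < 16) (hi : i < 2 ^ 16) (hk : k < 16) :
    bt k (sb p q i) = bt (tsp p q k) i := by
  rw [← bt_fld, sb_bits h hq hi]
  exact fld_enc (s := 1) (n := 4) (f := fun k => bt (tsp p q k) i) one_pos (fun j _ => by
    rcases bt01 (tsp p q j) i with h | h <;> rw [h] <;> norm_num) hk

theorem bt_sb4 {a1 b1 a2 b2 a3 b3 a4 b4 i k : ℕ} (h1 : a1 < b1 ∧ b1 < 15) (h2 : a2 < b2 ∧ b2 < 15) (h3 : a3 < b3 ∧ b3 < 15)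
    (h4 : a4 < b4 ∧ b4 < 15) (hi : i < 2 ^ 15) (hk : k < 15) :
    bt k (sb a1 b1 (sb a2 b2 (sb a3 b3 (sb a4 b4 i)))) = bt (tsp a4 b4 (tsp a3 b3 (tsp a2 b2 (tsp a1 b1 k)))) i := by
  have i4 := sb_lt h4.1 h4.2 hi
  have i3 := sb_lt h3.1 h3.2 i4
  have i2 := sb_lt h2.1 h2.2 i3
  have w : ∀ {j}, j < 2 ^ 15 → j < 2 ^ 16 := fun h => lt_trans h (by norm_num)
  have k1 : tsp a1 b1 k < 15 := tsp_lt (by omega) (by omega) hk
  have k2 : tsp a2 b2 (tsp a1 b1 k) < 15 := tsp_lt (by omega) (by omega) k1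
  have k3 : tsp a3 b3 (tsp a2 b2 (tsp a1 b1 k)) < 15 := tsp_lt (by omega) (by omega) k2
  rw [bt_sb h1.1 (by omega) (w i2) (by omega), bt_sb h2.1 (by omega) (w i3) (by omega),
    bt_sb h3.1 (by omega) (w i4) (by omega), bt_sb h4.1 (by omega) (w hi) (by omega)]

theorem swp4 {a1 b1 a2 b2 a3 b3 a4 b4 : ℕ} (h1 : a1 < b1 ∧ b1 < 15) (h2 : a2 < b2 ∧ b2 < 15) (h3 : a3 < b3 ∧ b3 < 15)
    (h4 : a4 < b4 ∧ b4 < 15) {f : ℕ → ℕ} (hf : ∀ i < 2 ^ 15, f i < 2 ^ 40) :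
    swp 40 15 a4 b4 (swp 40 15 a3 b3 (swp 40 15 a2 b2 (swp 40 15 a1 b1 (enc 40 15 f))))
      = enc 40 15 (fun i => f (sb a1 b1 (sb a2 b2 (sb a3 b3 (sb a4 b4 i))))) := by
  have g1 : ∀ i < 2 ^ 15, sb a1 b1 i < 2 ^ 15 := fun i hi => sb_lt h1.1 h1.2 hi
  have g2 : ∀ i < 2 ^ 15, sb a2 b2 i < 2 ^ 15 := fun i hi => sb_lt h2.1 h2.2 hi
  have g3 : ∀ i < 2 ^ 15, sb a3 b3 i < 2 ^ 15 := fun i hi => sb_lt h3.1 h3.2 hi
  rw [swp_enc (by norm_num) h1.1 h1.2 hf, swp_enc (by norm_num) h2.1 h2.2 (fun i hi => hf _ (g1 _ hi)),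
    swp_enc (by norm_num) h3.1 h3.2 (fun i hi => hf _ (g1 _ (g2 _ hi))),
    swp_enc (by norm_num) h4.1 h4.2 (fun i hi => hf _ (g1 _ (g2 _ (g3 _ hi))))]

def LS15 (b012 b013 b023 b123 b014 b024 b124 b034 b134 b234 b015 b025 b125 b035 b135 b235 b045 b145 b245 b345 x0 x1 x2 x3 x4 x5 x6 x7 x8 x9 x10 x11 x12 x13 x14 : ℕ) : ℕ :=
  (SD b012 b013 b023 b123 b014 b024 b124 b034 b134 b234 b015 b025 b125 b035 b135 b235 b045 b145 b245 b345 x0 x1 x2 x3 x4 x5 x6 x7 x8 x9 x10 x11 x12 x13 x14)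
theorem LS15_le {b012 b013 b023 b123 b014 b024 b124 b034 b134 b234 b015 b025 b125 b035 b135 b235 b045 b145 b245 b345 x0 x1 x2 x3 x4 x5 x6 x7 x8 x9 x10 x11 x12 x13 x14 : ℕ} (h012 : Bt b012) (h013 : Bt b013) (h023 : Bt b023) (h123 : Bt b123) (h014 : Bt b014) (h024 : Bt b024) (h124 : Bt b124) (h034 : Bt b034) (h134 : Bt b134) (h234 : Bt b234) (h015 : Bt b015) (h025 : Bt b025) (h125 : Bt b125) (h035 : Bt b035) (h135 : Bt b135) (h235 : Bt b235) (h045 : Bt b045) (h145 : Bt b145) (h245 : Bt b245) (h345 : Bt b345) (y0 : Bt x0) (y1 : Bt x1) (y2 : Bt x2) (y3 : Bt x3) (y4 : Bt x4) (y5 : Bt x5) (y6 : Bt x6) (y7 : Bt x7) (y8 : Bt x8) (y9 : Bt x9) (y10 : Bt x10) (y11 : Bt x11) (y12 : Bt x12) (y13 : Bt x13) (y14 : Bt x14) : LS15 b012 b013 b023 b123 b014 b024 b124 b034 b134 b234 b015 b025 b125 b035 b135 b235 b045 b145 b245 b345 x0 x1 x2 x3 x4 x5 x6 x7 x8 x9 x10 x11 x12 x13 x14 ≤ 5079302142 :=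 by
  have e2 := SD_le h012 h013 h023 h123 h014 h024 h124 h034 h134 h234 h015 h025 h125 h035 h135 h235 h045 h145 h245 h345 y0 y1 y2 y3 y4 y5 y6 y7 y8 y9 y10 y11 y12 y13 y14
  unfold LS15
  omega
theorem ch15_eq {b012 b013 b023 b123 b014 b024 b124 b034 b134 b234 b015 b025 b125 b035 b135 b235 b045 b145 b245 b345 : ℕ} (h012 : Bt b012) (h013 : Bt b013) (h023 : Bt b023) (h123 : Bt b123) (h014 : Bt b014) (h024 : Bt b024) (h124 : Bt b124) (h034 : Bt b034) (h134 : Bt b134) (h234 : Bt b234) (h015 : Bt b015) (h025 : Bt b025) (h125 : Bt b125) (h035 : Bt b035) (h135 : Bt b135) (h235 : Bt b235) (h045 : Bt b045) (h145 : Bt b145) (h245 : Bt b245) (h345 : Bt b345) : ch15 b012 b013 b023 b123 b014 b024 b124 b034 b134 b234 b015 b025 b125 b035 b135 b235 b045 b145 b245 b345 = enc 40 15 (fun i => LS15 b012 b013 b023 b123 b014 b024 b124 b034 b134 b234 b015 b025 b125 b035 b135 b235 b045 b145 b245 b345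 (bt 0 i) (bt 1 i) (bt 2 i) (bt 3 i) (bt 4 i) (bt 5 i) (bt 6 i) (bt 7 i) (bt 8 i) (bt 9 i) (bt 10 i) (bt 11 i) (bt 12 i) (bt 13 i) (bt 14 i)) := by
  unfold ch15
  rw [TD_eq h012 h013 h023 h123 h014 h024 h124 h034 h134 h234 h015 h025 h125 h035 h135 h235 h045 h145 h245 h345]
  rfl

def LS14 (b012 b013 b023 b123 b014 b024 b124 b034 b134 b234 b015 b025 b125 b035 b135 b235 b045 b145 b245 b345 x0 x1 x2 x3 x4 x5 x6 x7 x8 x9 x10 x11 x12 x13 x14 : ℕ) : ℕ :=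
  (Nat.add (SA b012 b013 b023 b123 b014 b024 b124 b034 b134 b234 b015 b025 b125 b035 b135 b235 b045 b145 b245 b345 x0 x1 x2 x3 x4 x5 x6 x7 x8 x9 x10 x11 x12 x13 x14) (Nat.add (SD b012 b013 b023 b123 b014 b024 b124 b034 b134 b234 b015 b025 b125 b035 b135 b235 b045 b145 b245 b345 x0 x1 x2 x3 x4 x5 x6 x7 x8 x9 x10 x11 x12 x13 x14) (LS15 b012 b013 b023 b123 b015 b025 b125 b035 b135 b235 b014 b024 b124 b034 b134 b234 b045 b145 b245 b345 x4 x5 x6 x7 x0 x1 x2 x3 x8 x9 x10 x11 x12 x13 x14)))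
theorem LS14_le {b012 b013 b023 b123 b014 b024 b124 b034 b134 b234 b015 b025 b125 b035 b135 b235 b045 b145 b245 b345 x0 x1 x2 x3 x4 x5 x6 x7 x8 x9 x10 x11 x12 x13 x14 : ℕ} (h012 : Bt b012) (h013 : Bt b013) (h023 : Bt b023) (h123 : Bt b123) (h014 : Bt b014) (h024 : Bt b024) (h124 : Bt b124) (h034 : Bt b034) (h134 : Bt b134) (h234 : Bt b234) (h015 : Bt b015) (h025 : Bt b025) (h125 : Bt b125) (h035 : Bt b035) (h135 : Bt b135) (h235 : Bt b235) (h045 : Bt b045) (h145 : Bt b145) (h245 : Bt b245) (h345 : Bt b345) (y0 : Bt x0) (y1 : Bt x1) (y2 : Bt x2) (y3 : Bt x3) (y4 : Bt x4) (y5 : Bt x5) (y6 : Bt x6) (y7 : Bt x7) (y8 : Bt x8) (y9 : Bt x9) (y10 : Bt x10) (y11 : Bt x11) (y12 : Bt x12) (y13 : Bt x13) (y14 : Bt x14) : LS14 b012 b013 b023 b123 b014 b024 b124 b034 b134 b234 b015 b025 b125 b035 b135 b235 b045 b145 b245 b345 x0 x1 x2 x3 x4 x5 x6 x7 x8 x9 x10 x11 x12 x13 x14 ≤ 27108573164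 := by
  have e1 := SA_le h012 h013 h023 h123 h014 h024 h124 h034 h134 h234 h015 h025 h125 h035 h135 h235 h045 h145 h245 h345 y0 y1 y2 y3 y4 y5 y6 y7 y8 y9 y10 y11 y12 y13 y14
  have e2 := SD_le h012 h013 h023 h123 h014 h024 h124 h034 h134 h234 h015 h025 h125 h035 h135 h235 h045 h145 h245 h345 y0 y1 y2 y3 y4 y5 y6 y7 y8 y9 y10 y11 y12 y13 y14
  have e3 := LS15_le h012 h013 h023 h123 h015 h025 h125 h035 h135 h235 h014 h024 h124 h034 h134 h234 h045 h145 h245 h345 y4 y5 y6 y7 y0 y1 y2 y3 y8 y9 y10 y11 y12 y13 y14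
  unfold LS14
  simp only [Nat.add_eq]
  omega
theorem ch14_eq {b012 b013 b023 b123 b014 b024 b124 b034 b134 b234 b015 b025 b125 b035 b135 b235 b045 b145 b245 b345 : ℕ} (h012 : Bt b012) (h013 : Bt b013) (h023 : Bt b023) (h123 : Bt b123) (h014 : Bt b014) (h024 : Bt b024) (h124 : Bt b124) (h034 : Bt b034) (h134 : Bt b134) (h234 : Bt b234) (h015 : Bt b015) (h025 : Bt b025) (h125 : Bt b125) (h035 : Bt b035) (h135 : Bt b135) (h235 : Bt b235) (h045 : Bt b045) (h145 : Bt b145) (h245 : Bt b245) (h345 : Bt b345) : ch14 b012 b013 b023 b123 b014 b024 b124 b034 b134 b234 b015 b025 b125 b035 b135 b235 b045 b145 b245 b345 = enc 40 15 (fun i => LS14 b012 b013 b023 b123 b014 b024 b124 b034 b134 b234 b015 b025 b125 b035 b135 b235 b045 b145 b245 b345 (bt 0 i) (bt 1 i) (bt 2 i) (bt 3 i) (bt 4 i) (bt 5 i) (bt 6 i) (bt 7 i) (bt 8 i) (bt 9 i) (bt 10 i) (bt 11 i) (bt 12 i) (bt 13 i) (bt 14 i)) := by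
  unfold ch14
  rw [ch15_eq h012 h013 h023 h123 h015 h025 h125 h035 h135 h235 h014 h024 h124 h034 h134 h234 h045 h145 h245 h345, swp4 (a1 := 0) (b1 := 4) (a2 := 1) (b2 := 5) (a3 := 2) (b3 := 6) (a4 := 3) (b4 := 7) (by norm_num) (by norm_num) (by norm_num) (by norm_num)
    (fun i _ => lt_of_le_of_lt (LS15_le h012 h013 h023 h123 h015 h025 h125 h035 h135 h235 h014 h024 h124 h034 h134 h234 h045 h145 h245 h345 (bt01 _ _) (bt01 _ _) (bt01 _ _) (bt01 _ _) (bt01 _ _) (bt01 _ _) (bt01 _ _) (bt01 _ _) (bt01 _ _) (bt01 _ _) (bt01 _ _) (bt01 _ _) (bt01 _ _) (bt01 _ _) (bt01 _ _)) (by norm_num)), TA_eq h012 h013 h023 h123 h014 h024 h124 h034 h134 h234 h015 h025 h125 h035 h135 h235 h045 h145 h245 h345, TD_eq h012 h013 h023 h123 h014 h024 h124 h034 h134 h234 h015 h025 h125 h035 h135 h235 h045 h145 h245 h345]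
  simp only [Nat.add_eq, enc_add]
  refine enc_congr fun i hi => ?_
  have z0 : bt 0 (sb 0 4 (sb 1 5 (sb 2 6 (sb 3 7 i)))) = bt 4 i := bt_sb4 (by norm_num) (by norm_num) (by norm_num) (by norm_num) hi (by norm_num)
  have z1 : bt 1 (sb 0 4 (sb 1 5 (sb 2 6 (sb 3 7 i)))) = bt 5 i := bt_sb4 (by norm_num) (by norm_num) (by norm_num) (by norm_num) hi (by norm_num)
  have z2 : bt 2 (sb 0 4 (sb 1 5 (sb 2 6 (sb 3 7 i)))) = bt 6 i := bt_sb4 (by norm_num) (by norm_num) (by norm_num) (by norm_num) hi (by norm_num)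
  have z3 : bt 3 (sb 0 4 (sb 1 5 (sb 2 6 (sb 3 7 i)))) = bt 7 i := bt_sb4 (by norm_num) (by norm_num) (by norm_num) (by norm_num) hi (by norm_num)
  have z4 : bt 4 (sb 0 4 (sb 1 5 (sb 2 6 (sb 3 7 i)))) = bt 0 i := bt_sb4 (by norm_num) (by norm_num) (by norm_num) (by norm_num) hi (by norm_num)
  have z5 : bt 5 (sb 0 4 (sb 1 5 (sb 2 6 (sb 3 7 i)))) = bt 1 i := bt_sb4 (by norm_num) (by norm_num) (by norm_num) (by norm_num) hi (by norm_num)
  have z6 : bt 6 (sb 0 4 (sb 1 5 (sb 2 6 (sb 3 7 i)))) = bt 2 i := bt_sb4 (by norm_num) (by norm_num) (by norm_num) (by norm_num) hi (by norm_num)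
  have z7 : bt 7 (sb 0 4 (sb 1 5 (sb 2 6 (sb 3 7 i)))) = bt 3 i := bt_sb4 (by norm_num) (by norm_num) (by norm_num) (by norm_num) hi (by norm_num)
  have z8 : bt 8 (sb 0 4 (sb 1 5 (sb 2 6 (sb 3 7 i)))) = bt 8 i := bt_sb4 (by norm_num) (by norm_num) (by norm_num) (by norm_num) hi (by norm_num)
  have z9 : bt 9 (sb 0 4 (sb 1 5 (sb 2 6 (sb 3 7 i)))) = bt 9 i := bt_sb4 (by norm_num) (by norm_num) (by norm_num) (by norm_num) hi (by norm_num)
  have z10 : bt 10 (sb 0 4 (sb 1 5 (sb 2 6 (sb 3 7 i)))) = bt 10 i := bt_sb4 (by norm_num) (by norm_num) (by norm_num) (by norm_num) hi (by norm_num)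
  have z11 : bt 11 (sb 0 4 (sb 1 5 (sb 2 6 (sb 3 7 i)))) = bt 11 i := bt_sb4 (by norm_num) (by norm_num) (by norm_num) (by norm_num) hi (by norm_num)
  have z12 : bt 12 (sb 0 4 (sb 1 5 (sb 2 6 (sb 3 7 i)))) = bt 12 i := bt_sb4 (by norm_num) (by norm_num) (by norm_num) (by norm_num) hi (by norm_num)
  have z13 : bt 13 (sb 0 4 (sb 1 5 (sb 2 6 (sb 3 7 i)))) = bt 13 i := bt_sb4 (by norm_num) (by norm_num) (by norm_num) (by norm_num) hi (by norm_num)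
  have z14 : bt 14 (sb 0 4 (sb 1 5 (sb 2 6 (sb 3 7 i)))) = bt 14 i := bt_sb4 (by norm_num) (by norm_num) (by norm_num) (by norm_num) hi (by norm_num)
  rw [z0, z1, z2, z3, z4, z5, z6, z7, z8, z9, z10, z11, z12, z13, z14]
  rfl

def LS13 (b012 b013 b023 b123 b014 b024 b124 b034 b134 b234 b015 b025 b125 b035 b135 b235 b045 b145 b245 b345 x0 x1 x2 x3 x4 x5 x6 x7 x8 x9 x10 x11 x12 x13 x14 : ℕ) : ℕ :=
  (Nat.add (SA b012 b013 b023 b123 b014 b024 b124 b034 b134 b234 b015 b025 b125 b035 b135 b235 b045 b145 b245 b345 x0 x1 x2 x3 x4 x5 x6 x7 x8 x9 x10 x11 x12 x13 x14) (LS14 b012 b015 b025 b125 b014 b024 b124 b045 b145 b245 b013 b023 b123 b035 b135 b235 b034 b134 b234 b345 x11 x12 x13 x3 x4 x5 x6 x14 x8 x9 x10 x0 x1 x2 x7))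
theorem LS13_le {b012 b013 b023 b123 b014 b024 b124 b034 b134 b234 b015 b025 b125 b035 b135 b235 b045 b145 b245 b345 x0 x1 x2 x3 x4 x5 x6 x7 x8 x9 x10 x11 x12 x13 x14 : ℕ} (h012 : Bt b012) (h013 : Bt b013) (h023 : Bt b023) (h123 : Bt b123) (h014 : Bt b014) (h024 : Bt b024) (h124 : Bt b124) (h034 : Bt b034) (h134 : Bt b134) (h234 : Bt b234) (h015 : Bt b015) (h025 : Bt b025) (h125 : Bt b125) (h035 : Bt b035) (h135 : Bt b135) (h235 : Bt b235) (h045 : Bt b045) (h145 : Bt b145) (h245 : Bt b245) (h345 : Bt b345) (y0 : Bt x0) (y1 : Bt x1) (y2 : Bt x2) (y3 : Bt x3) (y4 : Bt x4) (y5 : Bt x5) (y6 : Bt x6) (y7 : Bt x7) (y8 : Bt x8) (y9 : Bt x9) (y10 : Bt x10) (y11 : Bt x11) (y12 : Bt x12) (y13 : Bt x13) (y14 : Bt x14) : LS13 b012 b013 b023 b123 b014 b024 b124 b034 b134 b234 b015 b025 b125 b035 b135 b235 b045 b145 b245 b345 x0 x1 x2 x3 x4 x5 x6 x7 x8 x9 x10 x11 x12 x13 x14 ≤ 44058542044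 := by
  have e1 := SA_le h012 h013 h023 h123 h014 h024 h124 h034 h134 h234 h015 h025 h125 h035 h135 h235 h045 h145 h245 h345 y0 y1 y2 y3 y4 y5 y6 y7 y8 y9 y10 y11 y12 y13 y14
  have e3 := LS14_le h012 h015 h025 h125 h014 h024 h124 h045 h145 h245 h013 h023 h123 h035 h135 h235 h034 h134 h234 h345 y11 y12 y13 y3 y4 y5 y6 y14 y8 y9 y10 y0 y1 y2 y7
  unfold LS13
  simp only [Nat.add_eq]
  omega
theorem ch13_eq {b012 b013 b023 b123 b014 b024 b124 b034 b134 b234 b015 b025 b125 b035 b135 b235 b045 b145 b245 b345 : ℕ} (h012 : Bt b012) (h013 : Bt b013) (h023 : Bt b023) (h123 : Bt b123) (h014 : Bt b014) (h024 : Bt b024) (h124 : Bt b124) (h034 : Bt b034) (h134 : Bt b134) (h234 : Bt b234) (h015 : Bt b015) (h025 : Bt b025) (h125 : Bt b125) (h035 : Bt b035) (h135 : Bt b135) (h235 : Bt b235) (h045 : Bt b045) (h145 : Bt b145) (h245 : Bt b245) (h345 : Bt b345) : ch13 b012 b013 b023 b123 b014 b024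 b124 b034 b134 b234 b015 b025 b125 b035 b135 b235 b045 b145 b245 b345 = enc 40 15 (fun i => LS13 b012 b013 b023 b123 b014 b024 b124 b034 b134 b234 b015 b025 b125 b035 b135 b235 b045 b145 b245 b345 (bt 0 i) (bt 1 i) (bt 2 i) (bt 3 i) (bt 4 i) (bt 5 i) (bt 6 i) (bt 7 i) (bt 8 i) (bt 9 i) (bt 10 i) (bt 11 i) (bt 12 i) (bt 13 i) (bt 14 i)) := by
  unfold ch13
  rw [ch14_eq h012 h015 h025 h125 h014 h024 h124 h045 h145 h245 h013 h023 h123 h035 h135 h235 h034 h134 h234 h345, swp4 (a1 := 0) (b1 := 11) (a2 := 1) (b2 := 12) (a3 := 2) (b3 := 13) (a4 := 7) (b4 := 14) (by norm_num) (by norm_num) (by norm_num) (by norm_num)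
    (fun i _ => lt_of_le_of_lt (LS14_le h012 h015 h025 h125 h014 h024 h124 h045 h145 h245 h013 h023 h123 h035 h135 h235 h034 h134 h234 h345 (bt01 _ _) (bt01 _ _) (bt01 _ _) (bt01 _ _) (bt01 _ _) (bt01 _ _) (bt01 _ _) (bt01 _ _) (bt01 _ _) (bt01 _ _) (bt01 _ _) (bt01 _ _) (bt01 _ _) (bt01 _ _) (bt01 _ _)) (by norm_num)), TA_eq h012 h013 h023 h123 h014 h024 h124 h034 h134 h234 h015 h025 h125 h035 h135 h235 h045 h145 h245 h345]
  simp only [Nat.add_eq, enc_add]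
  refine enc_congr fun i hi => ?_
  have z0 : bt 0 (sb 0 11 (sb 1 12 (sb 2 13 (sb 7 14 i)))) = bt 11 i := bt_sb4 (by norm_num) (by norm_num) (by norm_num) (by norm_num) hi (by norm_num)
  have z1 : bt 1 (sb 0 11 (sb 1 12 (sb 2 13 (sb 7 14 i)))) = bt 12 i := bt_sb4 (by norm_num) (by norm_num) (by norm_num) (by norm_num) hi (by norm_num)
  have z2 : bt 2 (sb 0 11 (sb 1 12 (sb 2 13 (sb 7 14 i)))) = bt 13 i := bt_sb4 (by norm_num) (by norm_num) (by norm_num) (by norm_num) hi (by norm_num)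
  have z3 : bt 3 (sb 0 11 (sb 1 12 (sb 2 13 (sb 7 14 i)))) = bt 3 i := bt_sb4 (by norm_num) (by norm_num) (by norm_num) (by norm_num) hi (by norm_num)
  have z4 : bt 4 (sb 0 11 (sb 1 12 (sb 2 13 (sb 7 14 i)))) = bt 4 i := bt_sb4 (by norm_num) (by norm_num) (by norm_num) (by norm_num) hi (by norm_num)
  have z5 : bt 5 (sb 0 11 (sb 1 12 (sb 2 13 (sb 7 14 i)))) = bt 5 i := bt_sb4 (by norm_num) (by norm_num) (by norm_num) (by norm_num) hi (by norm_num)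
  have z6 : bt 6 (sb 0 11 (sb 1 12 (sb 2 13 (sb 7 14 i)))) = bt 6 i := bt_sb4 (by norm_num) (by norm_num) (by norm_num) (by norm_num) hi (by norm_num)
  have z7 : bt 7 (sb 0 11 (sb 1 12 (sb 2 13 (sb 7 14 i)))) = bt 14 i := bt_sb4 (by norm_num) (by norm_num) (by norm_num) (by norm_num) hi (by norm_num)
  have z8 : bt 8 (sb 0 11 (sb 1 12 (sb 2 13 (sb 7 14 i)))) = bt 8 i := bt_sb4 (by norm_num) (by norm_num) (by norm_num) (by norm_num) hi (by norm_num)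
  have z9 : bt 9 (sb 0 11 (sb 1 12 (sb 2 13 (sb 7 14 i)))) = bt 9 i := bt_sb4 (by norm_num) (by norm_num) (by norm_num) (by norm_num) hi (by norm_num)
  have z10 : bt 10 (sb 0 11 (sb 1 12 (sb 2 13 (sb 7 14 i)))) = bt 10 i := bt_sb4 (by norm_num) (by norm_num) (by norm_num) (by norm_num) hi (by norm_num)
  have z11 : bt 11 (sb 0 11 (sb 1 12 (sb 2 13 (sb 7 14 i)))) = bt 0 i := bt_sb4 (by norm_num) (by norm_num) (by norm_num) (by norm_num) hi (by norm_num)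
  have z12 : bt 12 (sb 0 11 (sb 1 12 (sb 2 13 (sb 7 14 i)))) = bt 1 i := bt_sb4 (by norm_num) (by norm_num) (by norm_num) (by norm_num) hi (by norm_num)
  have z13 : bt 13 (sb 0 11 (sb 1 12 (sb 2 13 (sb 7 14 i)))) = bt 2 i := bt_sb4 (by norm_num) (by norm_num) (by norm_num) (by norm_num) hi (by norm_num)
  have z14 : bt 14 (sb 0 11 (sb 1 12 (sb 2 13 (sb 7 14 i)))) = bt 7 i := bt_sb4 (by norm_num) (by norm_num) (by norm_num) (by norm_num) hi (by norm_num)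
  rw [z0, z1, z2, z3, z4, z5, z6, z7, z8, z9, z10, z11, z12, z13, z14]
  rfl

def LS12 (b012 b013 b023 b123 b014 b024 b124 b034 b134 b234 b015 b025 b125 b035 b135 b235 b045 b145 b245 b345 x0 x1 x2 x3 x4 x5 x6 x7 x8 x9 x10 x11 x12 x13 x14 : ℕ) : ℕ :=
  (Nat.add (SA b012 b013 b023 b123 b014 b024 b124 b034 b134 b234 b015 b025 b125 b035 b135 b235 b045 b145 b245 b345 x0 x1 x2 x3 x4 x5 x6 x7 x8 x9 x10 x11 x12 x13 x14) (Nat.add (SD b012 b013 b023 b123 b014 b024 b124 b034 b134 b234 b015 b025 b125 b035 b135 b235 b045 b145 b245 b345 x0 x1 x2 x3 x4 x5 x6 x7 x8 x9 x10 x11 x12 x13 x14) (LS13 b012 b014 b024 b124 b013 b023 b123 b034 b134 b234 b015 b025 b125 b045 b145 b245 b035 b135 b235 b345 x0 x1 x2 x14 x11 x12 x13 x7 x8 x9 x10 x4 x5 x6 x3)))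
theorem LS12_le {b012 b013 b023 b123 b014 b024 b124 b034 b134 b234 b015 b025 b125 b035 b135 b235 b045 b145 b245 b345 x0 x1 x2 x3 x4 x5 x6 x7 x8 x9 x10 x11 x12 x13 x14 : ℕ} (h012 : Bt b012) (h013 : Bt b013) (h023 : Bt b023) (h123 : Bt b123) (h014 : Bt b014) (h024 : Bt b024) (h124 : Bt b124) (h034 : Bt b034) (h134 : Bt b134) (h234 : Bt b234) (h015 : Bt b015) (h025 : Bt b025) (h125 : Bt b125) (h035 : Bt b035) (h135 : Bt b135) (h235 : Bt b235) (h045 : Bt b045) (h145 : Bt b145) (h245 : Bt b245) (h345 : Bt b345) (y0 : Bt x0) (y1 : Bt x1) (y2 : Bt x2) (y3 : Bt x3) (y4 : Bt x4) (y5 : Bt x5) (y6 : Bt x6) (y7 : Bt x7) (y8 : Bt x8) (y9 : Bt x9) (y10 : Bt x10) (y11 : Bt x11) (y12 : Bt x12) (y13 : Bt x13) (y14 : Bt x14) : LS12 b012 b013 b023 b123 b014 b024 b124 b034 b134 b234 b015 b025 b125 b035 b135 b235 b045 b145 b245 b345 x0 x1 x2 x3 x4 x5 x6 x7 x8 x9 x10 x11 x12 x13 x14 ≤ 66087813066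 := by
  have e1 := SA_le h012 h013 h023 h123 h014 h024 h124 h034 h134 h234 h015 h025 h125 h035 h135 h235 h045 h145 h245 h345 y0 y1 y2 y3 y4 y5 y6 y7 y8 y9 y10 y11 y12 y13 y14
  have e2 := SD_le h012 h013 h023 h123 h014 h024 h124 h034 h134 h234 h015 h025 h125 h035 h135 h235 h045 h145 h245 h345 y0 y1 y2 y3 y4 y5 y6 y7 y8 y9 y10 y11 y12 y13 y14
  have e3 := LS13_le h012 h014 h024 h124 h013 h023 h123 h034 h134 h234 h015 h025 h125 h045 h145 h245 h035 h135 h235 h345 y0 y1 y2 y14 y11 y12 y13 y7 y8 y9 y10 y4 y5 y6 y3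
  unfold LS12
  simp only [Nat.add_eq]
  omega
theorem ch12_eq {b012 b013 b023 b123 b014 b024 b124 b034 b134 b234 b015 b025 b125 b035 b135 b235 b045 b145 b245 b345 : ℕ} (h012 : Bt b012) (h013 : Bt b013) (h023 : Bt b023) (h123 : Bt b123) (h014 : Bt b014) (h024 : Bt b024) (h124 : Bt b124) (h034 : Bt b034) (h134 : Bt b134) (h234 : Bt b234) (h015 : Bt b015) (h025 : Bt b025) (h125 : Bt b125) (h035 : Bt b035) (h135 : Bt b135) (h235 : Bt b235) (h045 : Bt b045) (h145 : Bt b145) (h245 : Bt b245) (h345 : Bt b345) : ch12 b012 b013 b023 b123 b014 b024 b124 b034 b134 b234 b015 b025 b125 b035 b135 b235 b045 b145 b245 b345 = enc 40 15 (fun i => LS12 b012 b013 b023 b123 b014 b024 b124 b034 b134 b234 b015 b025 b125 b035 b135 b235 b045 b145 b245 b345 (bt 0 i) (bt 1 i) (bt 2 i) (bt 3 i) (bt 4 i) (bt 5 i) (bt 6 i) (bt 7 i) (bt 8 i) (bt 9 i) (bt 10 i) (bt 11 i) (bt 12 i) (bt 13 i) (bt 14 i)) := by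
  unfold ch12
  rw [ch13_eq h012 h014 h024 h124 h013 h023 h123 h034 h134 h234 h015 h025 h125 h045 h145 h245 h035 h135 h235 h345, swp4 (a1 := 4) (b1 := 11) (a2 := 5) (b2 := 12) (a3 := 6) (b3 := 13) (a4 := 3) (b4 := 14) (by norm_num) (by norm_num) (by norm_num) (by norm_num)
    (fun i _ => lt_of_le_of_lt (LS13_le h012 h014 h024 h124 h013 h023 h123 h034 h134 h234 h015 h025 h125 h045 h145 h245 h035 h135 h235 h345 (bt01 _ _) (bt01 _ _) (bt01 _ _) (bt01 _ _) (bt01 _ _) (bt01 _ _) (bt01 _ _) (bt01 _ _) (bt01 _ _) (bt01 _ _) (bt01 _ _) (bt01 _ _) (bt01 _ _) (bt01 _ _) (bt01 _ _)) (by norm_num)), TA_eq h012 h013 h023 h123 h014 h024 h124 h034 h134 h234 h015 h025 h125 h035 h135 h235 h045 h145 h245 h345, TD_eq h012 h013 h023 h123 h014 h024 h124 h034 h134 h234 h015 h025 h125 h035 h135 h235 h045 h145 h245 h345]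
  simp only [Nat.add_eq, enc_add]
  refine enc_congr fun i hi => ?_
  have z0 : bt 0 (sb 4 11 (sb 5 12 (sb 6 13 (sb 3 14 i)))) = bt 0 i := bt_sb4 (by norm_num) (by norm_num) (by norm_num) (by norm_num) hi (by norm_num)
  have z1 : bt 1 (sb 4 11 (sb 5 12 (sb 6 13 (sb 3 14 i)))) = bt 1 i := bt_sb4 (by norm_num) (by norm_num) (by norm_num) (by norm_num) hi (by norm_num)
  have z2 : bt 2 (sb 4 11 (sb 5 12 (sb 6 13 (sb 3 14 i)))) = bt 2 i := bt_sb4 (by norm_num) (by norm_num) (by norm_num) (by norm_num) hi (by norm_num)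
  have z3 : bt 3 (sb 4 11 (sb 5 12 (sb 6 13 (sb 3 14 i)))) = bt 14 i := bt_sb4 (by norm_num) (by norm_num) (by norm_num) (by norm_num) hi (by norm_num)
  have z4 : bt 4 (sb 4 11 (sb 5 12 (sb 6 13 (sb 3 14 i)))) = bt 11 i := bt_sb4 (by norm_num) (by norm_num) (by norm_num) (by norm_num) hi (by norm_num)
  have z5 : bt 5 (sb 4 11 (sb 5 12 (sb 6 13 (sb 3 14 i)))) = bt 12 i := bt_sb4 (by norm_num) (by norm_num) (by norm_num) (by norm_num) hi (by norm_num)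
  have z6 : bt 6 (sb 4 11 (sb 5 12 (sb 6 13 (sb 3 14 i)))) = bt 13 i := bt_sb4 (by norm_num) (by norm_num) (by norm_num) (by norm_num) hi (by norm_num)
  have z7 : bt 7 (sb 4 11 (sb 5 12 (sb 6 13 (sb 3 14 i)))) = bt 7 i := bt_sb4 (by norm_num) (by norm_num) (by norm_num) (by norm_num) hi (by norm_num)
  have z8 : bt 8 (sb 4 11 (sb 5 12 (sb 6 13 (sb 3 14 i)))) = bt 8 i := bt_sb4 (by norm_num) (by norm_num) (by norm_num) (by norm_num) hi (by norm_num)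
  have z9 : bt 9 (sb 4 11 (sb 5 12 (sb 6 13 (sb 3 14 i)))) = bt 9 i := bt_sb4 (by norm_num) (by norm_num) (by norm_num) (by norm_num) hi (by norm_num)
  have z10 : bt 10 (sb 4 11 (sb 5 12 (sb 6 13 (sb 3 14 i)))) = bt 10 i := bt_sb4 (by norm_num) (by norm_num) (by norm_num) (by norm_num) hi (by norm_num)
  have z11 : bt 11 (sb 4 11 (sb 5 12 (sb 6 13 (sb 3 14 i)))) = bt 4 i := bt_sb4 (by norm_num) (by norm_num) (by norm_num) (by norm_num) hi (by norm_num)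
  have z12 : bt 12 (sb 4 11 (sb 5 12 (sb 6 13 (sb 3 14 i)))) = bt 5 i := bt_sb4 (by norm_num) (by norm_num) (by norm_num) (by norm_num) hi (by norm_num)
  have z13 : bt 13 (sb 4 11 (sb 5 12 (sb 6 13 (sb 3 14 i)))) = bt 6 i := bt_sb4 (by norm_num) (by norm_num) (by norm_num) (by norm_num) hi (by norm_num)
  have z14 : bt 14 (sb 4 11 (sb 5 12 (sb 6 13 (sb 3 14 i)))) = bt 3 i := bt_sb4 (by norm_num) (by norm_num) (by norm_num) (by norm_num) hi (by norm_num)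
  rw [z0, z1, z2, z3, z4, z5, z6, z7, z8, z9, z10, z11, z12, z13, z14]
  rfl

def LS11 (b012 b013 b023 b123 b014 b024 b124 b034 b134 b234 b015 b025 b125 b035 b135 b235 b045 b145 b245 b345 x0 x1 x2 x3 x4 x5 x6 x7 x8 x9 x10 x11 x12 x13 x14 : ℕ) : ℕ :=
  (Nat.add (SA b012 b013 b023 b123 b014 b024 b124 b034 b134 b234 b015 b025 b125 b035 b135 b235 b045 b145 b245 b345 x0 x1 x2 x3 x4 x5 x6 x7 x8 x9 x10 x11 x12 x13 x14) (LS12 b015 b013 b035 b135 b014 b045 b145 b034 b134 b345 b012 b025 b125 b023 b123 b235 b024 b124 b245 b234 x9 x10 x2 x13 x4 x5 x14 x7 x8 x0 x1 x11 x12 x3 x6))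
theorem LS11_le {b012 b013 b023 b123 b014 b024 b124 b034 b134 b234 b015 b025 b125 b035 b135 b235 b045 b145 b245 b345 x0 x1 x2 x3 x4 x5 x6 x7 x8 x9 x10 x11 x12 x13 x14 : ℕ} (h012 : Bt b012) (h013 : Bt b013) (h023 : Bt b023) (h123 : Bt b123) (h014 : Bt b014) (h024 : Bt b024) (h124 : Bt b124) (h034 : Bt b034) (h134 : Bt b134) (h234 : Bt b234) (h015 : Bt b015) (h025 : Bt b025) (h125 : Bt b125) (h035 : Bt b035) (h135 : Bt b135) (h235 : Bt b235) (h045 : Bt b045) (h145 : Bt b145) (h245 : Bt b245) (h345 : Bt b345) (y0 : Bt x0) (y1 : Bt x1) (y2 : Bt x2) (y3 : Bt x3) (y4 : Bt x4) (y5 : Bt x5) (y6 : Bt x6) (y7 : Bt x7) (y8 : Bt x8) (y9 : Bt x9) (y10 : Bt x10) (y11 : Bt x11) (y12 : Bt x12) (y13 : Bt x13) (y14 : Bt x14) : LS11 b012 b013 b023 b123 b014 b024 b124 b034 b134 b234 b015 b025 b125 b035 b135 b235 b045 b145 b245 b345 x0 x1 x2 x3 x4 x5 x6 x7 x8 x9 x10 x11 x12 x13 x14 ≤ 83037781946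 := by
  have e1 := SA_le h012 h013 h023 h123 h014 h024 h124 h034 h134 h234 h015 h025 h125 h035 h135 h235 h045 h145 h245 h345 y0 y1 y2 y3 y4 y5 y6 y7 y8 y9 y10 y11 y12 y13 y14
  have e3 := LS12_le h015 h013 h035 h135 h014 h045 h145 h034 h134 h345 h012 h025 h125 h023 h123 h235 h024 h124 h245 h234 y9 y10 y2 y13 y4 y5 y14 y7 y8 y0 y1 y11 y12 y3 y6
  unfold LS11
  simp only [Nat.add_eq]
  omega
theorem ch11_eq {b012 b013 b023 b123 b014 b024 b124 b034 b134 b234 b015 b025 b125 b035 b135 b235 b045 b145 b245 b345 : ℕ} (h012 : Bt b012) (h013 : Bt b013) (h023 : Bt b023) (h123 : Bt b123) (h014 : Bt b014) (h024 : Bt b024) (h124 : Bt b124) (h034 : Bt b034) (h134 : Bt b134) (h234 : Bt b234) (h015 : Bt b015) (h025 : Bt b025) (h125 : Bt b125) (h035 : Bt b035) (h135 : Bt b135) (h235 : Bt b235) (h045 : Bt b045) (h145 : Bt b145) (h245 : Bt b245) (h345 : Bt b345) : ch11 b012 b013 b023 b123 b014 b024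 b124 b034 b134 b234 b015 b025 b125 b035 b135 b235 b045 b145 b245 b345 = enc 40 15 (fun i => LS11 b012 b013 b023 b123 b014 b024 b124 b034 b134 b234 b015 b025 b125 b035 b135 b235 b045 b145 b245 b345 (bt 0 i) (bt 1 i) (bt 2 i) (bt 3 i) (bt 4 i) (bt 5 i) (bt 6 i) (bt 7 i) (bt 8 i) (bt 9 i) (bt 10 i) (bt 11 i) (bt 12 i) (bt 13 i) (bt 14 i)) := by
  unfold ch11
  rw [ch12_eq h015 h013 h035 h135 h014 h045 h145 h034 h134 h345 h012 h025 h125 h023 h123 h235 h024 h124 h245 h234, swp4 (a1 := 0) (b1 := 9) (a2 := 1) (b2 := 10) (a3 := 3) (b3 := 13) (a4 := 6) (b4 := 14) (by norm_num) (by norm_num) (by norm_num) (by norm_num)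
    (fun i _ => lt_of_le_of_lt (LS12_le h015 h013 h035 h135 h014 h045 h145 h034 h134 h345 h012 h025 h125 h023 h123 h235 h024 h124 h245 h234 (bt01 _ _) (bt01 _ _) (bt01 _ _) (bt01 _ _) (bt01 _ _) (bt01 _ _) (bt01 _ _) (bt01 _ _) (bt01 _ _) (bt01 _ _) (bt01 _ _) (bt01 _ _) (bt01 _ _) (bt01 _ _) (bt01 _ _)) (by norm_num)), TA_eq h012 h013 h023 h123 h014 h024 h124 h034 h134 h234 h015 h025 h125 h035 h135 h235 h045 h145 h245 h345]
  simp only [Nat.add_eq, enc_add]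
  refine enc_congr fun i hi => ?_
  have z0 : bt 0 (sb 0 9 (sb 1 10 (sb 3 13 (sb 6 14 i)))) = bt 9 i := bt_sb4 (by norm_num) (by norm_num) (by norm_num) (by norm_num) hi (by norm_num)
  have z1 : bt 1 (sb 0 9 (sb 1 10 (sb 3 13 (sb 6 14 i)))) = bt 10 i := bt_sb4 (by norm_num) (by norm_num) (by norm_num) (by norm_num) hi (by norm_num)
  have z2 : bt 2 (sb 0 9 (sb 1 10 (sb 3 13 (sb 6 14 i)))) = bt 2 i := bt_sb4 (by norm_num) (by norm_num) (by norm_num) (by norm_num) hi (by norm_num)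
  have z3 : bt 3 (sb 0 9 (sb 1 10 (sb 3 13 (sb 6 14 i)))) = bt 13 i := bt_sb4 (by norm_num) (by norm_num) (by norm_num) (by norm_num) hi (by norm_num)
  have z4 : bt 4 (sb 0 9 (sb 1 10 (sb 3 13 (sb 6 14 i)))) = bt 4 i := bt_sb4 (by norm_num) (by norm_num) (by norm_num) (by norm_num) hi (by norm_num)
  have z5 : bt 5 (sb 0 9 (sb 1 10 (sb 3 13 (sb 6 14 i)))) = bt 5 i := bt_sb4 (by norm_num) (by norm_num) (by norm_num) (by norm_num) hi (by norm_num)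
  have z6 : bt 6 (sb 0 9 (sb 1 10 (sb 3 13 (sb 6 14 i)))) = bt 14 i := bt_sb4 (by norm_num) (by norm_num) (by norm_num) (by norm_num) hi (by norm_num)
  have z7 : bt 7 (sb 0 9 (sb 1 10 (sb 3 13 (sb 6 14 i)))) = bt 7 i := bt_sb4 (by norm_num) (by norm_num) (by norm_num) (by norm_num) hi (by norm_num)
  have z8 : bt 8 (sb 0 9 (sb 1 10 (sb 3 13 (sb 6 14 i)))) = bt 8 i := bt_sb4 (by norm_num) (by norm_num) (by norm_num) (by norm_num) hi (by norm_num)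
  have z9 : bt 9 (sb 0 9 (sb 1 10 (sb 3 13 (sb 6 14 i)))) = bt 0 i := bt_sb4 (by norm_num) (by norm_num) (by norm_num) (by norm_num) hi (by norm_num)
  have z10 : bt 10 (sb 0 9 (sb 1 10 (sb 3 13 (sb 6 14 i)))) = bt 1 i := bt_sb4 (by norm_num) (by norm_num) (by norm_num) (by norm_num) hi (by norm_num)
  have z11 : bt 11 (sb 0 9 (sb 1 10 (sb 3 13 (sb 6 14 i)))) = bt 11 i := bt_sb4 (by norm_num) (by norm_num) (by norm_num) (by norm_num) hi (by norm_num)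
  have z12 : bt 12 (sb 0 9 (sb 1 10 (sb 3 13 (sb 6 14 i)))) = bt 12 i := bt_sb4 (by norm_num) (by norm_num) (by norm_num) (by norm_num) hi (by norm_num)
  have z13 : bt 13 (sb 0 9 (sb 1 10 (sb 3 13 (sb 6 14 i)))) = bt 3 i := bt_sb4 (by norm_num) (by norm_num) (by norm_num) (by norm_num) hi (by norm_num)
  have z14 : bt 14 (sb 0 9 (sb 1 10 (sb 3 13 (sb 6 14 i)))) = bt 6 i := bt_sb4 (by norm_num) (by norm_num) (by norm_num) (by norm_num) hi (by norm_num)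
  rw [z0, z1, z2, z3, z4, z5, z6, z7, z8, z9, z10, z11, z12, z13, z14]
  rfl

def LS10 (b012 b013 b023 b123 b014 b024 b124 b034 b134 b234 b015 b025 b125 b035 b135 b235 b045 b145 b245 b345 x0 x1 x2 x3 x4 x5 x6 x7 x8 x9 x10 x11 x12 x13 x14 : ℕ) : ℕ :=
  (Nat.add (SA b012 b013 b023 b123 b014 b024 b124 b034 b134 b234 b015 b025 b125 b035 b135 b235 b045 b145 b245 b345 x0 x1 x2 x3 x4 x5 x6 x7 x8 x9 x10 x11 x12 x13 x14) (LS11 b012 b014 b024 b124 b013 b023 b123 b034 b134 b234 b015 b025 b125 b045 b145 b245 b035 b135 b235 b345 x0 x1 x2 x14 x11 x12 x13 x7 x8 x9 x10 x4 x5 x6 x3))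
theorem LS10_le {b012 b013 b023 b123 b014 b024 b124 b034 b134 b234 b015 b025 b125 b035 b135 b235 b045 b145 b245 b345 x0 x1 x2 x3 x4 x5 x6 x7 x8 x9 x10 x11 x12 x13 x14 : ℕ} (h012 : Bt b012) (h013 : Bt b013) (h023 : Bt b023) (h123 : Bt b123) (h014 : Bt b014) (h024 : Bt b024) (h124 : Bt b124) (h034 : Bt b034) (h134 : Bt b134) (h234 : Bt b234) (h015 : Bt b015) (h025 : Bt b025) (h125 : Bt b125) (h035 : Bt b035) (h135 : Bt b135) (h235 : Bt b235) (h045 : Bt b045) (h145 : Bt b145) (h245 : Bt b245) (h345 : Bt b345) (y0 : Bt x0) (y1 : Bt x1) (y2 : Bt x2) (y3 : Bt x3) (y4 : Bt x4) (y5 : Bt x5) (y6 : Bt x6) (y7 : Bt x7) (y8 : Bt x8) (y9 : Bt x9) (y10 : Bt x10) (y11 : Bt x11) (y12 : Bt x12) (y13 : Bt x13) (y14 : Bt x14) : LS10 b012 b013 b023 b123 b014 b024 b124 b034 b134 b234 b015 b025 b125 b035 b135 b235 b045 b145 b245 b345 x0 x1 x2 x3 x4 x5 x6 x7 x8 x9 x10 x11 x12 x13 x14 ≤ 99987750826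 := by
  have e1 := SA_le h012 h013 h023 h123 h014 h024 h124 h034 h134 h234 h015 h025 h125 h035 h135 h235 h045 h145 h245 h345 y0 y1 y2 y3 y4 y5 y6 y7 y8 y9 y10 y11 y12 y13 y14
  have e3 := LS11_le h012 h014 h024 h124 h013 h023 h123 h034 h134 h234 h015 h025 h125 h045 h145 h245 h035 h135 h235 h345 y0 y1 y2 y14 y11 y12 y13 y7 y8 y9 y10 y4 y5 y6 y3
  unfold LS10
  simp only [Nat.add_eq]
  omega
theorem ch10_eq {b012 b013 b023 b123 b014 b024 b124 b034 b134 b234 b015 b025 b125 b035 b135 b235 b045 b145 b245 b345 : ℕ} (h012 : Bt b012) (h013 : Bt b013) (h023 : Bt b023) (h123 : Bt b123) (h014 : Bt b014) (h024 : Bt b024) (h124 : Bt b124) (h034 : Bt b034) (h134 : Bt b134) (h234 : Bt b234) (h015 : Bt b015) (h025 : Bt b025) (h125 : Bt b125) (h035 : Bt b035) (h135 : Bt b135) (h235 : Bt b235) (h045 : Bt b045) (h145 : Bt b145) (h245 : Bt b245) (h345 : Bt b345) : ch10 b012 b013 b023 b123 b014 b024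 b124 b034 b134 b234 b015 b025 b125 b035 b135 b235 b045 b145 b245 b345 = enc 40 15 (fun i => LS10 b012 b013 b023 b123 b014 b024 b124 b034 b134 b234 b015 b025 b125 b035 b135 b235 b045 b145 b245 b345 (bt 0 i) (bt 1 i) (bt 2 i) (bt 3 i) (bt 4 i) (bt 5 i) (bt 6 i) (bt 7 i) (bt 8 i) (bt 9 i) (bt 10 i) (bt 11 i) (bt 12 i) (bt 13 i) (bt 14 i)) := by
  unfold ch10
  rw [ch11_eq h012 h014 h024 h124 h013 h023 h123 h034 h134 h234 h015 h025 h125 h045 h145 h245 h035 h135 h235 h345, swp4 (a1 := 4) (b1 := 11) (a2 := 5) (b2 := 12) (a3 := 6) (b3 := 13) (a4 := 3) (b4 := 14) (by norm_num) (by norm_num) (by norm_num) (by norm_num)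
    (fun i _ => lt_of_le_of_lt (LS11_le h012 h014 h024 h124 h013 h023 h123 h034 h134 h234 h015 h025 h125 h045 h145 h245 h035 h135 h235 h345 (bt01 _ _) (bt01 _ _) (bt01 _ _) (bt01 _ _) (bt01 _ _) (bt01 _ _) (bt01 _ _) (bt01 _ _) (bt01 _ _) (bt01 _ _) (bt01 _ _) (bt01 _ _) (bt01 _ _) (bt01 _ _) (bt01 _ _)) (by norm_num)), TA_eq h012 h013 h023 h123 h014 h024 h124 h034 h134 h234 h015 h025 h125 h035 h135 h235 h045 h145 h245 h345]
  simp only [Nat.add_eq, enc_add]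
  refine enc_congr fun i hi => ?_
  have z0 : bt 0 (sb 4 11 (sb 5 12 (sb 6 13 (sb 3 14 i)))) = bt 0 i := bt_sb4 (by norm_num) (by norm_num) (by norm_num) (by norm_num) hi (by norm_num)
  have z1 : bt 1 (sb 4 11 (sb 5 12 (sb 6 13 (sb 3 14 i)))) = bt 1 i := bt_sb4 (by norm_num) (by norm_num) (by norm_num) (by norm_num) hi (by norm_num)
  have z2 : bt 2 (sb 4 11 (sb 5 12 (sb 6 13 (sb 3 14 i)))) = bt 2 i := bt_sb4 (by norm_num) (by norm_num) (by norm_num) (by norm_num) hi (by norm_num)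
  have z3 : bt 3 (sb 4 11 (sb 5 12 (sb 6 13 (sb 3 14 i)))) = bt 14 i := bt_sb4 (by norm_num) (by norm_num) (by norm_num) (by norm_num) hi (by norm_num)
  have z4 : bt 4 (sb 4 11 (sb 5 12 (sb 6 13 (sb 3 14 i)))) = bt 11 i := bt_sb4 (by norm_num) (by norm_num) (by norm_num) (by norm_num) hi (by norm_num)
  have z5 : bt 5 (sb 4 11 (sb 5 12 (sb 6 13 (sb 3 14 i)))) = bt 12 i := bt_sb4 (by norm_num) (by norm_num) (by norm_num) (by norm_num) hi (by norm_num)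
  have z6 : bt 6 (sb 4 11 (sb 5 12 (sb 6 13 (sb 3 14 i)))) = bt 13 i := bt_sb4 (by norm_num) (by norm_num) (by norm_num) (by norm_num) hi (by norm_num)
  have z7 : bt 7 (sb 4 11 (sb 5 12 (sb 6 13 (sb 3 14 i)))) = bt 7 i := bt_sb4 (by norm_num) (by norm_num) (by norm_num) (by norm_num) hi (by norm_num)
  have z8 : bt 8 (sb 4 11 (sb 5 12 (sb 6 13 (sb 3 14 i)))) = bt 8 i := bt_sb4 (by norm_num) (by norm_num) (by norm_num) (by norm_num) hi (by norm_num)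
  have z9 : bt 9 (sb 4 11 (sb 5 12 (sb 6 13 (sb 3 14 i)))) = bt 9 i := bt_sb4 (by norm_num) (by norm_num) (by norm_num) (by norm_num) hi (by norm_num)
  have z10 : bt 10 (sb 4 11 (sb 5 12 (sb 6 13 (sb 3 14 i)))) = bt 10 i := bt_sb4 (by norm_num) (by norm_num) (by norm_num) (by norm_num) hi (by norm_num)
  have z11 : bt 11 (sb 4 11 (sb 5 12 (sb 6 13 (sb 3 14 i)))) = bt 4 i := bt_sb4 (by norm_num) (by norm_num) (by norm_num) (by norm_num) hi (by norm_num)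
  have z12 : bt 12 (sb 4 11 (sb 5 12 (sb 6 13 (sb 3 14 i)))) = bt 5 i := bt_sb4 (by norm_num) (by norm_num) (by norm_num) (by norm_num) hi (by norm_num)
  have z13 : bt 13 (sb 4 11 (sb 5 12 (sb 6 13 (sb 3 14 i)))) = bt 6 i := bt_sb4 (by norm_num) (by norm_num) (by norm_num) (by norm_num) hi (by norm_num)
  have z14 : bt 14 (sb 4 11 (sb 5 12 (sb 6 13 (sb 3 14 i)))) = bt 3 i := bt_sb4 (by norm_num) (by norm_num) (by norm_num) (by norm_num) hi (by norm_num)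
  rw [z0, z1, z2, z3, z4, z5, z6, z7, z8, z9, z10, z11, z12, z13, z14]
  rfl

def LS9 (b012 b013 b023 b123 b014 b024 b124 b034 b134 b234 b015 b025 b125 b035 b135 b235 b045 b145 b245 b345 x0 x1 x2 x3 x4 x5 x6 x7 x8 x9 x10 x11 x12 x13 x14 : ℕ) : ℕ :=
  (Nat.add (SA b012 b013 b023 b123 b014 b024 b124 b034 b134 b234 b015 b025 b125 b035 b135 b235 b045 b145 b245 b345 x0 x1 x2 x3 x4 x5 x6 x7 x8 x9 x10 x11 x12 x13 x14) (Nat.add (SD b012 b013 b023 b123 b014 b024 b124 b034 b134 b234 b015 b025 b125 b035 b135 b235 b045 b145 b245 b345 x0 x1 x2 x3 x4 x5 x6 x7 x8 x9 x10 x11 x12 x13 x14) (LS10 b014 b013 b034 b134 b012 b024 b124 b023 b123 b234 b015 b045 b145 b035 b135 b345 b025 b125 b245 b235 x0 x1 x14 x3 x9 x10 x6 x13 x8 x4 x5 x11 x12 x7 x2)))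
theorem LS9_le {b012 b013 b023 b123 b014 b024 b124 b034 b134 b234 b015 b025 b125 b035 b135 b235 b045 b145 b245 b345 x0 x1 x2 x3 x4 x5 x6 x7 x8 x9 x10 x11 x12 x13 x14 : ℕ} (h012 : Bt b012) (h013 : Bt b013) (h023 : Bt b023) (h123 : Bt b123) (h014 : Bt b014) (h024 : Bt b024) (h124 : Bt b124) (h034 : Bt b034) (h134 : Bt b134) (h234 : Bt b234) (h015 : Bt b015) (h025 : Bt b025) (h125 : Bt b125) (h035 : Bt b035) (h135 : Bt b135) (h235 : Bt b235) (h045 : Bt b045) (h145 : Bt b145) (h245 : Bt b245) (h345 : Bt b345) (y0 : Bt x0) (y1 : Bt x1) (y2 : Bt x2) (y3 : Bt x3) (y4 : Bt x4) (y5 : Bt x5) (y6 : Bt x6) (y7 : Bt x7) (y8 : Bt x8) (y9 : Bt x9) (y10 : Bt x10) (y11 : Bt x11) (y12 : Bt x12) (y13 : Bt x13) (y14 : Bt x14) : LS9 b012 b013 b023 b123 b014 b024 b124 b034 b134 b234 b015 b025 b125 b035 b135 b235 b045 b145 b245 b345 x0 x1 x2 x3 x4 x5 x6 x7 x8 x9 x10 x11 x12 x13 x14 ≤ 122017021848 :=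 by
  have e1 := SA_le h012 h013 h023 h123 h014 h024 h124 h034 h134 h234 h015 h025 h125 h035 h135 h235 h045 h145 h245 h345 y0 y1 y2 y3 y4 y5 y6 y7 y8 y9 y10 y11 y12 y13 y14
  have e2 := SD_le h012 h013 h023 h123 h014 h024 h124 h034 h134 h234 h015 h025 h125 h035 h135 h235 h045 h145 h245 h345 y0 y1 y2 y3 y4 y5 y6 y7 y8 y9 y10 y11 y12 y13 y14
  have e3 := LS10_le h014 h013 h034 h134 h012 h024 h124 h023 h123 h234 h015 h045 h145 h035 h135 h345 h025 h125 h245 h235 y0 y1 y14 y3 y9 y10 y6 y13 y8 y4 y5 y11 y12 y7 y2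
  unfold LS9
  simp only [Nat.add_eq]
  omega
theorem ch9_eq {b012 b013 b023 b123 b014 b024 b124 b034 b134 b234 b015 b025 b125 b035 b135 b235 b045 b145 b245 b345 : ℕ} (h012 : Bt b012) (h013 : Bt b013) (h023 : Bt b023) (h123 : Bt b123) (h014 : Bt b014) (h024 : Bt b024) (h124 : Bt b124) (h034 : Bt b034) (h134 : Bt b134) (h234 : Bt b234) (h015 : Bt b015) (h025 : Bt b025) (h125 : Bt b125) (h035 : Bt b035) (h135 : Bt b135) (h235 : Bt b235) (h045 : Bt b045) (h145 : Bt b145) (h245 : Bt b245) (h345 : Bt b345) : ch9 b012 b013 b023 b123 b014 b024 b124 b034 b134 b234 b015 b025 b125 b035 b135 b235 b045 b145 b245 b345 = enc 40 15 (fun i => LS9 b012 b013 b023 b123 b014 b024 b124 b034 b134 b234 b015 b025 b125 b035 b135 b235 b045 b145 b245 b345 (bt 0 i) (bt 1 i) (bt 2 i) (bt 3 i) (bt 4 i) (bt 5 i) (bt 6 i) (bt 7 i) (bt 8 i) (bt 9 i) (bt 10 i) (bt 11 i) (bt 12 i) (bt 13 i) (bt 14 i)) := by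
  unfold ch9
  rw [ch10_eq h014 h013 h034 h134 h012 h024 h124 h023 h123 h234 h015 h045 h145 h035 h135 h345 h025 h125 h245 h235, swp4 (a1 := 4) (b1 := 9) (a2 := 5) (b2 := 10) (a3 := 7) (b3 := 13) (a4 := 2) (b4 := 14) (by norm_num) (by norm_num) (by norm_num) (by norm_num)
    (fun i _ => lt_of_le_of_lt (LS10_le h014 h013 h034 h134 h012 h024 h124 h023 h123 h234 h015 h045 h145 h035 h135 h345 h025 h125 h245 h235 (bt01 _ _) (bt01 _ _) (bt01 _ _) (bt01 _ _) (bt01 _ _) (bt01 _ _) (bt01 _ _) (bt01 _ _) (bt01 _ _) (bt01 _ _) (bt01 _ _) (bt01 _ _) (bt01 _ _) (bt01 _ _) (bt01 _ _)) (by norm_num)), TA_eq h012 h013 h023 h123 h014 h024 h124 h034 h134 h234 h015 h025 h125 h035 h135 h235 h045 h145 h245 h345, TD_eq h012 h013 h023 h123 h014 h024 h124 h034 h134 h234 h015 h025 h125 h035 h135 h235 h045 h145 h245 h345]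
  simp only [Nat.add_eq, enc_add]
  refine enc_congr fun i hi => ?_
  have z0 : bt 0 (sb 4 9 (sb 5 10 (sb 7 13 (sb 2 14 i)))) = bt 0 i := bt_sb4 (by norm_num) (by norm_num) (by norm_num) (by norm_num) hi (by norm_num)
  have z1 : bt 1 (sb 4 9 (sb 5 10 (sb 7 13 (sb 2 14 i)))) = bt 1 i := bt_sb4 (by norm_num) (by norm_num) (by norm_num) (by norm_num) hi (by norm_num)
  have z2 : bt 2 (sb 4 9 (sb 5 10 (sb 7 13 (sb 2 14 i)))) = bt 14 i := bt_sb4 (by norm_num) (by norm_num) (by norm_num) (by norm_num) hi (by norm_num)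
  have z3 : bt 3 (sb 4 9 (sb 5 10 (sb 7 13 (sb 2 14 i)))) = bt 3 i := bt_sb4 (by norm_num) (by norm_num) (by norm_num) (by norm_num) hi (by norm_num)
  have z4 : bt 4 (sb 4 9 (sb 5 10 (sb 7 13 (sb 2 14 i)))) = bt 9 i := bt_sb4 (by norm_num) (by norm_num) (by norm_num) (by norm_num) hi (by norm_num)
  have z5 : bt 5 (sb 4 9 (sb 5 10 (sb 7 13 (sb 2 14 i)))) = bt 10 i := bt_sb4 (by norm_num) (by norm_num) (by norm_num) (by norm_num) hi (by norm_num)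
  have z6 : bt 6 (sb 4 9 (sb 5 10 (sb 7 13 (sb 2 14 i)))) = bt 6 i := bt_sb4 (by norm_num) (by norm_num) (by norm_num) (by norm_num) hi (by norm_num)
  have z7 : bt 7 (sb 4 9 (sb 5 10 (sb 7 13 (sb 2 14 i)))) = bt 13 i := bt_sb4 (by norm_num) (by norm_num) (by norm_num) (by norm_num) hi (by norm_num)
  have z8 : bt 8 (sb 4 9 (sb 5 10 (sb 7 13 (sb 2 14 i)))) = bt 8 i := bt_sb4 (by norm_num) (by norm_num) (by norm_num) (by norm_num) hi (by norm_num)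
  have z9 : bt 9 (sb 4 9 (sb 5 10 (sb 7 13 (sb 2 14 i)))) = bt 4 i := bt_sb4 (by norm_num) (by norm_num) (by norm_num) (by norm_num) hi (by norm_num)
  have z10 : bt 10 (sb 4 9 (sb 5 10 (sb 7 13 (sb 2 14 i)))) = bt 5 i := bt_sb4 (by norm_num) (by norm_num) (by norm_num) (by norm_num) hi (by norm_num)
  have z11 : bt 11 (sb 4 9 (sb 5 10 (sb 7 13 (sb 2 14 i)))) = bt 11 i := bt_sb4 (by norm_num) (by norm_num) (by norm_num) (by norm_num) hi (by norm_num)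
  have z12 : bt 12 (sb 4 9 (sb 5 10 (sb 7 13 (sb 2 14 i)))) = bt 12 i := bt_sb4 (by norm_num) (by norm_num) (by norm_num) (by norm_num) hi (by norm_num)
  have z13 : bt 13 (sb 4 9 (sb 5 10 (sb 7 13 (sb 2 14 i)))) = bt 7 i := bt_sb4 (by norm_num) (by norm_num) (by norm_num) (by norm_num) hi (by norm_num)
  have z14 : bt 14 (sb 4 9 (sb 5 10 (sb 7 13 (sb 2 14 i)))) = bt 2 i := bt_sb4 (by norm_num) (by norm_num) (by norm_num) (by norm_num) hi (by norm_num)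
  rw [z0, z1, z2, z3, z4, z5, z6, z7, z8, z9, z10, z11, z12, z13, z14]
  rfl

def LS8 (b012 b013 b023 b123 b014 b024 b124 b034 b134 b234 b015 b025 b125 b035 b135 b235 b045 b145 b245 b345 x0 x1 x2 x3 x4 x5 x6 x7 x8 x9 x10 x11 x12 x13 x14 : ℕ) : ℕ :=
  (Nat.add (SA b012 b013 b023 b123 b014 b024 b124 b034 b134 b234 b015 b025 b125 b035 b135 b235 b045 b145 b245 b345 x0 x1 x2 x3 x4 x5 x6 x7 x8 x9 x10 x11 x12 x13 x14) (LS9 b025 b035 b023 b235 b045 b024 b245 b034 b345 b234 b015 b012 b125 b013 b135 b123 b014 b145 b124 b134 x8 x1 x10 x12 x4 x14 x6 x7 x0 x9 x2 x11 x3 x13 x5))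
theorem LS8_le {b012 b013 b023 b123 b014 b024 b124 b034 b134 b234 b015 b025 b125 b035 b135 b235 b045 b145 b245 b345 x0 x1 x2 x3 x4 x5 x6 x7 x8 x9 x10 x11 x12 x13 x14 : ℕ} (h012 : Bt b012) (h013 : Bt b013) (h023 : Bt b023) (h123 : Bt b123) (h014 : Bt b014) (h024 : Bt b024) (h124 : Bt b124) (h034 : Bt b034) (h134 : Bt b134) (h234 : Bt b234) (h015 : Bt b015) (h025 : Bt b025) (h125 : Bt b125) (h035 : Bt b035) (h135 : Bt b135) (h235 : Bt b235) (h045 : Bt b045) (h145 : Bt b145) (h245 : Bt b245) (h345 : Bt b345) (y0 : Bt x0) (y1 : Bt x1) (y2 : Bt x2) (y3 : Bt x3) (y4 : Bt x4) (y5 : Bt x5) (y6 : Bt x6) (y7 : Bt x7) (y8 : Bt x8) (y9 : Bt x9) (y10 : Bt x10) (y11 : Bt x11) (y12 : Bt x12) (y13 : Bt x13) (y14 : Bt x14) : LS8 b012 b013 b023 b123 b014 b024 b124 b034 b134 b234 b015 b025 b125 b035 b135 b235 b045 b145 b245 b345 x0 x1 x2 x3 x4 x5 x6 x7 x8 x9 x10 x11 x12 x13 x14 ≤ 138966990728 :=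 by
  have e1 := SA_le h012 h013 h023 h123 h014 h024 h124 h034 h134 h234 h015 h025 h125 h035 h135 h235 h045 h145 h245 h345 y0 y1 y2 y3 y4 y5 y6 y7 y8 y9 y10 y11 y12 y13 y14
  have e3 := LS9_le h025 h035 h023 h235 h045 h024 h245 h034 h345 h234 h015 h012 h125 h013 h135 h123 h014 h145 h124 h134 y8 y1 y10 y12 y4 y14 y6 y7 y0 y9 y2 y11 y3 y13 y5
  unfold LS8
  simp only [Nat.add_eq]
  omega
theorem ch8_eq {b012 b013 b023 b123 b014 b024 b124 b034 b134 b234 b015 b025 b125 b035 b135 b235 b045 b145 b245 b345 : ℕ} (h012 : Bt b012) (h013 : Bt b013) (h023 : Bt b023) (h123 : Bt b123) (h014 : Bt b014) (h024 : Bt b024) (h124 : Bt b124) (h034 : Bt b034) (h134 : Bt b134) (h234 : Bt b234) (h015 : Bt b015) (h025 : Bt b025) (h125 : Bt b125) (h035 : Bt b035) (h135 : Bt b135) (h235 : Bt b235) (h045 : Bt b045) (h145 : Bt b145) (h245 : Bt b245) (h345 : Bt b345) : ch8 b012 b013 b023 b123 b014 b024 b124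 b034 b134 b234 b015 b025 b125 b035 b135 b235 b045 b145 b245 b345 = enc 40 15 (fun i => LS8 b012 b013 b023 b123 b014 b024 b124 b034 b134 b234 b015 b025 b125 b035 b135 b235 b045 b145 b245 b345 (bt 0 i) (bt 1 i) (bt 2 i) (bt 3 i) (bt 4 i) (bt 5 i) (bt 6 i) (bt 7 i) (bt 8 i) (bt 9 i) (bt 10 i) (bt 11 i) (bt 12 i) (bt 13 i) (bt 14 i)) := by
  unfold ch8
  rw [ch9_eq h025 h035 h023 h235 h045 h024 h245 h034 h345 h234 h015 h012 h125 h013 h135 h123 h014 h145 h124 h134, swp4 (a1 := 0) (b1 := 8) (a2 := 2) (b2 := 10) (a3 := 3) (b3 := 12) (a4 := 5) (b4 := 14) (by norm_num) (by norm_num) (by norm_num) (by norm_num)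
    (fun i _ => lt_of_le_of_lt (LS9_le h025 h035 h023 h235 h045 h024 h245 h034 h345 h234 h015 h012 h125 h013 h135 h123 h014 h145 h124 h134 (bt01 _ _) (bt01 _ _) (bt01 _ _) (bt01 _ _) (bt01 _ _) (bt01 _ _) (bt01 _ _) (bt01 _ _) (bt01 _ _) (bt01 _ _) (bt01 _ _) (bt01 _ _) (bt01 _ _) (bt01 _ _) (bt01 _ _)) (by norm_num)), TA_eq h012 h013 h023 h123 h014 h024 h124 h034 h134 h234 h015 h025 h125 h035 h135 h235 h045 h145 h245 h345]
  simp only [Nat.add_eq, enc_add]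
  refine enc_congr fun i hi => ?_
  have z0 : bt 0 (sb 0 8 (sb 2 10 (sb 3 12 (sb 5 14 i)))) = bt 8 i := bt_sb4 (by norm_num) (by norm_num) (by norm_num) (by norm_num) hi (by norm_num)
  have z1 : bt 1 (sb 0 8 (sb 2 10 (sb 3 12 (sb 5 14 i)))) = bt 1 i := bt_sb4 (by norm_num) (by norm_num) (by norm_num) (by norm_num) hi (by norm_num)
  have z2 : bt 2 (sb 0 8 (sb 2 10 (sb 3 12 (sb 5 14 i)))) = bt 10 i := bt_sb4 (by norm_num) (by norm_num) (by norm_num) (by norm_num) hi (by norm_num)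
  have z3 : bt 3 (sb 0 8 (sb 2 10 (sb 3 12 (sb 5 14 i)))) = bt 12 i := bt_sb4 (by norm_num) (by norm_num) (by norm_num) (by norm_num) hi (by norm_num)
  have z4 : bt 4 (sb 0 8 (sb 2 10 (sb 3 12 (sb 5 14 i)))) = bt 4 i := bt_sb4 (by norm_num) (by norm_num) (by norm_num) (by norm_num) hi (by norm_num)
  have z5 : bt 5 (sb 0 8 (sb 2 10 (sb 3 12 (sb 5 14 i)))) = bt 14 i := bt_sb4 (by norm_num) (by norm_num) (by norm_num) (by norm_num) hi (by norm_num)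
  have z6 : bt 6 (sb 0 8 (sb 2 10 (sb 3 12 (sb 5 14 i)))) = bt 6 i := bt_sb4 (by norm_num) (by norm_num) (by norm_num) (by norm_num) hi (by norm_num)
  have z7 : bt 7 (sb 0 8 (sb 2 10 (sb 3 12 (sb 5 14 i)))) = bt 7 i := bt_sb4 (by norm_num) (by norm_num) (by norm_num) (by norm_num) hi (by norm_num)
  have z8 : bt 8 (sb 0 8 (sb 2 10 (sb 3 12 (sb 5 14 i)))) = bt 0 i := bt_sb4 (by norm_num) (by norm_num) (by norm_num) (by norm_num) hi (by norm_num)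
  have z9 : bt 9 (sb 0 8 (sb 2 10 (sb 3 12 (sb 5 14 i)))) = bt 9 i := bt_sb4 (by norm_num) (by norm_num) (by norm_num) (by norm_num) hi (by norm_num)
  have z10 : bt 10 (sb 0 8 (sb 2 10 (sb 3 12 (sb 5 14 i)))) = bt 2 i := bt_sb4 (by norm_num) (by norm_num) (by norm_num) (by norm_num) hi (by norm_num)
  have z11 : bt 11 (sb 0 8 (sb 2 10 (sb 3 12 (sb 5 14 i)))) = bt 11 i := bt_sb4 (by norm_num) (by norm_num) (by norm_num) (by norm_num) hi (by norm_num)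
  have z12 : bt 12 (sb 0 8 (sb 2 10 (sb 3 12 (sb 5 14 i)))) = bt 3 i := bt_sb4 (by norm_num) (by norm_num) (by norm_num) (by norm_num) hi (by norm_num)
  have z13 : bt 13 (sb 0 8 (sb 2 10 (sb 3 12 (sb 5 14 i)))) = bt 13 i := bt_sb4 (by norm_num) (by norm_num) (by norm_num) (by norm_num) hi (by norm_num)
  have z14 : bt 14 (sb 0 8 (sb 2 10 (sb 3 12 (sb 5 14 i)))) = bt 5 i := bt_sb4 (by norm_num) (by norm_num) (by norm_num) (by norm_num) hi (by norm_num)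
  rw [z0, z1, z2, z3, z4, z5, z6, z7, z8, z9, z10, z11, z12, z13, z14]
  rfl

def LS7 (b012 b013 b023 b123 b014 b024 b124 b034 b134 b234 b015 b025 b125 b035 b135 b235 b045 b145 b245 b345 x0 x1 x2 x3 x4 x5 x6 x7 x8 x9 x10 x11 x12 x13 x14 : ℕ) : ℕ :=
  (Nat.add (SA b012 b013 b023 b123 b014 b024 b124 b034 b134 b234 b015 b025 b125 b035 b135 b235 b045 b145 b245 b345 x0 x1 x2 x3 x4 x5 x6 x7 x8 x9 x10 x11 x12 x13 x14) (LS8 b012 b014 b024 b124 b013 b023 b123 b034 b134 b234 b015 b025 b125 b045 b145 b245 b035 b135 b235 b345 x0 x1 x2 x14 x11 x12 x13 x7 x8 x9 x10 x4 x5 x6 x3))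
theorem LS7_le {b012 b013 b023 b123 b014 b024 b124 b034 b134 b234 b015 b025 b125 b035 b135 b235 b045 b145 b245 b345 x0 x1 x2 x3 x4 x5 x6 x7 x8 x9 x10 x11 x12 x13 x14 : ℕ} (h012 : Bt b012) (h013 : Bt b013) (h023 : Bt b023) (h123 : Bt b123) (h014 : Bt b014) (h024 : Bt b024) (h124 : Bt b124) (h034 : Bt b034) (h134 : Bt b134) (h234 : Bt b234) (h015 : Bt b015) (h025 : Bt b025) (h125 : Bt b125) (h035 : Bt b035) (h135 : Bt b135) (h235 : Bt b235) (h045 : Bt b045) (h145 : Bt b145) (h245 : Bt b245) (h345 : Bt b345) (y0 : Bt x0) (y1 : Bt x1) (y2 : Bt x2) (y3 : Bt x3) (y4 : Bt x4) (y5 : Bt x5) (y6 : Bt x6) (y7 : Bt x7) (y8 : Bt x8) (y9 : Bt x9) (y10 : Bt x10) (y11 : Bt x11) (y12 : Bt x12) (y13 : Bt x13) (y14 : Bt x14) : LS7 b012 b013 b023 b123 b014 b024 b124 b034 b134 b234 b015 b025 b125 b035 b135 b235 b045 b145 b245 b345 x0 x1 x2 x3 x4 x5 x6 x7 x8 x9 x10 x11 x12 x13 x14 ≤ 155916959608 :=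 by
  have e1 := SA_le h012 h013 h023 h123 h014 h024 h124 h034 h134 h234 h015 h025 h125 h035 h135 h235 h045 h145 h245 h345 y0 y1 y2 y3 y4 y5 y6 y7 y8 y9 y10 y11 y12 y13 y14
  have e3 := LS8_le h012 h014 h024 h124 h013 h023 h123 h034 h134 h234 h015 h025 h125 h045 h145 h245 h035 h135 h235 h345 y0 y1 y2 y14 y11 y12 y13 y7 y8 y9 y10 y4 y5 y6 y3
  unfold LS7
  simp only [Nat.add_eq]
  omega
theorem ch7_eq {b012 b013 b023 b123 b014 b024 b124 b034 b134 b234 b015 b025 b125 b035 b135 b235 b045 b145 b245 b345 : ℕ} (h012 : Bt b012) (h013 : Bt b013) (h023 : Bt b023) (h123 : Bt b123) (h014 : Bt b014) (h024 : Bt b024) (h124 : Bt b124) (h034 : Bt b034) (h134 : Bt b134) (h234 : Bt b234) (h015 : Bt b015) (h025 : Bt b025) (h125 : Bt b125) (h035 : Bt b035) (h135 : Bt b135) (h235 : Bt b235) (h045 : Bt b045) (h145 : Bt b145) (h245 : Bt b245) (h345 : Bt b345) : ch7 b012 b013 b023 b123 b014 b024 b124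 b034 b134 b234 b015 b025 b125 b035 b135 b235 b045 b145 b245 b345 = enc 40 15 (fun i => LS7 b012 b013 b023 b123 b014 b024 b124 b034 b134 b234 b015 b025 b125 b035 b135 b235 b045 b145 b245 b345 (bt 0 i) (bt 1 i) (bt 2 i) (bt 3 i) (bt 4 i) (bt 5 i) (bt 6 i) (bt 7 i) (bt 8 i) (bt 9 i) (bt 10 i) (bt 11 i) (bt 12 i) (bt 13 i) (bt 14 i)) := by
  unfold ch7
  rw [ch8_eq h012 h014 h024 h124 h013 h023 h123 h034 h134 h234 h015 h025 h125 h045 h145 h245 h035 h135 h235 h345, swp4 (a1 := 4) (b1 := 11) (a2 := 5) (b2 := 12) (a3 := 6) (b3 := 13) (a4 := 3) (b4 := 14) (by norm_num) (by norm_num) (by norm_num) (by norm_num)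
    (fun i _ => lt_of_le_of_lt (LS8_le h012 h014 h024 h124 h013 h023 h123 h034 h134 h234 h015 h025 h125 h045 h145 h245 h035 h135 h235 h345 (bt01 _ _) (bt01 _ _) (bt01 _ _) (bt01 _ _) (bt01 _ _) (bt01 _ _) (bt01 _ _) (bt01 _ _) (bt01 _ _) (bt01 _ _) (bt01 _ _) (bt01 _ _) (bt01 _ _) (bt01 _ _) (bt01 _ _)) (by norm_num)), TA_eq h012 h013 h023 h123 h014 h024 h124 h034 h134 h234 h015 h025 h125 h035 h135 h235 h045 h145 h245 h345]
  simp only [Nat.add_eq, enc_add]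
  refine enc_congr fun i hi => ?_
  have z0 : bt 0 (sb 4 11 (sb 5 12 (sb 6 13 (sb 3 14 i)))) = bt 0 i := bt_sb4 (by norm_num) (by norm_num) (by norm_num) (by norm_num) hi (by norm_num)
  have z1 : bt 1 (sb 4 11 (sb 5 12 (sb 6 13 (sb 3 14 i)))) = bt 1 i := bt_sb4 (by norm_num) (by norm_num) (by norm_num) (by norm_num) hi (by norm_num)
  have z2 : bt 2 (sb 4 11 (sb 5 12 (sb 6 13 (sb 3 14 i)))) = bt 2 i := bt_sb4 (by norm_num) (by norm_num) (by norm_num) (by norm_num) hi (by norm_num)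
  have z3 : bt 3 (sb 4 11 (sb 5 12 (sb 6 13 (sb 3 14 i)))) = bt 14 i := bt_sb4 (by norm_num) (by norm_num) (by norm_num) (by norm_num) hi (by norm_num)
  have z4 : bt 4 (sb 4 11 (sb 5 12 (sb 6 13 (sb 3 14 i)))) = bt 11 i := bt_sb4 (by norm_num) (by norm_num) (by norm_num) (by norm_num) hi (by norm_num)
  have z5 : bt 5 (sb 4 11 (sb 5 12 (sb 6 13 (sb 3 14 i)))) = bt 12 i := bt_sb4 (by norm_num) (by norm_num) (by norm_num) (by norm_num) hi (by norm_num)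
  have z6 : bt 6 (sb 4 11 (sb 5 12 (sb 6 13 (sb 3 14 i)))) = bt 13 i := bt_sb4 (by norm_num) (by norm_num) (by norm_num) (by norm_num) hi (by norm_num)
  have z7 : bt 7 (sb 4 11 (sb 5 12 (sb 6 13 (sb 3 14 i)))) = bt 7 i := bt_sb4 (by norm_num) (by norm_num) (by norm_num) (by norm_num) hi (by norm_num)
  have z8 : bt 8 (sb 4 11 (sb 5 12 (sb 6 13 (sb 3 14 i)))) = bt 8 i := bt_sb4 (by norm_num) (by norm_num) (by norm_num) (by norm_num) hi (by norm_num)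
  have z9 : bt 9 (sb 4 11 (sb 5 12 (sb 6 13 (sb 3 14 i)))) = bt 9 i := bt_sb4 (by norm_num) (by norm_num) (by norm_num) (by norm_num) hi (by norm_num)
  have z10 : bt 10 (sb 4 11 (sb 5 12 (sb 6 13 (sb 3 14 i)))) = bt 10 i := bt_sb4 (by norm_num) (by norm_num) (by norm_num) (by norm_num) hi (by norm_num)
  have z11 : bt 11 (sb 4 11 (sb 5 12 (sb 6 13 (sb 3 14 i)))) = bt 4 i := bt_sb4 (by norm_num) (by norm_num) (by norm_num) (by norm_num) hi (by norm_num)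
  have z12 : bt 12 (sb 4 11 (sb 5 12 (sb 6 13 (sb 3 14 i)))) = bt 5 i := bt_sb4 (by norm_num) (by norm_num) (by norm_num) (by norm_num) hi (by norm_num)
  have z13 : bt 13 (sb 4 11 (sb 5 12 (sb 6 13 (sb 3 14 i)))) = bt 6 i := bt_sb4 (by norm_num) (by norm_num) (by norm_num) (by norm_num) hi (by norm_num)
  have z14 : bt 14 (sb 4 11 (sb 5 12 (sb 6 13 (sb 3 14 i)))) = bt 3 i := bt_sb4 (by norm_num) (by norm_num) (by norm_num) (by norm_num) hi (by norm_num)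
  rw [z0, z1, z2, z3, z4, z5, z6, z7, z8, z9, z10, z11, z12, z13, z14]
  rfl

def LS6 (b012 b013 b023 b123 b014 b024 b124 b034 b134 b234 b015 b025 b125 b035 b135 b235 b045 b145 b245 b345 x0 x1 x2 x3 x4 x5 x6 x7 x8 x9 x10 x11 x12 x13 x14 : ℕ) : ℕ :=
  (Nat.add (SA b012 b013 b023 b123 b014 b024 b124 b034 b134 b234 b015 b025 b125 b035 b135 b235 b045 b145 b245 b345 x0 x1 x2 x3 x4 x5 x6 x7 x8 x9 x10 x11 x12 x13 x14) (LS7 b014 b013 b034 b134 b012 b024 b124 b023 b123 b234 b015 b045 b145 b035 b135 b345 b025 b125 b245 b235 x0 x1 x14 x3 x9 x10 x6 x13 x8 x4 x5 x11 x12 x7 x2))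
theorem LS6_le {b012 b013 b023 b123 b014 b024 b124 b034 b134 b234 b015 b025 b125 b035 b135 b235 b045 b145 b245 b345 x0 x1 x2 x3 x4 x5 x6 x7 x8 x9 x10 x11 x12 x13 x14 : ℕ} (h012 : Bt b012) (h013 : Bt b013) (h023 : Bt b023) (h123 : Bt b123) (h014 : Bt b014) (h024 : Bt b024) (h124 : Bt b124) (h034 : Bt b034) (h134 : Bt b134) (h234 : Bt b234) (h015 : Bt b015) (h025 : Bt b025) (h125 : Bt b125) (h035 : Bt b035) (h135 : Bt b135) (h235 : Bt b235) (h045 : Bt b045) (h145 : Bt b145) (h245 : Bt b245) (h345 : Bt b345) (y0 : Bt x0) (y1 : Bt x1) (y2 : Bt x2) (y3 : Bt x3) (y4 : Bt x4) (y5 : Bt x5) (y6 : Bt x6) (y7 : Bt x7) (y8 : Bt x8) (y9 : Bt x9) (y10 : Bt x10) (y11 : Bt x11) (y12 : Bt x12) (y13 : Bt x13) (y14 : Bt x14) : LS6 b012 b013 b023 b123 b014 b024 b124 b034 b134 b234 b015 b025 b125 b035 b135 b235 b045 b145 b245 b345 x0 x1 x2 x3 x4 x5 x6 x7 x8 x9 x10 x11 x12 x13 x14 ≤ 172866928488 :=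 by
  have e1 := SA_le h012 h013 h023 h123 h014 h024 h124 h034 h134 h234 h015 h025 h125 h035 h135 h235 h045 h145 h245 h345 y0 y1 y2 y3 y4 y5 y6 y7 y8 y9 y10 y11 y12 y13 y14
  have e3 := LS7_le h014 h013 h034 h134 h012 h024 h124 h023 h123 h234 h015 h045 h145 h035 h135 h345 h025 h125 h245 h235 y0 y1 y14 y3 y9 y10 y6 y13 y8 y4 y5 y11 y12 y7 y2
  unfold LS6
  simp only [Nat.add_eq]
  omega
theorem ch6_eq {b012 b013 b023 b123 b014 b024 b124 b034 b134 b234 b015 b025 b125 b035 b135 b235 b045 b145 b245 b345 : ℕ} (h012 : Bt b012) (h013 : Bt b013) (h023 : Bt b023) (h123 : Bt b123) (h014 : Bt b014) (h024 : Bt b024) (h124 : Bt b124) (h034 : Bt b034) (h134 : Bt b134) (h234 : Bt b234) (h015 : Bt b015) (h025 : Bt b025) (h125 : Bt b125) (h035 : Bt b035) (h135 : Bt b135) (h235 : Bt b235) (h045 : Bt b045) (h145 : Bt b145) (h245 : Bt b245) (h345 : Bt b345) : ch6 b012 b013 b023 b123 b014 b024 b124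 b034 b134 b234 b015 b025 b125 b035 b135 b235 b045 b145 b245 b345 = enc 40 15 (fun i => LS6 b012 b013 b023 b123 b014 b024 b124 b034 b134 b234 b015 b025 b125 b035 b135 b235 b045 b145 b245 b345 (bt 0 i) (bt 1 i) (bt 2 i) (bt 3 i) (bt 4 i) (bt 5 i) (bt 6 i) (bt 7 i) (bt 8 i) (bt 9 i) (bt 10 i) (bt 11 i) (bt 12 i) (bt 13 i) (bt 14 i)) := by
  unfold ch6
  rw [ch7_eq h014 h013 h034 h134 h012 h024 h124 h023 h123 h234 h015 h045 h145 h035 h135 h345 h025 h125 h245 h235, swp4 (a1 := 4) (b1 := 9) (a2 := 5) (b2 := 10) (a3 := 7) (b3 := 13) (a4 := 2) (b4 := 14) (by norm_num) (by norm_num) (by norm_num) (by norm_num)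
    (fun i _ => lt_of_le_of_lt (LS7_le h014 h013 h034 h134 h012 h024 h124 h023 h123 h234 h015 h045 h145 h035 h135 h345 h025 h125 h245 h235 (bt01 _ _) (bt01 _ _) (bt01 _ _) (bt01 _ _) (bt01 _ _) (bt01 _ _) (bt01 _ _) (bt01 _ _) (bt01 _ _) (bt01 _ _) (bt01 _ _) (bt01 _ _) (bt01 _ _) (bt01 _ _) (bt01 _ _)) (by norm_num)), TA_eq h012 h013 h023 h123 h014 h024 h124 h034 h134 h234 h015 h025 h125 h035 h135 h235 h045 h145 h245 h345]
  simp only [Nat.add_eq, enc_add]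
  refine enc_congr fun i hi => ?_
  have z0 : bt 0 (sb 4 9 (sb 5 10 (sb 7 13 (sb 2 14 i)))) = bt 0 i := bt_sb4 (by norm_num) (by norm_num) (by norm_num) (by norm_num) hi (by norm_num)
  have z1 : bt 1 (sb 4 9 (sb 5 10 (sb 7 13 (sb 2 14 i)))) = bt 1 i := bt_sb4 (by norm_num) (by norm_num) (by norm_num) (by norm_num) hi (by norm_num)
  have z2 : bt 2 (sb 4 9 (sb 5 10 (sb 7 13 (sb 2 14 i)))) = bt 14 i := bt_sb4 (by norm_num) (by norm_num) (by norm_num) (by norm_num) hi (by norm_num)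
  have z3 : bt 3 (sb 4 9 (sb 5 10 (sb 7 13 (sb 2 14 i)))) = bt 3 i := bt_sb4 (by norm_num) (by norm_num) (by norm_num) (by norm_num) hi (by norm_num)
  have z4 : bt 4 (sb 4 9 (sb 5 10 (sb 7 13 (sb 2 14 i)))) = bt 9 i := bt_sb4 (by norm_num) (by norm_num) (by norm_num) (by norm_num) hi (by norm_num)
  have z5 : bt 5 (sb 4 9 (sb 5 10 (sb 7 13 (sb 2 14 i)))) = bt 10 i := bt_sb4 (by norm_num) (by norm_num) (by norm_num) (by norm_num) hi (by norm_num)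
  have z6 : bt 6 (sb 4 9 (sb 5 10 (sb 7 13 (sb 2 14 i)))) = bt 6 i := bt_sb4 (by norm_num) (by norm_num) (by norm_num) (by norm_num) hi (by norm_num)
  have z7 : bt 7 (sb 4 9 (sb 5 10 (sb 7 13 (sb 2 14 i)))) = bt 13 i := bt_sb4 (by norm_num) (by norm_num) (by norm_num) (by norm_num) hi (by norm_num)
  have z8 : bt 8 (sb 4 9 (sb 5 10 (sb 7 13 (sb 2 14 i)))) = bt 8 i := bt_sb4 (by norm_num) (by norm_num) (by norm_num) (by norm_num) hi (by norm_num)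
  have z9 : bt 9 (sb 4 9 (sb 5 10 (sb 7 13 (sb 2 14 i)))) = bt 4 i := bt_sb4 (by norm_num) (by norm_num) (by norm_num) (by norm_num) hi (by norm_num)
  have z10 : bt 10 (sb 4 9 (sb 5 10 (sb 7 13 (sb 2 14 i)))) = bt 5 i := bt_sb4 (by norm_num) (by norm_num) (by norm_num) (by norm_num) hi (by norm_num)
  have z11 : bt 11 (sb 4 9 (sb 5 10 (sb 7 13 (sb 2 14 i)))) = bt 11 i := bt_sb4 (by norm_num) (by norm_num) (by norm_num) (by norm_num) hi (by norm_num)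
  have z12 : bt 12 (sb 4 9 (sb 5 10 (sb 7 13 (sb 2 14 i)))) = bt 12 i := bt_sb4 (by norm_num) (by norm_num) (by norm_num) (by norm_num) hi (by norm_num)
  have z13 : bt 13 (sb 4 9 (sb 5 10 (sb 7 13 (sb 2 14 i)))) = bt 7 i := bt_sb4 (by norm_num) (by norm_num) (by norm_num) (by norm_num) hi (by norm_num)
  have z14 : bt 14 (sb 4 9 (sb 5 10 (sb 7 13 (sb 2 14 i)))) = bt 2 i := bt_sb4 (by norm_num) (by norm_num) (by norm_num) (by norm_num) hi (by norm_num)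
  rw [z0, z1, z2, z3, z4, z5, z6, z7, z8, z9, z10, z11, z12, z13, z14]
  rfl

def LS5 (b012 b013 b023 b123 b014 b024 b124 b034 b134 b234 b015 b025 b125 b035 b135 b235 b045 b145 b245 b345 x0 x1 x2 x3 x4 x5 x6 x7 x8 x9 x10 x11 x12 x13 x14 : ℕ) : ℕ :=
  (Nat.add (SA b012 b013 b023 b123 b014 b024 b124 b034 b134 b234 b015 b025 b125 b035 b135 b235 b045 b145 b245 b345 x0 x1 x2 x3 x4 x5 x6 x7 x8 x9 x10 x11 x12 x13 x14) (Nat.add (SD b012 b013 b023 b123 b014 b024 b124 b034 b134 b234 b015 b025 b125 b035 b135 b235 b045 b145 b245 b345 x0 x1 x2 x3 x4 x5 x6 x7 x8 x9 x10 x11 x12 x13 x14) (LS6 b024 b034 b023 b234 b014 b012 b124 b013 b134 b123 b045 b025 b245 b035 b345 b235 b015 b145 b125 b135 x0 x14 x2 x3 x8 x5 x10 x12 x4 x9 x6 x11 x7 x13 x1)))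
theorem LS5_le {b012 b013 b023 b123 b014 b024 b124 b034 b134 b234 b015 b025 b125 b035 b135 b235 b045 b145 b245 b345 x0 x1 x2 x3 x4 x5 x6 x7 x8 x9 x10 x11 x12 x13 x14 : ℕ} (h012 : Bt b012) (h013 : Bt b013) (h023 : Bt b023) (h123 : Bt b123) (h014 : Bt b014) (h024 : Bt b024) (h124 : Bt b124) (h034 : Bt b034) (h134 : Bt b134) (h234 : Bt b234) (h015 : Bt b015) (h025 : Bt b025) (h125 : Bt b125) (h035 : Bt b035) (h135 : Bt b135) (h235 : Bt b235) (h045 : Bt b045) (h145 : Bt b145) (h245 : Bt b245) (h345 : Bt b345) (y0 : Bt x0) (y1 : Bt x1) (y2 : Bt x2) (y3 : Bt x3) (y4 : Bt x4) (y5 : Bt x5) (y6 : Bt x6) (y7 : Bt x7) (y8 : Bt x8) (y9 : Bt x9) (y10 : Bt x10) (y11 : Bt x11) (y12 : Bt x12) (y13 : Bt x13) (y14 : Bt x14) : LS5 b012 b013 b023 b123 b014 b024 b124 b034 b134 b234 b015 b025 b125 b035 b135 b235 b045 b145 b245 b345 x0 x1 x2 x3 x4 x5 x6 x7 x8 x9 x10 x11 x12 x13 x14 ≤ 194896199510 :=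 by
  have e1 := SA_le h012 h013 h023 h123 h014 h024 h124 h034 h134 h234 h015 h025 h125 h035 h135 h235 h045 h145 h245 h345 y0 y1 y2 y3 y4 y5 y6 y7 y8 y9 y10 y11 y12 y13 y14
  have e2 := SD_le h012 h013 h023 h123 h014 h024 h124 h034 h134 h234 h015 h025 h125 h035 h135 h235 h045 h145 h245 h345 y0 y1 y2 y3 y4 y5 y6 y7 y8 y9 y10 y11 y12 y13 y14
  have e3 := LS6_le h024 h034 h023 h234 h014 h012 h124 h013 h134 h123 h045 h025 h245 h035 h345 h235 h015 h145 h125 h135 y0 y14 y2 y3 y8 y5 y10 y12 y4 y9 y6 y11 y7 y13 y1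
  unfold LS5
  simp only [Nat.add_eq]
  omega
theorem ch5_eq {b012 b013 b023 b123 b014 b024 b124 b034 b134 b234 b015 b025 b125 b035 b135 b235 b045 b145 b245 b345 : ℕ} (h012 : Bt b012) (h013 : Bt b013) (h023 : Bt b023) (h123 : Bt b123) (h014 : Bt b014) (h024 : Bt b024) (h124 : Bt b124) (h034 : Bt b034) (h134 : Bt b134) (h234 : Bt b234) (h015 : Bt b015) (h025 : Bt b025) (h125 : Bt b125) (h035 : Bt b035) (h135 : Bt b135) (h235 : Bt b235) (h045 : Bt b045) (h145 : Bt b145) (h245 : Bt b245) (h345 : Bt b345) : ch5 b012 b013 b023 b123 b014 b024 b124 b034 b134 b234 b015 b025 b125 b035 b135 b235 b045 b145 b245 b345 = enc 40 15 (fun i => LS5 b012 b013 b023 b123 b014 b024 b124 b034 b134 b234 b015 b025 b125 b035 b135 b235 b045 b145 b245 b345 (bt 0 i) (bt 1 i) (bt 2 i) (bt 3 i) (bt 4 i) (bt 5 i) (bt 6 i) (bt 7 i) (bt 8 i) (bt 9 i) (bt 10 i) (bt 11 i) (bt 12 i) (bt 13 i) (bt 14 i)) := by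
  unfold ch5
  rw [ch6_eq h024 h034 h023 h234 h014 h012 h124 h013 h134 h123 h045 h025 h245 h035 h345 h235 h015 h145 h125 h135, swp4 (a1 := 4) (b1 := 8) (a2 := 6) (b2 := 10) (a3 := 7) (b3 := 12) (a4 := 1) (b4 := 14) (by norm_num) (by norm_num) (by norm_num) (by norm_num)
    (fun i _ => lt_of_le_of_lt (LS6_le h024 h034 h023 h234 h014 h012 h124 h013 h134 h123 h045 h025 h245 h035 h345 h235 h015 h145 h125 h135 (bt01 _ _) (bt01 _ _) (bt01 _ _) (bt01 _ _) (bt01 _ _) (bt01 _ _) (bt01 _ _) (bt01 _ _) (bt01 _ _) (bt01 _ _) (bt01 _ _) (bt01 _ _) (bt01 _ _) (bt01 _ _) (bt01 _ _)) (by norm_num)), TA_eq h012 h013 h023 h123 h014 h024 h124 h034 h134 h234 h015 h025 h125 h035 h135 h235 h045 h145 h245 h345, TD_eq h012 h013 h023 h123 h014 h024 h124 h034 h134 h234 h015 h025 h125 h035 h135 h235 h045 h145 h245 h345]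
  simp only [Nat.add_eq, enc_add]
  refine enc_congr fun i hi => ?_
  have z0 : bt 0 (sb 4 8 (sb 6 10 (sb 7 12 (sb 1 14 i)))) = bt 0 i := bt_sb4 (by norm_num) (by norm_num) (by norm_num) (by norm_num) hi (by norm_num)
  have z1 : bt 1 (sb 4 8 (sb 6 10 (sb 7 12 (sb 1 14 i)))) = bt 14 i := bt_sb4 (by norm_num) (by norm_num) (by norm_num) (by norm_num) hi (by norm_num)
  have z2 : bt 2 (sb 4 8 (sb 6 10 (sb 7 12 (sb 1 14 i)))) = bt 2 i := bt_sb4 (by norm_num) (by norm_num) (by norm_num) (by norm_num) hi (by norm_num)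
  have z3 : bt 3 (sb 4 8 (sb 6 10 (sb 7 12 (sb 1 14 i)))) = bt 3 i := bt_sb4 (by norm_num) (by norm_num) (by norm_num) (by norm_num) hi (by norm_num)
  have z4 : bt 4 (sb 4 8 (sb 6 10 (sb 7 12 (sb 1 14 i)))) = bt 8 i := bt_sb4 (by norm_num) (by norm_num) (by norm_num) (by norm_num) hi (by norm_num)
  have z5 : bt 5 (sb 4 8 (sb 6 10 (sb 7 12 (sb 1 14 i)))) = bt 5 i := bt_sb4 (by norm_num) (by norm_num) (by norm_num) (by norm_num) hi (by norm_num)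
  have z6 : bt 6 (sb 4 8 (sb 6 10 (sb 7 12 (sb 1 14 i)))) = bt 10 i := bt_sb4 (by norm_num) (by norm_num) (by norm_num) (by norm_num) hi (by norm_num)
  have z7 : bt 7 (sb 4 8 (sb 6 10 (sb 7 12 (sb 1 14 i)))) = bt 12 i := bt_sb4 (by norm_num) (by norm_num) (by norm_num) (by norm_num) hi (by norm_num)
  have z8 : bt 8 (sb 4 8 (sb 6 10 (sb 7 12 (sb 1 14 i)))) = bt 4 i := bt_sb4 (by norm_num) (by norm_num) (by norm_num) (by norm_num) hi (by norm_num)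
  have z9 : bt 9 (sb 4 8 (sb 6 10 (sb 7 12 (sb 1 14 i)))) = bt 9 i := bt_sb4 (by norm_num) (by norm_num) (by norm_num) (by norm_num) hi (by norm_num)
  have z10 : bt 10 (sb 4 8 (sb 6 10 (sb 7 12 (sb 1 14 i)))) = bt 6 i := bt_sb4 (by norm_num) (by norm_num) (by norm_num) (by norm_num) hi (by norm_num)
  have z11 : bt 11 (sb 4 8 (sb 6 10 (sb 7 12 (sb 1 14 i)))) = bt 11 i := bt_sb4 (by norm_num) (by norm_num) (by norm_num) (by norm_num) hi (by norm_num)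
  have z12 : bt 12 (sb 4 8 (sb 6 10 (sb 7 12 (sb 1 14 i)))) = bt 7 i := bt_sb4 (by norm_num) (by norm_num) (by norm_num) (by norm_num) hi (by norm_num)
  have z13 : bt 13 (sb 4 8 (sb 6 10 (sb 7 12 (sb 1 14 i)))) = bt 13 i := bt_sb4 (by norm_num) (by norm_num) (by norm_num) (by norm_num) hi (by norm_num)
  have z14 : bt 14 (sb 4 8 (sb 6 10 (sb 7 12 (sb 1 14 i)))) = bt 1 i := bt_sb4 (by norm_num) (by norm_num) (by norm_num) (by norm_num) hi (by norm_num)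
  rw [z0, z1, z2, z3, z4, z5, z6, z7, z8, z9, z10, z11, z12, z13, z14]
  rfl

def LS4 (b012 b013 b023 b123 b014 b024 b124 b034 b134 b234 b015 b025 b125 b035 b135 b235 b045 b145 b245 b345 x0 x1 x2 x3 x4 x5 x6 x7 x8 x9 x10 x11 x12 x13 x14 : ℕ) : ℕ :=
  (Nat.add (SA b012 b013 b023 b123 b014 b024 b124 b034 b134 b234 b015 b025 b125 b035 b135 b235 b045 b145 b245 b345 x0 x1 x2 x3 x4 x5 x6 x7 x8 x9 x10 x11 x12 x13 x14) (LS5 b125 b135 b235 b123 b145 b245 b124 b345 b134 b234 b015 b025 b012 b035 b013 b023 b045 b014 b024 b034 x0 x8 x9 x11 x14 x5 x6 x7 x1 x2 x10 x3 x12 x13 x4))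
theorem LS4_le {b012 b013 b023 b123 b014 b024 b124 b034 b134 b234 b015 b025 b125 b035 b135 b235 b045 b145 b245 b345 x0 x1 x2 x3 x4 x5 x6 x7 x8 x9 x10 x11 x12 x13 x14 : ℕ} (h012 : Bt b012) (h013 : Bt b013) (h023 : Bt b023) (h123 : Bt b123) (h014 : Bt b014) (h024 : Bt b024) (h124 : Bt b124) (h034 : Bt b034) (h134 : Bt b134) (h234 : Bt b234) (h015 : Bt b015) (h025 : Bt b025) (h125 : Bt b125) (h035 : Bt b035) (h135 : Bt b135) (h235 : Bt b235) (h045 : Bt b045) (h145 : Bt b145) (h245 : Bt b245) (h345 : Bt b345) (y0 : Bt x0) (y1 : Bt x1) (y2 : Bt x2) (y3 : Bt x3) (y4 : Bt x4) (y5 : Bt x5) (y6 : Bt x6) (y7 : Bt x7) (y8 : Bt x8) (y9 : Bt x9) (y10 : Bt x10) (y11 : Bt x11) (y12 : Bt x12) (y13 : Bt x13) (y14 : Bt x14) : LS4 b012 b013 b023 b123 b014 b024 b124 b034 b134 b234 b015 b025 b125 b035 b135 b235 b045 b145 b245 b345 x0 x1 x2 x3 x4 x5 x6 x7 x8 x9 x10 x11 x12 x13 x14 ≤ 211846168390 :=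 by
  have e1 := SA_le h012 h013 h023 h123 h014 h024 h124 h034 h134 h234 h015 h025 h125 h035 h135 h235 h045 h145 h245 h345 y0 y1 y2 y3 y4 y5 y6 y7 y8 y9 y10 y11 y12 y13 y14
  have e3 := LS5_le h125 h135 h235 h123 h145 h245 h124 h345 h134 h234 h015 h025 h012 h035 h013 h023 h045 h014 h024 h034 y0 y8 y9 y11 y14 y5 y6 y7 y1 y2 y10 y3 y12 y13 y4
  unfold LS4
  simp only [Nat.add_eq]
  omega
theorem ch4_eq {b012 b013 b023 b123 b014 b024 b124 b034 b134 b234 b015 b025 b125 b035 b135 b235 b045 b145 b245 b345 : ℕ} (h012 : Bt b012) (h013 : Bt b013) (h023 : Bt b023) (h123 : Bt b123) (h014 : Bt b014) (h024 : Bt b024) (h124 : Bt b124) (h034 : Bt b034) (h134 : Bt b134) (h234 : Bt b234) (h015 : Bt b015) (h025 : Bt b025) (h125 : Bt b125) (h035 : Bt b035) (h135 : Bt b135) (h235 : Bt b235) (h045 : Bt b045) (h145 : Bt b145) (h245 : Bt b245) (h345 : Bt b345) : ch4 b012 b013 b023 b123 b014 b024 b124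 b034 b134 b234 b015 b025 b125 b035 b135 b235 b045 b145 b245 b345 = enc 40 15 (fun i => LS4 b012 b013 b023 b123 b014 b024 b124 b034 b134 b234 b015 b025 b125 b035 b135 b235 b045 b145 b245 b345 (bt 0 i) (bt 1 i) (bt 2 i) (bt 3 i) (bt 4 i) (bt 5 i) (bt 6 i) (bt 7 i) (bt 8 i) (bt 9 i) (bt 10 i) (bt 11 i) (bt 12 i) (bt 13 i) (bt 14 i)) := by
  unfold ch4
  rw [ch5_eq h125 h135 h235 h123 h145 h245 h124 h345 h134 h234 h015 h025 h012 h035 h013 h023 h045 h014 h024 h034, swp4 (a1 := 1) (b1 := 8) (a2 := 2) (b2 := 9) (a3 := 3) (b3 := 11) (a4 := 4) (b4 := 14) (by norm_num) (by norm_num) (by norm_num) (by norm_num)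
    (fun i _ => lt_of_le_of_lt (LS5_le h125 h135 h235 h123 h145 h245 h124 h345 h134 h234 h015 h025 h012 h035 h013 h023 h045 h014 h024 h034 (bt01 _ _) (bt01 _ _) (bt01 _ _) (bt01 _ _) (bt01 _ _) (bt01 _ _) (bt01 _ _) (bt01 _ _) (bt01 _ _) (bt01 _ _) (bt01 _ _) (bt01 _ _) (bt01 _ _) (bt01 _ _) (bt01 _ _)) (by norm_num)), TA_eq h012 h013 h023 h123 h014 h024 h124 h034 h134 h234 h015 h025 h125 h035 h135 h235 h045 h145 h245 h345]
  simp only [Nat.add_eq, enc_add]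
  refine enc_congr fun i hi => ?_
  have z0 : bt 0 (sb 1 8 (sb 2 9 (sb 3 11 (sb 4 14 i)))) = bt 0 i := bt_sb4 (by norm_num) (by norm_num) (by norm_num) (by norm_num) hi (by norm_num)
  have z1 : bt 1 (sb 1 8 (sb 2 9 (sb 3 11 (sb 4 14 i)))) = bt 8 i := bt_sb4 (by norm_num) (by norm_num) (by norm_num) (by norm_num) hi (by norm_num)
  have z2 : bt 2 (sb 1 8 (sb 2 9 (sb 3 11 (sb 4 14 i)))) = bt 9 i := bt_sb4 (by norm_num) (by norm_num) (by norm_num) (by norm_num) hi (by norm_num)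
  have z3 : bt 3 (sb 1 8 (sb 2 9 (sb 3 11 (sb 4 14 i)))) = bt 11 i := bt_sb4 (by norm_num) (by norm_num) (by norm_num) (by norm_num) hi (by norm_num)
  have z4 : bt 4 (sb 1 8 (sb 2 9 (sb 3 11 (sb 4 14 i)))) = bt 14 i := bt_sb4 (by norm_num) (by norm_num) (by norm_num) (by norm_num) hi (by norm_num)
  have z5 : bt 5 (sb 1 8 (sb 2 9 (sb 3 11 (sb 4 14 i)))) = bt 5 i := bt_sb4 (by norm_num) (by norm_num) (by norm_num) (by norm_num) hi (by norm_num)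
  have z6 : bt 6 (sb 1 8 (sb 2 9 (sb 3 11 (sb 4 14 i)))) = bt 6 i := bt_sb4 (by norm_num) (by norm_num) (by norm_num) (by norm_num) hi (by norm_num)
  have z7 : bt 7 (sb 1 8 (sb 2 9 (sb 3 11 (sb 4 14 i)))) = bt 7 i := bt_sb4 (by norm_num) (by norm_num) (by norm_num) (by norm_num) hi (by norm_num)
  have z8 : bt 8 (sb 1 8 (sb 2 9 (sb 3 11 (sb 4 14 i)))) = bt 1 i := bt_sb4 (by norm_num) (by norm_num) (by norm_num) (by norm_num) hi (by norm_num)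
  have z9 : bt 9 (sb 1 8 (sb 2 9 (sb 3 11 (sb 4 14 i)))) = bt 2 i := bt_sb4 (by norm_num) (by norm_num) (by norm_num) (by norm_num) hi (by norm_num)
  have z10 : bt 10 (sb 1 8 (sb 2 9 (sb 3 11 (sb 4 14 i)))) = bt 10 i := bt_sb4 (by norm_num) (by norm_num) (by norm_num) (by norm_num) hi (by norm_num)
  have z11 : bt 11 (sb 1 8 (sb 2 9 (sb 3 11 (sb 4 14 i)))) = bt 3 i := bt_sb4 (by norm_num) (by norm_num) (by norm_num) (by norm_num) hi (by norm_num)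
  have z12 : bt 12 (sb 1 8 (sb 2 9 (sb 3 11 (sb 4 14 i)))) = bt 12 i := bt_sb4 (by norm_num) (by norm_num) (by norm_num) (by norm_num) hi (by norm_num)
  have z13 : bt 13 (sb 1 8 (sb 2 9 (sb 3 11 (sb 4 14 i)))) = bt 13 i := bt_sb4 (by norm_num) (by norm_num) (by norm_num) (by norm_num) hi (by norm_num)
  have z14 : bt 14 (sb 1 8 (sb 2 9 (sb 3 11 (sb 4 14 i)))) = bt 4 i := bt_sb4 (by norm_num) (by norm_num) (by norm_num) (by norm_num) hi (by norm_num)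
  rw [z0, z1, z2, z3, z4, z5, z6, z7, z8, z9, z10, z11, z12, z13, z14]
  rfl

def LS3 (b012 b013 b023 b123 b014 b024 b124 b034 b134 b234 b015 b025 b125 b035 b135 b235 b045 b145 b245 b345 x0 x1 x2 x3 x4 x5 x6 x7 x8 x9 x10 x11 x12 x13 x14 : ℕ) : ℕ :=
  (Nat.add (SA b012 b013 b023 b123 b014 b024 b124 b034 b134 b234 b015 b025 b125 b035 b135 b235 b045 b145 b245 b345 x0 x1 x2 x3 x4 x5 x6 x7 x8 x9 x10 x11 x12 x13 x14) (LS4 b012 b014 b024 b124 b013 b023 b123 b034 b134 b234 b015 b025 b125 b045 b145 b245 b035 b135 b235 b345 x0 x1 x2 x14 x11 x12 x13 x7 x8 x9 x10 x4 x5 x6 x3))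
theorem LS3_le {b012 b013 b023 b123 b014 b024 b124 b034 b134 b234 b015 b025 b125 b035 b135 b235 b045 b145 b245 b345 x0 x1 x2 x3 x4 x5 x6 x7 x8 x9 x10 x11 x12 x13 x14 : ℕ} (h012 : Bt b012) (h013 : Bt b013) (h023 : Bt b023) (h123 : Bt b123) (h014 : Bt b014) (h024 : Bt b024) (h124 : Bt b124) (h034 : Bt b034) (h134 : Bt b134) (h234 : Bt b234) (h015 : Bt b015) (h025 : Bt b025) (h125 : Bt b125) (h035 : Bt b035) (h135 : Bt b135) (h235 : Bt b235) (h045 : Bt b045) (h145 : Bt b145) (h245 : Bt b245) (h345 : Bt b345) (y0 : Bt x0) (y1 : Bt x1) (y2 : Bt x2) (y3 : Bt x3) (y4 : Bt x4) (y5 : Bt x5) (y6 : Bt x6) (y7 : Bt x7) (y8 : Bt x8) (y9 : Bt x9) (y10 : Bt x10) (y11 : Bt x11) (y12 : Bt x12) (y13 : Bt x13) (y14 : Bt x14) : LS3 b012 b013 b023 b123 b014 b024 b124 b034 b134 b234 b015 b025 b125 b035 b135 b235 b045 b145 b245 b345 x0 x1 x2 x3 x4 x5 x6 x7 x8 x9 x10 x11 x12 x13 x14 ≤ 228796137270 :=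 by
  have e1 := SA_le h012 h013 h023 h123 h014 h024 h124 h034 h134 h234 h015 h025 h125 h035 h135 h235 h045 h145 h245 h345 y0 y1 y2 y3 y4 y5 y6 y7 y8 y9 y10 y11 y12 y13 y14
  have e3 := LS4_le h012 h014 h024 h124 h013 h023 h123 h034 h134 h234 h015 h025 h125 h045 h145 h245 h035 h135 h235 h345 y0 y1 y2 y14 y11 y12 y13 y7 y8 y9 y10 y4 y5 y6 y3
  unfold LS3
  simp only [Nat.add_eq]
  omega
theorem ch3_eq {b012 b013 b023 b123 b014 b024 b124 b034 b134 b234 b015 b025 b125 b035 b135 b235 b045 b145 b245 b345 : ℕ} (h012 : Bt b012) (h013 : Bt b013) (h023 : Bt b023) (h123 : Bt b123) (h014 : Bt b014) (h024 : Bt b024) (h124 : Bt b124) (h034 : Bt b034) (h134 : Bt b134) (h234 : Bt b234) (h015 : Bt b015) (h025 : Bt b025) (h125 : Bt b125) (h035 : Bt b035) (h135 : Bt b135) (h235 : Bt b235) (h045 : Bt b045) (h145 : Bt b145) (h245 : Bt b245) (h345 : Bt b345) : ch3 b012 b013 b023 b123 b014 b024 b124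 b034 b134 b234 b015 b025 b125 b035 b135 b235 b045 b145 b245 b345 = enc 40 15 (fun i => LS3 b012 b013 b023 b123 b014 b024 b124 b034 b134 b234 b015 b025 b125 b035 b135 b235 b045 b145 b245 b345 (bt 0 i) (bt 1 i) (bt 2 i) (bt 3 i) (bt 4 i) (bt 5 i) (bt 6 i) (bt 7 i) (bt 8 i) (bt 9 i) (bt 10 i) (bt 11 i) (bt 12 i) (bt 13 i) (bt 14 i)) := by
  unfold ch3
  rw [ch4_eq h012 h014 h024 h124 h013 h023 h123 h034 h134 h234 h015 h025 h125 h045 h145 h245 h035 h135 h235 h345, swp4 (a1 := 4) (b1 := 11) (a2 := 5) (b2 := 12) (a3 := 6) (b3 := 13) (a4 := 3) (b4 := 14) (by norm_num) (by norm_num) (by norm_num) (by norm_num)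
    (fun i _ => lt_of_le_of_lt (LS4_le h012 h014 h024 h124 h013 h023 h123 h034 h134 h234 h015 h025 h125 h045 h145 h245 h035 h135 h235 h345 (bt01 _ _) (bt01 _ _) (bt01 _ _) (bt01 _ _) (bt01 _ _) (bt01 _ _) (bt01 _ _) (bt01 _ _) (bt01 _ _) (bt01 _ _) (bt01 _ _) (bt01 _ _) (bt01 _ _) (bt01 _ _) (bt01 _ _)) (by norm_num)), TA_eq h012 h013 h023 h123 h014 h024 h124 h034 h134 h234 h015 h025 h125 h035 h135 h235 h045 h145 h245 h345]
  simp only [Nat.add_eq, enc_add]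
  refine enc_congr fun i hi => ?_
  have z0 : bt 0 (sb 4 11 (sb 5 12 (sb 6 13 (sb 3 14 i)))) = bt 0 i := bt_sb4 (by norm_num) (by norm_num) (by norm_num) (by norm_num) hi (by norm_num)
  have z1 : bt 1 (sb 4 11 (sb 5 12 (sb 6 13 (sb 3 14 i)))) = bt 1 i := bt_sb4 (by norm_num) (by norm_num) (by norm_num) (by norm_num) hi (by norm_num)
  have z2 : bt 2 (sb 4 11 (sb 5 12 (sb 6 13 (sb 3 14 i)))) = bt 2 i := bt_sb4 (by norm_num) (by norm_num) (by norm_num) (by norm_num) hi (by norm_num)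
  have z3 : bt 3 (sb 4 11 (sb 5 12 (sb 6 13 (sb 3 14 i)))) = bt 14 i := bt_sb4 (by norm_num) (by norm_num) (by norm_num) (by norm_num) hi (by norm_num)
  have z4 : bt 4 (sb 4 11 (sb 5 12 (sb 6 13 (sb 3 14 i)))) = bt 11 i := bt_sb4 (by norm_num) (by norm_num) (by norm_num) (by norm_num) hi (by norm_num)
  have z5 : bt 5 (sb 4 11 (sb 5 12 (sb 6 13 (sb 3 14 i)))) = bt 12 i := bt_sb4 (by norm_num) (by norm_num) (by norm_num) (by norm_num) hi (by norm_num)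
  have z6 : bt 6 (sb 4 11 (sb 5 12 (sb 6 13 (sb 3 14 i)))) = bt 13 i := bt_sb4 (by norm_num) (by norm_num) (by norm_num) (by norm_num) hi (by norm_num)
  have z7 : bt 7 (sb 4 11 (sb 5 12 (sb 6 13 (sb 3 14 i)))) = bt 7 i := bt_sb4 (by norm_num) (by norm_num) (by norm_num) (by norm_num) hi (by norm_num)
  have z8 : bt 8 (sb 4 11 (sb 5 12 (sb 6 13 (sb 3 14 i)))) = bt 8 i := bt_sb4 (by norm_num) (by norm_num) (by norm_num) (by norm_num) hi (by norm_num)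
  have z9 : bt 9 (sb 4 11 (sb 5 12 (sb 6 13 (sb 3 14 i)))) = bt 9 i := bt_sb4 (by norm_num) (by norm_num) (by norm_num) (by norm_num) hi (by norm_num)
  have z10 : bt 10 (sb 4 11 (sb 5 12 (sb 6 13 (sb 3 14 i)))) = bt 10 i := bt_sb4 (by norm_num) (by norm_num) (by norm_num) (by norm_num) hi (by norm_num)
  have z11 : bt 11 (sb 4 11 (sb 5 12 (sb 6 13 (sb 3 14 i)))) = bt 4 i := bt_sb4 (by norm_num) (by norm_num) (by norm_num) (by norm_num) hi (by norm_num)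
  have z12 : bt 12 (sb 4 11 (sb 5 12 (sb 6 13 (sb 3 14 i)))) = bt 5 i := bt_sb4 (by norm_num) (by norm_num) (by norm_num) (by norm_num) hi (by norm_num)
  have z13 : bt 13 (sb 4 11 (sb 5 12 (sb 6 13 (sb 3 14 i)))) = bt 6 i := bt_sb4 (by norm_num) (by norm_num) (by norm_num) (by norm_num) hi (by norm_num)
  have z14 : bt 14 (sb 4 11 (sb 5 12 (sb 6 13 (sb 3 14 i)))) = bt 3 i := bt_sb4 (by norm_num) (by norm_num) (by norm_num) (by norm_num) hi (by norm_num)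
  rw [z0, z1, z2, z3, z4, z5, z6, z7, z8, z9, z10, z11, z12, z13, z14]
  rfl

def LS2 (b012 b013 b023 b123 b014 b024 b124 b034 b134 b234 b015 b025 b125 b035 b135 b235 b045 b145 b245 b345 x0 x1 x2 x3 x4 x5 x6 x7 x8 x9 x10 x11 x12 x13 x14 : ℕ) : ℕ :=
  (Nat.add (SA b012 b013 b023 b123 b014 b024 b124 b034 b134 b234 b015 b025 b125 b035 b135 b235 b045 b145 b245 b345 x0 x1 x2 x3 x4 x5 x6 x7 x8 x9 x10 x11 x12 x13 x14) (LS3 b014 b013 b034 b134 b012 b024 b124 b023 b123 b234 b015 b045 b145 b035 b135 b345 b025 b125 b245 b235 x0 x1 x14 x3 x9 x10 x6 x13 x8 x4 x5 x11 x12 x7 x2))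
theorem LS2_le {b012 b013 b023 b123 b014 b024 b124 b034 b134 b234 b015 b025 b125 b035 b135 b235 b045 b145 b245 b345 x0 x1 x2 x3 x4 x5 x6 x7 x8 x9 x10 x11 x12 x13 x14 : ℕ} (h012 : Bt b012) (h013 : Bt b013) (h023 : Bt b023) (h123 : Bt b123) (h014 : Bt b014) (h024 : Bt b024) (h124 : Bt b124) (h034 : Bt b034) (h134 : Bt b134) (h234 : Bt b234) (h015 : Bt b015) (h025 : Bt b025) (h125 : Bt b125) (h035 : Bt b035) (h135 : Bt b135) (h235 : Bt b235) (h045 : Bt b045) (h145 : Bt b145) (h245 : Bt b245) (h345 : Bt b345) (y0 : Bt x0) (y1 : Bt x1) (y2 : Bt x2) (y3 : Bt x3) (y4 : Bt x4) (y5 : Bt x5) (y6 : Bt x6) (y7 : Bt x7) (y8 : Bt x8) (y9 : Bt x9) (y10 : Bt x10) (y11 : Bt x11) (y12 : Bt x12) (y13 : Bt x13) (y14 : Bt x14) : LS2 b012 b013 b023 b123 b014 b024 b124 b034 b134 b234 b015 b025 b125 b035 b135 b235 b045 b145 b245 b345 x0 x1 x2 x3 x4 x5 x6 x7 x8 x9 x10 x11 x12 x13 x14 ≤ 245746106150 :=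 by
  have e1 := SA_le h012 h013 h023 h123 h014 h024 h124 h034 h134 h234 h015 h025 h125 h035 h135 h235 h045 h145 h245 h345 y0 y1 y2 y3 y4 y5 y6 y7 y8 y9 y10 y11 y12 y13 y14
  have e3 := LS3_le h014 h013 h034 h134 h012 h024 h124 h023 h123 h234 h015 h045 h145 h035 h135 h345 h025 h125 h245 h235 y0 y1 y14 y3 y9 y10 y6 y13 y8 y4 y5 y11 y12 y7 y2
  unfold LS2
  simp only [Nat.add_eq]
  omega
theorem ch2_eq {b012 b013 b023 b123 b014 b024 b124 b034 b134 b234 b015 b025 b125 b035 b135 b235 b045 b145 b245 b345 : ℕ} (h012 : Bt b012) (h013 : Bt b013) (h023 : Bt b023) (h123 : Bt b123) (h014 : Bt b014) (h024 : Bt b024) (h124 : Bt b124) (h034 : Bt b034) (h134 : Bt b134) (h234 : Bt b234) (h015 : Bt b015) (h025 : Bt b025) (h125 : Bt b125) (h035 : Bt b035) (h135 : Bt b135) (h235 : Bt b235) (h045 : Bt b045) (h145 : Bt b145) (h245 : Bt b245) (h345 : Bt b345) : ch2 b012 b013 b023 b123 b014 b024 b124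 b034 b134 b234 b015 b025 b125 b035 b135 b235 b045 b145 b245 b345 = enc 40 15 (fun i => LS2 b012 b013 b023 b123 b014 b024 b124 b034 b134 b234 b015 b025 b125 b035 b135 b235 b045 b145 b245 b345 (bt 0 i) (bt 1 i) (bt 2 i) (bt 3 i) (bt 4 i) (bt 5 i) (bt 6 i) (bt 7 i) (bt 8 i) (bt 9 i) (bt 10 i) (bt 11 i) (bt 12 i) (bt 13 i) (bt 14 i)) := by
  unfold ch2
  rw [ch3_eq h014 h013 h034 h134 h012 h024 h124 h023 h123 h234 h015 h045 h145 h035 h135 h345 h025 h125 h245 h235, swp4 (a1 := 4) (b1 := 9) (a2 := 5) (b2 := 10) (a3 := 7) (b3 := 13) (a4 := 2) (b4 := 14) (by norm_num) (by norm_num) (by norm_num) (by norm_num)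
    (fun i _ => lt_of_le_of_lt (LS3_le h014 h013 h034 h134 h012 h024 h124 h023 h123 h234 h015 h045 h145 h035 h135 h345 h025 h125 h245 h235 (bt01 _ _) (bt01 _ _) (bt01 _ _) (bt01 _ _) (bt01 _ _) (bt01 _ _) (bt01 _ _) (bt01 _ _) (bt01 _ _) (bt01 _ _) (bt01 _ _) (bt01 _ _) (bt01 _ _) (bt01 _ _) (bt01 _ _)) (by norm_num)), TA_eq h012 h013 h023 h123 h014 h024 h124 h034 h134 h234 h015 h025 h125 h035 h135 h235 h045 h145 h245 h345]
  simp only [Nat.add_eq, enc_add]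
  refine enc_congr fun i hi => ?_
  have z0 : bt 0 (sb 4 9 (sb 5 10 (sb 7 13 (sb 2 14 i)))) = bt 0 i := bt_sb4 (by norm_num) (by norm_num) (by norm_num) (by norm_num) hi (by norm_num)
  have z1 : bt 1 (sb 4 9 (sb 5 10 (sb 7 13 (sb 2 14 i)))) = bt 1 i := bt_sb4 (by norm_num) (by norm_num) (by norm_num) (by norm_num) hi (by norm_num)
  have z2 : bt 2 (sb 4 9 (sb 5 10 (sb 7 13 (sb 2 14 i)))) = bt 14 i := bt_sb4 (by norm_num) (by norm_num) (by norm_num) (by norm_num) hi (by norm_num)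
  have z3 : bt 3 (sb 4 9 (sb 5 10 (sb 7 13 (sb 2 14 i)))) = bt 3 i := bt_sb4 (by norm_num) (by norm_num) (by norm_num) (by norm_num) hi (by norm_num)
  have z4 : bt 4 (sb 4 9 (sb 5 10 (sb 7 13 (sb 2 14 i)))) = bt 9 i := bt_sb4 (by norm_num) (by norm_num) (by norm_num) (by norm_num) hi (by norm_num)
  have z5 : bt 5 (sb 4 9 (sb 5 10 (sb 7 13 (sb 2 14 i)))) = bt 10 i := bt_sb4 (by norm_num) (by norm_num) (by norm_num) (by norm_num) hi (by norm_num)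
  have z6 : bt 6 (sb 4 9 (sb 5 10 (sb 7 13 (sb 2 14 i)))) = bt 6 i := bt_sb4 (by norm_num) (by norm_num) (by norm_num) (by norm_num) hi (by norm_num)
  have z7 : bt 7 (sb 4 9 (sb 5 10 (sb 7 13 (sb 2 14 i)))) = bt 13 i := bt_sb4 (by norm_num) (by norm_num) (by norm_num) (by norm_num) hi (by norm_num)
  have z8 : bt 8 (sb 4 9 (sb 5 10 (sb 7 13 (sb 2 14 i)))) = bt 8 i := bt_sb4 (by norm_num) (by norm_num) (by norm_num) (by norm_num) hi (by norm_num)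
  have z9 : bt 9 (sb 4 9 (sb 5 10 (sb 7 13 (sb 2 14 i)))) = bt 4 i := bt_sb4 (by norm_num) (by norm_num) (by norm_num) (by norm_num) hi (by norm_num)
  have z10 : bt 10 (sb 4 9 (sb 5 10 (sb 7 13 (sb 2 14 i)))) = bt 5 i := bt_sb4 (by norm_num) (by norm_num) (by norm_num) (by norm_num) hi (by norm_num)
  have z11 : bt 11 (sb 4 9 (sb 5 10 (sb 7 13 (sb 2 14 i)))) = bt 11 i := bt_sb4 (by norm_num) (by norm_num) (by norm_num) (by norm_num) hi (by norm_num)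
  have z12 : bt 12 (sb 4 9 (sb 5 10 (sb 7 13 (sb 2 14 i)))) = bt 12 i := bt_sb4 (by norm_num) (by norm_num) (by norm_num) (by norm_num) hi (by norm_num)
  have z13 : bt 13 (sb 4 9 (sb 5 10 (sb 7 13 (sb 2 14 i)))) = bt 7 i := bt_sb4 (by norm_num) (by norm_num) (by norm_num) (by norm_num) hi (by norm_num)
  have z14 : bt 14 (sb 4 9 (sb 5 10 (sb 7 13 (sb 2 14 i)))) = bt 2 i := bt_sb4 (by norm_num) (by norm_num) (by norm_num) (by norm_num) hi (by norm_num)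
  rw [z0, z1, z2, z3, z4, z5, z6, z7, z8, z9, z10, z11, z12, z13, z14]
  rfl

def LS1 (b012 b013 b023 b123 b014 b024 b124 b034 b134 b234 b015 b025 b125 b035 b135 b235 b045 b145 b245 b345 x0 x1 x2 x3 x4 x5 x6 x7 x8 x9 x10 x11 x12 x13 x14 : ℕ) : ℕ :=
  (Nat.add (SA b012 b013 b023 b123 b014 b024 b124 b034 b134 b234 b015 b025 b125 b035 b135 b235 b045 b145 b245 b345 x0 x1 x2 x3 x4 x5 x6 x7 x8 x9 x10 x11 x12 x13 x14) (LS2 b024 b034 b023 b234 b014 b012 b124 b013 b134 b123 b045 b025 b245 b035 b345 b235 b015 b145 b125 b135 x0 x14 x2 x3 x8 x5 x10 x12 x4 x9 x6 x11 x7 x13 x1))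
theorem LS1_le {b012 b013 b023 b123 b014 b024 b124 b034 b134 b234 b015 b025 b125 b035 b135 b235 b045 b145 b245 b345 x0 x1 x2 x3 x4 x5 x6 x7 x8 x9 x10 x11 x12 x13 x14 : ℕ} (h012 : Bt b012) (h013 : Bt b013) (h023 : Bt b023) (h123 : Bt b123) (h014 : Bt b014) (h024 : Bt b024) (h124 : Bt b124) (h034 : Bt b034) (h134 : Bt b134) (h234 : Bt b234) (h015 : Bt b015) (h025 : Bt b025) (h125 : Bt b125) (h035 : Bt b035) (h135 : Bt b135) (h235 : Bt b235) (h045 : Bt b045) (h145 : Bt b145) (h245 : Bt b245) (h345 : Bt b345) (y0 : Bt x0) (y1 : Bt x1) (y2 : Bt x2) (y3 : Bt x3) (y4 : Bt x4) (y5 : Bt x5) (y6 : Bt x6) (y7 : Bt x7) (y8 : Bt x8) (y9 : Bt x9) (y10 : Bt x10) (y11 : Bt x11) (y12 : Bt x12) (y13 : Bt x13) (y14 : Bt x14) : LS1 b012 b013 b023 b123 b014 b024 b124 b034 b134 b234 b015 b025 b125 b035 b135 b235 b045 b145 b245 b345 x0 x1 x2 x3 x4 x5 x6 x7 x8 x9 x10 x11 x12 x13 x14 ≤ 262696075030 :=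 by
  have e1 := SA_le h012 h013 h023 h123 h014 h024 h124 h034 h134 h234 h015 h025 h125 h035 h135 h235 h045 h145 h245 h345 y0 y1 y2 y3 y4 y5 y6 y7 y8 y9 y10 y11 y12 y13 y14
  have e3 := LS2_le h024 h034 h023 h234 h014 h012 h124 h013 h134 h123 h045 h025 h245 h035 h345 h235 h015 h145 h125 h135 y0 y14 y2 y3 y8 y5 y10 y12 y4 y9 y6 y11 y7 y13 y1
  unfold LS1
  simp only [Nat.add_eq]
  omega
theorem ch1_eq {b012 b013 b023 b123 b014 b024 b124 b034 b134 b234 b015 b025 b125 b035 b135 b235 b045 b145 b245 b345 : ℕ} (h012 : Bt b012) (h013 : Bt b013) (h023 : Bt b023) (h123 : Bt b123) (h014 : Bt b014) (h024 : Bt b024) (h124 : Bt b124) (h034 : Bt b034) (h134 : Bt b134) (h234 : Bt b234) (h015 : Bt b015) (h025 : Bt b025) (h125 : Bt b125) (h035 : Bt b035) (h135 : Bt b135) (h235 : Bt b235) (h045 : Bt b045) (h145 : Bt b145) (h245 : Bt b245) (h345 : Bt b345) : ch1 b012 b013 b023 b123 b014 b024 b124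 b034 b134 b234 b015 b025 b125 b035 b135 b235 b045 b145 b245 b345 = enc 40 15 (fun i => LS1 b012 b013 b023 b123 b014 b024 b124 b034 b134 b234 b015 b025 b125 b035 b135 b235 b045 b145 b245 b345 (bt 0 i) (bt 1 i) (bt 2 i) (bt 3 i) (bt 4 i) (bt 5 i) (bt 6 i) (bt 7 i) (bt 8 i) (bt 9 i) (bt 10 i) (bt 11 i) (bt 12 i) (bt 13 i) (bt 14 i)) := by
  unfold ch1
  rw [ch2_eq h024 h034 h023 h234 h014 h012 h124 h013 h134 h123 h045 h025 h245 h035 h345 h235 h015 h145 h125 h135, swp4 (a1 := 4) (b1 := 8) (a2 := 6) (b2 := 10) (a3 := 7) (b3 := 12) (a4 := 1) (b4 := 14) (by norm_num) (by norm_num) (by norm_num) (by norm_num)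
    (fun i _ => lt_of_le_of_lt (LS2_le h024 h034 h023 h234 h014 h012 h124 h013 h134 h123 h045 h025 h245 h035 h345 h235 h015 h145 h125 h135 (bt01 _ _) (bt01 _ _) (bt01 _ _) (bt01 _ _) (bt01 _ _) (bt01 _ _) (bt01 _ _) (bt01 _ _) (bt01 _ _) (bt01 _ _) (bt01 _ _) (bt01 _ _) (bt01 _ _) (bt01 _ _) (bt01 _ _)) (by norm_num)), TA_eq h012 h013 h023 h123 h014 h024 h124 h034 h134 h234 h015 h025 h125 h035 h135 h235 h045 h145 h245 h345]
  simp only [Nat.add_eq, enc_add]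
  refine enc_congr fun i hi => ?_
  have z0 : bt 0 (sb 4 8 (sb 6 10 (sb 7 12 (sb 1 14 i)))) = bt 0 i := bt_sb4 (by norm_num) (by norm_num) (by norm_num) (by norm_num) hi (by norm_num)
  have z1 : bt 1 (sb 4 8 (sb 6 10 (sb 7 12 (sb 1 14 i)))) = bt 14 i := bt_sb4 (by norm_num) (by norm_num) (by norm_num) (by norm_num) hi (by norm_num)
  have z2 : bt 2 (sb 4 8 (sb 6 10 (sb 7 12 (sb 1 14 i)))) = bt 2 i := bt_sb4 (by norm_num) (by norm_num) (by norm_num) (by norm_num) hi (by norm_num)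
  have z3 : bt 3 (sb 4 8 (sb 6 10 (sb 7 12 (sb 1 14 i)))) = bt 3 i := bt_sb4 (by norm_num) (by norm_num) (by norm_num) (by norm_num) hi (by norm_num)
  have z4 : bt 4 (sb 4 8 (sb 6 10 (sb 7 12 (sb 1 14 i)))) = bt 8 i := bt_sb4 (by norm_num) (by norm_num) (by norm_num) (by norm_num) hi (by norm_num)
  have z5 : bt 5 (sb 4 8 (sb 6 10 (sb 7 12 (sb 1 14 i)))) = bt 5 i := bt_sb4 (by norm_num) (by norm_num) (by norm_num) (by norm_num) hi (by norm_num)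
  have z6 : bt 6 (sb 4 8 (sb 6 10 (sb 7 12 (sb 1 14 i)))) = bt 10 i := bt_sb4 (by norm_num) (by norm_num) (by norm_num) (by norm_num) hi (by norm_num)
  have z7 : bt 7 (sb 4 8 (sb 6 10 (sb 7 12 (sb 1 14 i)))) = bt 12 i := bt_sb4 (by norm_num) (by norm_num) (by norm_num) (by norm_num) hi (by norm_num)
  have z8 : bt 8 (sb 4 8 (sb 6 10 (sb 7 12 (sb 1 14 i)))) = bt 4 i := bt_sb4 (by norm_num) (by norm_num) (by norm_num) (by norm_num) hi (by norm_num)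
  have z9 : bt 9 (sb 4 8 (sb 6 10 (sb 7 12 (sb 1 14 i)))) = bt 9 i := bt_sb4 (by norm_num) (by norm_num) (by norm_num) (by norm_num) hi (by norm_num)
  have z10 : bt 10 (sb 4 8 (sb 6 10 (sb 7 12 (sb 1 14 i)))) = bt 6 i := bt_sb4 (by norm_num) (by norm_num) (by norm_num) (by norm_num) hi (by norm_num)
  have z11 : bt 11 (sb 4 8 (sb 6 10 (sb 7 12 (sb 1 14 i)))) = bt 11 i := bt_sb4 (by norm_num) (by norm_num) (by norm_num) (by norm_num) hi (by norm_num)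
  have z12 : bt 12 (sb 4 8 (sb 6 10 (sb 7 12 (sb 1 14 i)))) = bt 7 i := bt_sb4 (by norm_num) (by norm_num) (by norm_num) (by norm_num) hi (by norm_num)
  have z13 : bt 13 (sb 4 8 (sb 6 10 (sb 7 12 (sb 1 14 i)))) = bt 13 i := bt_sb4 (by norm_num) (by norm_num) (by norm_num) (by norm_num) hi (by norm_num)
  have z14 : bt 14 (sb 4 8 (sb 6 10 (sb 7 12 (sb 1 14 i)))) = bt 1 i := bt_sb4 (by norm_num) (by norm_num) (by norm_num) (by norm_num) hi (by norm_num)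
  rw [z0, z1, z2, z3, z4, z5, z6, z7, z8, z9, z10, z11, z12, z13, z14]
  rfl

def LS0 (b012 b013 b023 b123 b014 b024 b124 b034 b134 b234 b015 b025 b125 b035 b135 b235 b045 b145 b245 b345 x0 x1 x2 x3 x4 x5 x6 x7 x8 x9 x10 x11 x12 x13 x14 : ℕ) : ℕ :=
  (Nat.add (SA b012 b013 b023 b123 b014 b024 b124 b034 b134 b234 b015 b025 b125 b035 b135 b235 b045 b145 b245 b345 x0 x1 x2 x3 x4 x5 x6 x7 x8 x9 x10 x11 x12 x13 x14) (Nat.add (SD b012 b013 b023 b123 b014 b024 b124 b034 b134 b234 b015 b025 b125 b035 b135 b235 b045 b145 b245 b345 x0 x1 x2 x3 x4 x5 x6 x7 x8 x9 x10 x11 x12 x13 x14) (LS1 b124 b134 b234 b123 b014 b024 b012 b034 b013 b023 b145 b245 b125 b345 b135 b235 b045 b015 b025 b035 x14 x1 x2 x3 x4 x8 x9 x11 x5 x6 x10 x7 x12 x13 x0)))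
theorem LS0_le {b012 b013 b023 b123 b014 b024 b124 b034 b134 b234 b015 b025 b125 b035 b135 b235 b045 b145 b245 b345 x0 x1 x2 x3 x4 x5 x6 x7 x8 x9 x10 x11 x12 x13 x14 : ℕ} (h012 : Bt b012) (h013 : Bt b013) (h023 : Bt b023) (h123 : Bt b123) (h014 : Bt b014) (h024 : Bt b024) (h124 : Bt b124) (h034 : Bt b034) (h134 : Bt b134) (h234 : Bt b234) (h015 : Bt b015) (h025 : Bt b025) (h125 : Bt b125) (h035 : Bt b035) (h135 : Bt b135) (h235 : Bt b235) (h045 : Bt b045) (h145 : Bt b145) (h245 : Bt b245) (h345 : Bt b345) (y0 : Bt x0) (y1 : Bt x1) (y2 : Bt x2) (y3 : Bt x3) (y4 : Bt x4) (y5 : Bt x5) (y6 : Bt x6) (y7 : Bt x7) (y8 : Bt x8) (y9 : Bt x9) (y10 : Bt x10) (y11 : Bt x11) (y12 : Bt x12) (y13 : Bt x13) (y14 : Bt x14) : LS0 b012 b013 b023 b123 b014 b024 b124 b034 b134 b234 b015 b025 b125 b035 b135 b235 b045 b145 b245 b345 x0 x1 x2 x3 x4 x5 x6 x7 x8 x9 x10 x11 x12 x13 x14 ≤ 284725346052 :=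 by
  have e1 := SA_le h012 h013 h023 h123 h014 h024 h124 h034 h134 h234 h015 h025 h125 h035 h135 h235 h045 h145 h245 h345 y0 y1 y2 y3 y4 y5 y6 y7 y8 y9 y10 y11 y12 y13 y14
  have e2 := SD_le h012 h013 h023 h123 h014 h024 h124 h034 h134 h234 h015 h025 h125 h035 h135 h235 h045 h145 h245 h345 y0 y1 y2 y3 y4 y5 y6 y7 y8 y9 y10 y11 y12 y13 y14
  have e3 := LS1_le h124 h134 h234 h123 h014 h024 h012 h034 h013 h023 h145 h245 h125 h345 h135 h235 h045 h015 h025 h035 y14 y1 y2 y3 y4 y8 y9 y11 y5 y6 y10 y7 y12 y13 y0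
  unfold LS0
  simp only [Nat.add_eq]
  omega
theorem ch0_eq {b012 b013 b023 b123 b014 b024 b124 b034 b134 b234 b015 b025 b125 b035 b135 b235 b045 b145 b245 b345 : ℕ} (h012 : Bt b012) (h013 : Bt b013) (h023 : Bt b023) (h123 : Bt b123) (h014 : Bt b014) (h024 : Bt b024) (h124 : Bt b124) (h034 : Bt b034) (h134 : Bt b134) (h234 : Bt b234) (h015 : Bt b015) (h025 : Bt b025) (h125 : Bt b125) (h035 : Bt b035) (h135 : Bt b135) (h235 : Bt b235) (h045 : Bt b045) (h145 : Bt b145) (h245 : Bt b245) (h345 : Bt b345) : ch0 b012 b013 b023 b123 b014 b024 b124 b034 b134 b234 b015 b025 b125 b035 b135 b235 b045 b145 b245 b345 = enc 40 15 (fun i => LS0 b012 b013 b023 b123 b014 b024 b124 b034 b134 b234 b015 b025 b125 b035 b135 b235 b045 b145 b245 b345 (bt 0 i) (bt 1 i) (bt 2 i) (bt 3 i) (bt 4 i) (bt 5 i) (bt 6 i) (bt 7 i) (bt 8 i) (bt 9 i) (bt 10 i) (bt 11 i) (bt 12 i) (bt 13 i) (bt 14 i)) := by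
  unfold ch0
  rw [ch1_eq h124 h134 h234 h123 h014 h024 h012 h034 h013 h023 h145 h245 h125 h345 h135 h235 h045 h015 h025 h035, swp4 (a1 := 5) (b1 := 8) (a2 := 6) (b2 := 9) (a3 := 7) (b3 := 11) (a4 := 0) (b4 := 14) (by norm_num) (by norm_num) (by norm_num) (by norm_num)
    (fun i _ => lt_of_le_of_lt (LS1_le h124 h134 h234 h123 h014 h024 h012 h034 h013 h023 h145 h245 h125 h345 h135 h235 h045 h015 h025 h035 (bt01 _ _) (bt01 _ _) (bt01 _ _) (bt01 _ _) (bt01 _ _) (bt01 _ _) (bt01 _ _) (bt01 _ _) (bt01 _ _) (bt01 _ _) (bt01 _ _) (bt01 _ _) (bt01 _ _) (bt01 _ _) (bt01 _ _)) (by norm_num)), TA_eq h012 h013 h023 h123 h014 h024 h124 h034 h134 h234 h015 h025 h125 h035 h135 h235 h045 h145 h245 h345, TD_eq h012 h013 h023 h123 h014 h024 h124 h034 h134 h234 h015 h025 h125 h035 h135 h235 h045 h145 h245 h345]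
  simp only [Nat.add_eq, enc_add]
  refine enc_congr fun i hi => ?_
  have z0 : bt 0 (sb 5 8 (sb 6 9 (sb 7 11 (sb 0 14 i)))) = bt 14 i := bt_sb4 (by norm_num) (by norm_num) (by norm_num) (by norm_num) hi (by norm_num)
  have z1 : bt 1 (sb 5 8 (sb 6 9 (sb 7 11 (sb 0 14 i)))) = bt 1 i := bt_sb4 (by norm_num) (by norm_num) (by norm_num) (by norm_num) hi (by norm_num)
  have z2 : bt 2 (sb 5 8 (sb 6 9 (sb 7 11 (sb 0 14 i)))) = bt 2 i := bt_sb4 (by norm_num) (by norm_num) (by norm_num) (by norm_num) hi (by norm_num)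
  have z3 : bt 3 (sb 5 8 (sb 6 9 (sb 7 11 (sb 0 14 i)))) = bt 3 i := bt_sb4 (by norm_num) (by norm_num) (by norm_num) (by norm_num) hi (by norm_num)
  have z4 : bt 4 (sb 5 8 (sb 6 9 (sb 7 11 (sb 0 14 i)))) = bt 4 i := bt_sb4 (by norm_num) (by norm_num) (by norm_num) (by norm_num) hi (by norm_num)
  have z5 : bt 5 (sb 5 8 (sb 6 9 (sb 7 11 (sb 0 14 i)))) = bt 8 i := bt_sb4 (by norm_num) (by norm_num) (by norm_num) (by norm_num) hi (by norm_num)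
  have z6 : bt 6 (sb 5 8 (sb 6 9 (sb 7 11 (sb 0 14 i)))) = bt 9 i := bt_sb4 (by norm_num) (by norm_num) (by norm_num) (by norm_num) hi (by norm_num)
  have z7 : bt 7 (sb 5 8 (sb 6 9 (sb 7 11 (sb 0 14 i)))) = bt 11 i := bt_sb4 (by norm_num) (by norm_num) (by norm_num) (by norm_num) hi (by norm_num)
  have z8 : bt 8 (sb 5 8 (sb 6 9 (sb 7 11 (sb 0 14 i)))) = bt 5 i := bt_sb4 (by norm_num) (by norm_num) (by norm_num) (by norm_num) hi (by norm_num)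
  have z9 : bt 9 (sb 5 8 (sb 6 9 (sb 7 11 (sb 0 14 i)))) = bt 6 i := bt_sb4 (by norm_num) (by norm_num) (by norm_num) (by norm_num) hi (by norm_num)
  have z10 : bt 10 (sb 5 8 (sb 6 9 (sb 7 11 (sb 0 14 i)))) = bt 10 i := bt_sb4 (by norm_num) (by norm_num) (by norm_num) (by norm_num) hi (by norm_num)
  have z11 : bt 11 (sb 5 8 (sb 6 9 (sb 7 11 (sb 0 14 i)))) = bt 7 i := bt_sb4 (by norm_num) (by norm_num) (by norm_num) (by norm_num) hi (by norm_num)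
  have z12 : bt 12 (sb 5 8 (sb 6 9 (sb 7 11 (sb 0 14 i)))) = bt 12 i := bt_sb4 (by norm_num) (by norm_num) (by norm_num) (by norm_num) hi (by norm_num)
  have z13 : bt 13 (sb 5 8 (sb 6 9 (sb 7 11 (sb 0 14 i)))) = bt 13 i := bt_sb4 (by norm_num) (by norm_num) (by norm_num) (by norm_num) hi (by norm_num)
  have z14 : bt 14 (sb 5 8 (sb 6 9 (sb 7 11 (sb 0 14 i)))) = bt 0 i := bt_sb4 (by norm_num) (by norm_num) (by norm_num) (by norm_num) hi (by norm_num)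
  rw [z0, z1, z2, z3, z4, z5, z6, z7, z8, z9, z10, z11, z12, z13, z14]
  rfl

theorem cC_eq : cC = 72091913225 := rfl

theorem dbl15 (c : ℕ) : enc 40 15 (fun _ => c) = (d2 655360 (d2 327680 (d2 163840 (d2 81920 (d2 40960 (d2 20480 (d2 10240 (d2 5120 (d2 2560 (d2 1280 (d2 640 (d2 320 (d2 160 (d2 80 (d2 40 c))))))))))))))) := by
  rw [enc_const_succ, enc_const_succ, enc_const_succ, enc_const_succ, enc_const_succ, enc_const_succ, enc_const_succ, enc_const_succ, enc_const_succ, enc_const_succ, enc_const_succ, enc_const_succ, enc_const_succ, enc_const_succ, enc_const_succ, enc_zero]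
  rfl

theorem chk_spec {b012 b013 b023 b123 b014 b024 b124 b034 b134 b234 b015 b025 b125 b035 b135 b235 b045 b145 b245 b345 : ℕ} (h012 : Bt b012) (h013 : Bt b013) (h023 : Bt b023) (h123 : Bt b123) (h014 : Bt b014) (h024 : Bt b024) (h124 : Bt b124) (h034 : Bt b034) (h134 : Bt b134) (h234 : Bt b234) (h015 : Bt b015) (h025 : Bt b025) (h125 : Bt b125) (h035 : Bt b035) (h135 : Bt b135) (h235 : Bt b235) (h045 : Bt b045) (h145 : Bt b145) (h245 : Bt b245) (h345 : Bt b345) (h : chk b012 b013 b023 b123 b014 b024 b124 b034 b134 b234 b015 b025 b125 b035 b135 b235 b045 b145 b245 b345 = true) {x0 x1 x2 x3 x4 x5 x6 x7 x8 x9 x10 x11 x12 x13 x14 : ℕ} (y0 : Bt x0) (y1 : Bt x1) (y2 : Bt x2) (y3 : Bt x3) (y4 : Bt x4) (y5 : Bt x5) (y6 : Bt x6) (y7 : Bt x7) (y8 : Bt x8) (y9 : Bt x9) (y10 : Bt x10) (y11 : Bt x11) (y12 : Bt x12) (y13 : Bt x13) (y14 : Bt x14) : LS0 b012 b013 b023 b123 b014 b024 b124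 b034 b134 b234 b015 b025 b125 b035 b135 b235 b045 b145 b245 b345 x0 x1 x2 x3 x4 x5 x6 x7 x8 x9 x10 x11 x12 x13 x14 ≤ cC := by
  have h1 := Nat.eq_of_beq_eq_true h
  rw [ch0_eq h012 h013 h023 h123 h014 h024 h124 h034 h134 h234 h015 h025 h125 h035 h135 h235 h045 h145 h245 h345, show CV = enc 40 15 (fun _ => 477663900662) from (dbl15 _).symm, show TV = enc 40 15 (fun _ => 549755813888) from (dbl15 _).symm] at h1
  simp only [Nat.add_eq, enc_add] at h1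
  have hb : ∀ i < 2 ^ 15, (fun i => LS0 b012 b013 b023 b123 b014 b024 b124 b034 b134 b234 b015 b025 b125 b035 b135 b235 b045 b145 b245 b345 (bt 0 i) (bt 1 i) (bt 2 i) (bt 3 i) (bt 4 i) (bt 5 i) (bt 6 i) (bt 7 i) (bt 8 i) (bt 9 i) (bt 10 i) (bt 11 i) (bt 12 i) (bt 13 i) (bt 14 i) + 477663900662) i < 2 ^ 40 := fun i _ => by
    have := LS0_le h012 h013 h023 h123 h014 h024 h124 h034 h134 h234 h015 h025 h125 h035 h135 h235 h045 h145 h245 h345 (bt01 0 i) (bt01 1 i) (bt01 2 i) (bt01 3 i) (bt01 4 i) (bt01 5 i) (bt01 6 i) (bt01 7 i) (bt01 8 i) (bt01 9 i) (bt01 10 i) (bt01 11 i) (bt01 12 i) (bt01 13 i) (bt01 14 i)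
    show _ + _ < _
    norm_num
    omega
  rw [enc_land (by norm_num) hb (fun _ _ => by norm_num)] at h1
  set i := c15 x0 x1 x2 x3 x4 x5 x6 x7 x8 x9 x10 x11 x12 x13 x14 with hi
  have hi15 : i < 2 ^ 15 := c15_lt y0 y1 y2 y3 y4 y5 y6 y7 y8 y9 y10 y11 y12 y13 y14
  have h2 := enc_eq_zero (by norm_num) (fun i hi => lt_of_le_of_lt (Nat.and_le_left (n := LS0 b012 b013 b023 b123 b014 b024 b124 b034 b134 b234 b015 b025 b125 b035 b135 b235 b045 b145 b245 b345 (bt 0 i) (bt 1 i) (bt 2 i) (bt 3 i) (bt 4 i) (bt 5 i) (bt 6 i) (bt 7 i) (bt 8 i) (bt 9 i) (bt 10 i) (bt 11 i) (bt 12 i) (bt 13 i) (bt 14 i) + 477663900662) (m := 549755813888)) (hb i hi)) h1 hi15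
  have h3 := lt_of_land (x := LS0 b012 b013 b023 b123 b014 b024 b124 b034 b134 b234 b015 b025 b125 b035 b135 b235 b045 b145 b245 b345 (bt 0 i) (bt 1 i) (bt 2 i) (bt 3 i) (bt 4 i) (bt 5 i) (bt 6 i) (bt 7 i) (bt 8 i) (bt 9 i) (bt 10 i) (bt 11 i) (bt 12 i) (bt 13 i) (bt 14 i) + 477663900662) (w := 39) (s := 40) (hb i hi15) (by norm_num) (by rw [show 2 ^ 40 - 2 ^ 39 = 549755813888 by norm_num]; exact h2)
  rw [hi] at h3
  rw [bt_c15_0 y0 y1 y2 y3 y4 y5 y6 y7 y8 y9 y10 y11 y12 y13 y14, bt_c15_1 y0 y1 y2 y3 y4 y5 y6 y7 y8 y9 y10 y11 y12 y13 y14, bt_c15_2 y0 y1 y2 y3 y4 y5 y6 y7 y8 y9 y10 y11 y12 y13 y14, bt_c15_3 y0 y1 y2 y3 y4 y5 y6 y7 y8 y9 y10 y11 y12 y13 y14, bt_c15_4 y0 y1 y2 y3 y4 y5 y6 y7 y8 y9 y10 y11 y12 y13 y14, bt_c15_5 y0 y1 y2 y3 y4 y5 y6 y7 y8 y9 y10 y11 y12 y13 y14, bt_c15_6 y0 y1 y2 y3 y4 y5 y6 y7 y8 y9 y10 y11 y12 y13 y14, bt_c15_7 y0 y1 y2 y3 y4 y5 y6 y7 y8 y9 y10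 y11 y12 y13 y14, bt_c15_8 y0 y1 y2 y3 y4 y5 y6 y7 y8 y9 y10 y11 y12 y13 y14, bt_c15_9 y0 y1 y2 y3 y4 y5 y6 y7 y8 y9 y10 y11 y12 y13 y14, bt_c15_10 y0 y1 y2 y3 y4 y5 y6 y7 y8 y9 y10 y11 y12 y13 y14, bt_c15_11 y0 y1 y2 y3 y4 y5 y6 y7 y8 y9 y10 y11 y12 y13 y14, bt_c15_12 y0 y1 y2 y3 y4 y5 y6 y7 y8 y9 y10 y11 y12 y13 y14, bt_c15_13 y0 y1 y2 y3 y4 y5 y6 y7 y8 y9 y10 y11 y12 y13 y14, bt_c15_14 y0 y1 y2 y3 y4 y5 y6 y7 y8 y9 y10 y11 y12 y13 y14] at h3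
  rw [cC_eq]
  norm_num at h3
  omega

end

end Pool.Agent.Y435.T7
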