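import Pool.Agent.Y435.T7.Inv

set_option autoImplicit false
set_option maxRecDepth 100000
set_option maxHeartbeats 4000000

namespace Pool.Agent.Y435.T7

def i256 : chkR 256 16 = true := by decide +kernel
def i272 : chkR 272 16 = true := by decide +kernel
def i288 : chkR 288 16 = true := by decide +kernel
def i304 : chkR 304 16 = true := by decide +kernel
def i320 : chkR 320 16 = true := by decide +kernel
def i336 : chkR 336 16 = true := by decide +kernel
def i352 : chkR 352 16 = true := by decide +kernel
def i368 : chkR 368 16 = true := by decide +kernel
def i384 : chkR 384 16 = true := by decide +kernel
def i400 : chkR 400 16 = true := by decide +kernel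
def i416 : chkR 416 16 = true := by decide +kernel
def i432 : chkR 432 16 = true := by decide +kernel
def i448 : chkR 448 16 = true := by decide +kernel
def i464 : chkR 464 16 = true := by decide +kernel
def i480 : chkR 480 16 = true := by decide +kernel
def i496 : chkR 496 16 = true := by decide +kernel

end Pool.Agent.Y435.T7
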