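import Pool.Agent.Y435.T7.I0
import Pool.Agent.Y435.T7.I1
import Pool.Agent.Y435.T7.I2
import Pool.Agent.Y435.T7.I3
import Pool.Agent.Y435.T7.Code

/-! The checks of the tables hold. -/

set_option autoImplicit false
set_option maxRecDepth 100000
set_option maxHeartbeats 4000000

namespace Pool.Agent.Y435.T7

theorem chkR_spec {a : ℕ} (h : chkR a 16 = true) {m : ℕ} (h1 : a ≤ m) (h2 : m < a + 16) : chkM m = true := by
  have h3 := al_true h (show m - a < 16 by omega)
  rw [st_eq] at h3
  have e : Nat.add a (m - a) = m := by show a + (m - a) = m; omega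
  rwa [e] at h3

theorem CH_all : CH := by
  intro m hm
  rcases Nat.lt_or_ge m 16 with f1 | g1
  · exact chkR_spec i0 (Nat.zero_le _) f1
  rcases Nat.lt_or_ge m 32 with f2 | g2
  · exact chkR_spec i16 g1 f2
  rcases Nat.lt_or_ge m 48 with f3 | g3
  · exact chkR_spec i32 g2 f3
  rcases Nat.lt_or_ge m 64 with f4 | g4
  · exact chkR_spec i48 g3 f4
  rcases Nat.lt_or_ge m 80 with f5 | g5
  · exact chkR_spec i64 g4 f5
  rcases Nat.lt_or_ge m 96 with f6 | g6
  · exact chkR_spec i80 g5 f6
  rcases Nat.lt_or_ge m 112 with f7 | g7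
  · exact chkR_spec i96 g6 f7
  rcases Nat.lt_or_ge m 128 with f8 | g8
  · exact chkR_spec i112 g7 f8
  rcases Nat.lt_or_ge m 144 with f9 | g9
  · exact chkR_spec i128 g8 f9
  rcases Nat.lt_or_ge m 160 with f10 | g10
  · exact chkR_spec i144 g9 f10
  rcases Nat.lt_or_ge m 176 with f11 | g11
  · exact chkR_spec i160 g10 f11
  rcases Nat.lt_or_ge m 192 with f12 | g12
  · exact chkR_spec i176 g11 f12
  rcases Nat.lt_or_ge m 208 with f13 | g13
  · exact chkR_spec i192 g12 f13
  rcases Nat.lt_or_ge m 224 with f14 | g14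
  · exact chkR_spec i208 g13 f14
  rcases Nat.lt_or_ge m 240 with f15 | g15
  · exact chkR_spec i224 g14 f15
  rcases Nat.lt_or_ge m 256 with f16 | g16
  · exact chkR_spec i240 g15 f16
  rcases Nat.lt_or_ge m 272 with f17 | g17
  · exact chkR_spec i256 g16 f17
  rcases Nat.lt_or_ge m 288 with f18 | g18
  · exact chkR_spec i272 g17 f18
  rcases Nat.lt_or_ge m 304 with f19 | g19
  · exact chkR_spec i288 g18 f19
  rcases Nat.lt_or_ge m 320 with f20 | g20
  · exact chkR_spec i304 g19 f20
  rcases Nat.lt_or_ge m 336 with f21 | g21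
  · exact chkR_spec i320 g20 f21
  rcases Nat.lt_or_ge m 352 with f22 | g22
  · exact chkR_spec i336 g21 f22
  rcases Nat.lt_or_ge m 368 with f23 | g23
  · exact chkR_spec i352 g22 f23
  rcases Nat.lt_or_ge m 384 with f24 | g24
  · exact chkR_spec i368 g23 f24
  rcases Nat.lt_or_ge m 400 with f25 | g25
  · exact chkR_spec i384 g24 f25
  rcases Nat.lt_or_ge m 416 with f26 | g26
  · exact chkR_spec i400 g25 f26
  rcases Nat.lt_or_ge m 432 with f27 | g27
  · exact chkR_spec i416 g26 f27
  rcases Nat.lt_or_ge m 448 with f28 | g28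
  · exact chkR_spec i432 g27 f28
  rcases Nat.lt_or_ge m 464 with f29 | g29
  · exact chkR_spec i448 g28 f29
  rcases Nat.lt_or_ge m 480 with f30 | g30
  · exact chkR_spec i464 g29 f30
  rcases Nat.lt_or_ge m 496 with f31 | g31
  · exact chkR_spec i480 g30 f31
  rcases Nat.lt_or_ge m 512 with f32 | g32
  · exact chkR_spec i496 g31 f32
  rcases Nat.lt_or_ge m 528 with f33 | g33
  · exact chkR_spec i512 g32 f33
  rcases Nat.lt_or_ge m 544 with f34 | g34
  · exact chkR_spec i528 g33 f34
  rcases Nat.lt_or_ge m 560 with f35 | g35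
  · exact chkR_spec i544 g34 f35
  rcases Nat.lt_or_ge m 576 with f36 | g36
  · exact chkR_spec i560 g35 f36
  rcases Nat.lt_or_ge m 592 with f37 | g37
  · exact chkR_spec i576 g36 f37
  rcases Nat.lt_or_ge m 608 with f38 | g38
  · exact chkR_spec i592 g37 f38
  rcases Nat.lt_or_ge m 624 with f39 | g39
  · exact chkR_spec i608 g38 f39
  rcases Nat.lt_or_ge m 640 with f40 | g40
  · exact chkR_spec i624 g39 f40
  rcases Nat.lt_or_ge m 656 with f41 | g41
  · exact chkR_spec i640 g40 f41
  rcases Nat.lt_or_ge m 672 with f42 | g42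
  · exact chkR_spec i656 g41 f42
  rcases Nat.lt_or_ge m 688 with f43 | g43
  · exact chkR_spec i672 g42 f43
  rcases Nat.lt_or_ge m 704 with f44 | g44
  · exact chkR_spec i688 g43 f44
  rcases Nat.lt_or_ge m 720 with f45 | g45
  · exact chkR_spec i704 g44 f45
  rcases Nat.lt_or_ge m 736 with f46 | g46
  · exact chkR_spec i720 g45 f46
  rcases Nat.lt_or_ge m 752 with f47 | g47
  · exact chkR_spec i736 g46 f47
  rcases Nat.lt_or_ge m 768 with f48 | g48
  · exact chkR_spec i752 g47 f48
  rcases Nat.lt_or_ge m 784 with f49 | g49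
  · exact chkR_spec i768 g48 f49
  rcases Nat.lt_or_ge m 800 with f50 | g50
  · exact chkR_spec i784 g49 f50
  rcases Nat.lt_or_ge m 816 with f51 | g51
  · exact chkR_spec i800 g50 f51
  rcases Nat.lt_or_ge m 832 with f52 | g52
  · exact chkR_spec i816 g51 f52
  rcases Nat.lt_or_ge m 848 with f53 | g53
  · exact chkR_spec i832 g52 f53
  rcases Nat.lt_or_ge m 864 with f54 | g54
  · exact chkR_spec i848 g53 f54
  rcases Nat.lt_or_ge m 880 with f55 | g55
  · exact chkR_spec i864 g54 f55
  rcases Nat.lt_or_ge m 896 with f56 | g56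
  · exact chkR_spec i880 g55 f56
  rcases Nat.lt_or_ge m 912 with f57 | g57
  · exact chkR_spec i896 g56 f57
  rcases Nat.lt_or_ge m 928 with f58 | g58
  · exact chkR_spec i912 g57 f58
  rcases Nat.lt_or_ge m 944 with f59 | g59
  · exact chkR_spec i928 g58 f59
  rcases Nat.lt_or_ge m 960 with f60 | g60
  · exact chkR_spec i944 g59 f60
  rcases Nat.lt_or_ge m 976 with f61 | g61
  · exact chkR_spec i960 g60 f61
  rcases Nat.lt_or_ge m 992 with f62 | g62
  · exact chkR_spec i976 g61 f62
  rcases Nat.lt_or_ge m 1008 with f63 | g63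
  · exact chkR_spec i992 g62 f63
  exact chkR_spec i1008 g63 hm

end Pool.Agent.Y435.T7
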