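import Pool.Agent.Y435.T7.Msk

set_option autoImplicit false
set_option maxRecDepth 100000
set_option maxHeartbeats 4000000

namespace Pool.Agent.Y435.T7

def k23_353 : chB 23 rq23 353 32 = true := by decide +kernel
def k23_385 : chB 23 rq23 385 8 = true := by decide +kernel
def k23_393 : chB 23 rq23 393 8 = true := by decide +kernel
def k23_401 : chB 23 rq23 401 16 = true := by decide +kernel
def k23_417 : chB 23 rq23 417 352 = true := by decide +kernel
def k23_769 : chB 23 rq23 769 1 = true := by decide +kernel
def k23_770 : chB 23 rq23 770 3 = true := by decide +kernel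
def k23_773 : chB 23 rq23 773 28 = true := by decide +kernel
def k23_801 : chB 23 rq23 801 32 = true := by decide +kernel
def k23_833 : chB 23 rq23 833 64 = true := by decide +kernel
def k23_897 : chB 23 rq23 897 127 = true := by decide +kernel
def k28_0 : chB 28 rq28 0 1 = true := by decide +kernel
def k28_1 : chB 28 rq28 1 1 = true := by decide +kernel
def k28_2 : chB 28 rq28 2 63 = true := by decide +kernel
def k28_65 : chB 28 rq28 65 192 = true := by decide +kernel
def k28_257 : chB 28 rq28 257 1 = true := by decide +kernel

end Pool.Agent.Y435.T7
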