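import Pool.Agent.Y435.T7.Msk

set_option autoImplicit false
set_option maxRecDepth 100000
set_option maxHeartbeats 4000000

namespace Pool.Agent.Y435.T7

def k54_21 : chB 54 rq54 21 28 = true := by decide +kernel
def k54_49 : chB 54 rq54 49 28 = true := by decide +kernel
def k54_77 : chB 54 rq54 77 8 = true := by decide +kernel
def k54_85 : chB 54 rq54 85 28 = true := by decide +kernel
def k54_113 : chB 54 rq54 113 48 = true := by decide +kernel
def k54_161 : chB 54 rq54 161 4 = true := by decide +kernel
def k54_165 : chB 54 rq54 165 12 = true := by decide +kernel
def k54_177 : chB 54 rq54 177 256 = true := by decide +kernel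
def k54_433 : chB 54 rq54 433 84 = true := by decide +kernel
def k54_517 : chB 54 rq54 517 1 = true := by decide +kernel
def k54_518 : chB 54 rq54 518 15 = true := by decide +kernel
def k54_533 : chB 54 rq54 533 491 = true := by decide +kernel
def k55_0 : chB 55 rq55 0 1 = true := by decide +kernel
def k55_1 : chB 55 rq55 1 1 = true := by decide +kernel
def k55_2 : chB 55 rq55 2 2 = true := by decide +kernel
def k55_4 : chB 55 rq55 4 1 = true := by decide +kernel

end Pool.Agent.Y435.T7
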