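import Pool.Agent.Y435.T7.Msk

set_option autoImplicit false
set_option maxRecDepth 100000
set_option maxHeartbeats 4000000

namespace Pool.Agent.Y435.T7

def k55_593 : chB 55 rq55 593 2 = true := by decide +kernel
def k55_595 : chB 55 rq55 595 2 = true := by decide +kernel
def k55_597 : chB 55 rq55 597 28 = true := by decide +kernel
def k55_625 : chB 55 rq55 625 32 = true := by decide +kernel
def k55_657 : chB 55 rq55 657 2 = true := by decide +kernel
def k55_659 : chB 55 rq55 659 2 = true := by decide +kernel
def k55_661 : chB 55 rq55 661 12 = true := by decide +kernel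
def k55_673 : chB 55 rq55 673 1 = true := by decide +kernel
def k55_674 : chB 55 rq55 674 3 = true := by decide +kernel
def k55_677 : chB 55 rq55 677 4 = true := by decide +kernel
def k55_681 : chB 55 rq55 681 343 = true := by decide +kernel
def k58_0 : chB 58 rq58 0 1 = true := by decide +kernel
def k58_1 : chB 58 rq58 1 1 = true := by decide +kernel
def k58_2 : chB 58 rq58 2 1 = true := by decide +kernel
def k58_3 : chB 58 rq58 3 4 = true := by decide +kernel
def k58_7 : chB 58 rq58 7 2 = true := by decide +kernel

end Pool.Agent.Y435.T7
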