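import Pool.Agent.Y435.T7.Msk

set_option autoImplicit false
set_option maxRecDepth 100000
set_option maxHeartbeats 4000000

namespace Pool.Agent.Y435.T7

def k58_513 : chB 58 rq58 513 1 = true := by decide +kernel
def k58_514 : chB 58 rq58 514 1 = true := by decide +kernel
def k58_515 : chB 58 rq58 515 4 = true := by decide +kernel
def k58_519 : chB 58 rq58 519 6 = true := by decide +kernel
def k58_525 : chB 58 rq58 525 6 = true := by decide +kernel
def k58_531 : chB 58 rq58 531 14 = true := by decide +kernel
def k58_545 : chB 58 rq58 545 479 = true := by decide +kernel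
def k59_0 : chB 59 rq59 0 1 = true := by decide +kernel
def k59_1 : chB 59 rq59 1 1 = true := by decide +kernel
def k59_2 : chB 59 rq59 2 1 = true := by decide +kernel
def k59_3 : chB 59 rq59 3 4 = true := by decide +kernel
def k59_7 : chB 59 rq59 7 2 = true := by decide +kernel
def k59_9 : chB 59 rq59 9 1 = true := by decide +kernel
def k59_10 : chB 59 rq59 10 1 = true := by decide +kernel
def k59_11 : chB 59 rq59 11 2 = true := by decide +kernel
def k59_13 : chB 59 rq59 13 4 = true := by decide +kernel

end Pool.Agent.Y435.T7
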