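import Pool.Agent.Y435.T7.Msk

set_option autoImplicit false
set_option maxRecDepth 100000
set_option maxHeartbeats 4000000

namespace Pool.Agent.Y435.T7

def k59_137 : chB 59 rq59 137 1 = true := by decide +kernel
def k59_138 : chB 59 rq59 138 1 = true := by decide +kernel
def k59_139 : chB 59 rq59 139 14 = true := by decide +kernel
def k59_153 : chB 59 rq59 153 8 = true := by decide +kernel
def k59_161 : chB 59 rq59 161 1 = true := by decide +kernel
def k59_162 : chB 59 rq59 162 1 = true := by decide +kernel
def k59_163 : chB 59 rq59 163 6 = true := by decide +kernel
def k59_169 : chB 59 rq59 169 8 = true := by decide +kernel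
def k59_177 : chB 59 rq59 177 48 = true := by decide +kernel
def k59_225 : chB 59 rq59 225 8 = true := by decide +kernel
def k59_233 : chB 59 rq59 233 8 = true := by decide +kernel
def k59_241 : chB 59 rq59 241 48 = true := by decide +kernel
def k59_289 : chB 59 rq59 289 1 = true := by decide +kernel
def k59_290 : chB 59 rq59 290 7 = true := by decide +kernel
def k59_297 : chB 59 rq59 297 8 = true := by decide +kernel
def k59_305 : chB 59 rq59 305 56 = true := by decide +kernel

end Pool.Agent.Y435.T7
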