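import Pool.Agent.Y435.T7.Msk

set_option autoImplicit false
set_option maxRecDepth 100000
set_option maxHeartbeats 4000000

namespace Pool.Agent.Y435.T7

def k59_585 : chB 59 rq59 585 4 = true := by decide +kernel
def k59_589 : chB 59 rq59 589 4 = true := by decide +kernel
def k59_593 : chB 59 rq59 593 16 = true := by decide +kernel
def k59_609 : chB 59 rq59 609 4 = true := by decide +kernel
def k59_613 : chB 59 rq59 613 4 = true := by decide +kernel
def k59_617 : chB 59 rq59 617 8 = true := by decide +kernel
def k59_625 : chB 59 rq59 625 24 = true := by decide +kernel
def k59_649 : chB 59 rq59 649 2 = true := by decide +kernel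
def k59_651 : chB 59 rq59 651 22 = true := by decide +kernel
def k59_673 : chB 59 rq59 673 1 = true := by decide +kernel
def k59_674 : chB 59 rq59 674 1 = true := by decide +kernel
def k59_675 : chB 59 rq59 675 6 = true := by decide +kernel
def k59_681 : chB 59 rq59 681 120 = true := by decide +kernel
def k59_801 : chB 59 rq59 801 1 = true := by decide +kernel
def k59_802 : chB 59 rq59 802 222 = true := by decide +kernel
def k62_0 : chB 62 rq62 0 1 = true := by decide +kernel

end Pool.Agent.Y435.T7
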