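import Pool.Agent.Y435.T7.Msk

set_option autoImplicit false
set_option maxRecDepth 100000
set_option maxHeartbeats 4000000

namespace Pool.Agent.Y435.T7

def k62_1 : chB 62 rq62 1 1 = true := by decide +kernel
def k62_2 : chB 62 rq62 2 2 = true := by decide +kernel
def k62_4 : chB 62 rq62 4 1 = true := by decide +kernel
def k62_5 : chB 62 rq62 5 1 = true := by decide +kernel
def k62_6 : chB 62 rq62 6 3 = true := by decide +kernel
def k62_9 : chB 62 rq62 9 4 = true := by decide +kernel
def k62_13 : chB 62 rq62 13 4 = true := by decide +kernel
def k62_17 : chB 62 rq62 17 2 = true := by decide +kernel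
def k62_19 : chB 62 rq62 19 46 = true := by decide +kernel
def k62_65 : chB 62 rq62 65 1 = true := by decide +kernel
def k62_66 : chB 62 rq62 66 3 = true := by decide +kernel
def k62_69 : chB 62 rq62 69 1 = true := by decide +kernel
def k62_70 : chB 62 rq62 70 3 = true := by decide +kernel
def k62_73 : chB 62 rq62 73 4 = true := by decide +kernel
def k62_77 : chB 62 rq62 77 4 = true := by decide +kernel
def k62_81 : chB 62 rq62 81 2 = true := by decide +kernel

end Pool.Agent.Y435.T7
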