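import Pool.Agent.Y435.T7.Msk

set_option autoImplicit false
set_option maxRecDepth 100000
set_option maxHeartbeats 4000000

namespace Pool.Agent.Y435.T7

def k62_649 : chB 62 rq62 649 4 = true := by decide +kernel
def k62_653 : chB 62 rq62 653 6 = true := by decide +kernel
def k62_659 : chB 62 rq62 659 14 = true := by decide +kernel
def k62_673 : chB 62 rq62 673 1 = true := by decide +kernel
def k62_674 : chB 62 rq62 674 31 = true := by decide +kernel
def k62_705 : chB 62 rq62 705 4 = true := by decide +kernel
def k62_709 : chB 62 rq62 709 28 = true := by decide +kernel
def k62_737 : chB 62 rq62 737 160 = true := by decide +kernel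
def k62_897 : chB 62 rq62 897 8 = true := by decide +kernel
def k62_905 : chB 62 rq62 905 119 = true := by decide +kernel
def k126_0 : chB 126 rq126 0 1 = true := by decide +kernel
def k126_1 : chB 126 rq126 1 1 = true := by decide +kernel
def k126_2 : chB 126 rq126 2 2 = true := by decide +kernel
def k126_4 : chB 126 rq126 4 4 = true := by decide +kernel
def k126_8 : chB 126 rq126 8 1 = true := by decide +kernel
def k126_9 : chB 126 rq126 9 1 = true := by decide +kernel

end Pool.Agent.Y435.T7
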