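import Pool.Agent.Y435.T7.Msk

set_option autoImplicit false
set_option maxRecDepth 100000
set_option maxHeartbeats 4000000

namespace Pool.Agent.Y435.T7

def k126_10 : chB 126 rq126 10 2 = true := by decide +kernel
def k126_12 : chB 126 rq126 12 1 = true := by decide +kernel
def k126_13 : chB 126 rq126 13 1 = true := by decide +kernel
def k126_14 : chB 126 rq126 14 11 = true := by decide +kernel
def k126_25 : chB 126 rq126 25 2 = true := by decide +kernel
def k126_27 : chB 126 rq126 27 30 = true := by decide +kernel
def k126_57 : chB 126 rq126 57 16 = true := by decide +kernel
def k126_73 : chB 126 rq126 73 1 = true := by decide +kernel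
def k126_74 : chB 126 rq126 74 2 = true := by decide +kernel
def k126_76 : chB 126 rq126 76 1 = true := by decide +kernel
def k126_77 : chB 126 rq126 77 1 = true := by decide +kernel
def k126_78 : chB 126 rq126 78 3 = true := by decide +kernel
def k126_81 : chB 126 rq126 81 1 = true := by decide +kernel
def k126_82 : chB 126 rq126 82 1 = true := by decide +kernel
def k126_83 : chB 126 rq126 83 1 = true := by decide +kernel
def k126_84 : chB 126 rq126 84 3 = true := by decide +kernel

end Pool.Agent.Y435.T7
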