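import Pool.Agent.Y435.T7.Msk

set_option autoImplicit false
set_option maxRecDepth 100000
set_option maxHeartbeats 4000000

namespace Pool.Agent.Y435.T7

def k185_5 : chB 185 rq185 5 4 = true := by decide +kernel
def k185_9 : chB 185 rq185 9 1 = true := by decide +kernel
def k185_10 : chB 185 rq185 10 3 = true := by decide +kernel
def k185_13 : chB 185 rq185 13 4 = true := by decide +kernel
def k185_17 : chB 185 rq185 17 1 = true := by decide +kernel
def k185_18 : chB 185 rq185 18 1 = true := by decide +kernel
def k185_19 : chB 185 rq185 19 2 = true := by decide +kernel
def k185_21 : chB 185 rq185 21 4 = true := by decide +kernel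
def k185_25 : chB 185 rq185 25 2 = true := by decide +kernel
def k185_27 : chB 185 rq185 27 2 = true := by decide +kernel
def k185_29 : chB 185 rq185 29 20 = true := by decide +kernel
def k185_49 : chB 185 rq185 49 8 = true := by decide +kernel
def k185_57 : chB 185 rq185 57 8 = true := by decide +kernel
def k185_65 : chB 185 rq185 65 4 = true := by decide +kernel
def k185_69 : chB 185 rq185 69 4 = true := by decide +kernel
def k185_73 : chB 185 rq185 73 4 = true := by decide +kernel

end Pool.Agent.Y435.T7
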