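import Pool.Agent.Y435.T7.Msk

set_option autoImplicit false
set_option maxRecDepth 100000
set_option maxHeartbeats 4000000

namespace Pool.Agent.Y435.T7

def k185_77 : chB 185 rq185 77 4 = true := by decide +kernel
def k185_81 : chB 185 rq185 81 4 = true := by decide +kernel
def k185_85 : chB 185 rq185 85 4 = true := by decide +kernel
def k185_89 : chB 185 rq185 89 4 = true := by decide +kernel
def k185_93 : chB 185 rq185 93 20 = true := by decide +kernel
def k185_113 : chB 185 rq185 113 16 = true := by decide +kernel
def k185_129 : chB 185 rq185 129 2 = true := by decide +kernel
def k185_131 : chB 185 rq185 131 6 = true := by decide +kernel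
def k185_137 : chB 185 rq185 137 2 = true := by decide +kernel
def k185_139 : chB 185 rq185 139 6 = true := by decide +kernel
def k185_145 : chB 185 rq185 145 2 = true := by decide +kernel
def k185_147 : chB 185 rq185 147 6 = true := by decide +kernel
def k185_153 : chB 185 rq185 153 2 = true := by decide +kernel
def k185_155 : chB 185 rq185 155 6 = true := by decide +kernel
def k185_161 : chB 185 rq185 161 2 = true := by decide +kernel
def k185_163 : chB 185 rq185 163 6 = true := by decide +kernel

end Pool.Agent.Y435.T7
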