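import Pool.Agent.Y435.T7.Msk

set_option autoImplicit false
set_option maxRecDepth 100000
set_option maxHeartbeats 4000000

namespace Pool.Agent.Y435.T7

def k187_266 : chB 187 rq187 266 1 = true := by decide +kernel
def k187_267 : chB 187 rq187 267 2 = true := by decide +kernel
def k187_269 : chB 187 rq187 269 1 = true := by decide +kernel
def k187_270 : chB 187 rq187 270 3 = true := by decide +kernel
def k187_273 : chB 187 rq187 273 1 = true := by decide +kernel
def k187_274 : chB 187 rq187 274 1 = true := by decide +kernel
def k187_275 : chB 187 rq187 275 2 = true := by decide +kernel
def k187_277 : chB 187 rq187 277 2 = true := by decide +kernel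
def k187_279 : chB 187 rq187 279 2 = true := by decide +kernel
def k187_281 : chB 187 rq187 281 2 = true := by decide +kernel
def k187_283 : chB 187 rq187 283 2 = true := by decide +kernel
def k187_285 : chB 187 rq187 285 4 = true := by decide +kernel
def k187_289 : chB 187 rq187 289 1 = true := by decide +kernel
def k187_290 : chB 187 rq187 290 1 = true := by decide +kernel
def k187_291 : chB 187 rq187 291 2 = true := by decide +kernel
def k187_293 : chB 187 rq187 293 1 = true := by decide +kernel

end Pool.Agent.Y435.T7
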