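import Pool.Agent.Y435.T7.Msk

set_option autoImplicit false
set_option maxRecDepth 100000
set_option maxHeartbeats 4000000

namespace Pool.Agent.Y435.T7

def k187_294 : chB 187 rq187 294 3 = true := by decide +kernel
def k187_297 : chB 187 rq187 297 1 = true := by decide +kernel
def k187_298 : chB 187 rq187 298 3 = true := by decide +kernel
def k187_301 : chB 187 rq187 301 4 = true := by decide +kernel
def k187_305 : chB 187 rq187 305 1 = true := by decide +kernel
def k187_306 : chB 187 rq187 306 1 = true := by decide +kernel
def k187_307 : chB 187 rq187 307 6 = true := by decide +kernel
def k187_313 : chB 187 rq187 313 8 = true := by decide +kernel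
def k187_321 : chB 187 rq187 321 1 = true := by decide +kernel
def k187_322 : chB 187 rq187 322 3 = true := by decide +kernel
def k187_325 : chB 187 rq187 325 4 = true := by decide +kernel
def k187_329 : chB 187 rq187 329 4 = true := by decide +kernel
def k187_333 : chB 187 rq187 333 4 = true := by decide +kernel
def k187_337 : chB 187 rq187 337 1 = true := by decide +kernel
def k187_338 : chB 187 rq187 338 3 = true := by decide +kernel
def k187_341 : chB 187 rq187 341 4 = true := by decide +kernel

end Pool.Agent.Y435.T7
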