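import Pool.Agent.Y435.T7.Msk

set_option autoImplicit false
set_option maxRecDepth 100000
set_option maxHeartbeats 4000000

namespace Pool.Agent.Y435.T7

def k187_345 : chB 187 rq187 345 8 = true := by decide +kernel
def k187_353 : chB 187 rq187 353 1 = true := by decide +kernel
def k187_354 : chB 187 rq187 354 3 = true := by decide +kernel
def k187_357 : chB 187 rq187 357 4 = true := by decide +kernel
def k187_361 : chB 187 rq187 361 8 = true := by decide +kernel
def k187_369 : chB 187 rq187 369 1 = true := by decide +kernel
def k187_370 : chB 187 rq187 370 15 = true := by decide +kernel
def k187_385 : chB 187 rq187 385 1 = true := by decide +kernel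
def k187_386 : chB 187 rq187 386 1 = true := by decide +kernel
def k187_387 : chB 187 rq187 387 6 = true := by decide +kernel
def k187_393 : chB 187 rq187 393 2 = true := by decide +kernel
def k187_395 : chB 187 rq187 395 6 = true := by decide +kernel
def k187_401 : chB 187 rq187 401 2 = true := by decide +kernel
def k187_403 : chB 187 rq187 403 6 = true := by decide +kernel
def k187_409 : chB 187 rq187 409 8 = true := by decide +kernel
def k187_417 : chB 187 rq187 417 1 = true := by decide +kernel

end Pool.Agent.Y435.T7
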