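import Pool.Agent.Y435.T7.Msk

set_option autoImplicit false
set_option maxRecDepth 100000
set_option maxHeartbeats 4000000

namespace Pool.Agent.Y435.T7

def k220_20 : chB 220 rq220 20 14 = true := by decide +kernel
def k220_34 : chB 220 rq220 34 3 = true := by decide +kernel
def k220_37 : chB 220 rq220 37 40 = true := by decide +kernel
def k220_77 : chB 220 rq220 77 6 = true := by decide +kernel
def k220_83 : chB 220 rq220 83 2 = true := by decide +kernel
def k220_85 : chB 220 rq220 85 152 = true := by decide +kernel
def k220_237 : chB 220 rq220 237 6 = true := by decide +kernel
def k220_243 : chB 220 rq220 243 31 = true := by decide +kernel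
def k220_274 : chB 220 rq220 274 2 = true := by decide +kernel
def k220_276 : chB 220 rq220 276 94 = true := by decide +kernel
def k220_370 : chB 220 rq220 370 654 = true := by decide +kernel
def k221_0 : chB 221 rq221 0 1 = true := by decide +kernel
def k221_1 : chB 221 rq221 1 1 = true := by decide +kernel
def k221_2 : chB 221 rq221 2 2 = true := by decide +kernel
def k221_4 : chB 221 rq221 4 1 = true := by decide +kernel
def k221_5 : chB 221 rq221 5 1 = true := by decide +kernel

end Pool.Agent.Y435.T7
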