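import Pool.Agent.Y435.T7.Msk

set_option autoImplicit false
set_option maxRecDepth 100000
set_option maxHeartbeats 4000000

namespace Pool.Agent.Y435.T7

def k221_35 : chB 221 rq221 35 2 = true := by decide +kernel
def k221_37 : chB 221 rq221 37 4 = true := by decide +kernel
def k221_41 : chB 221 rq221 41 1 = true := by decide +kernel
def k221_42 : chB 221 rq221 42 7 = true := by decide +kernel
def k221_49 : chB 221 rq221 49 24 = true := by decide +kernel
def k221_73 : chB 221 rq221 73 1 = true := by decide +kernel
def k221_74 : chB 221 rq221 74 3 = true := by decide +kernel
def k221_77 : chB 221 rq221 77 4 = true := by decide +kernel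
def k221_81 : chB 221 rq221 81 1 = true := by decide +kernel
def k221_82 : chB 221 rq221 82 1 = true := by decide +kernel
def k221_83 : chB 221 rq221 83 2 = true := by decide +kernel
def k221_85 : chB 221 rq221 85 4 = true := by decide +kernel
def k221_89 : chB 221 rq221 89 2 = true := by decide +kernel
def k221_91 : chB 221 rq221 91 2 = true := by decide +kernel
def k221_93 : chB 221 rq221 93 4 = true := by decide +kernel
def k221_97 : chB 221 rq221 97 1 = true := by decide +kernel

end Pool.Agent.Y435.T7
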