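import Pool.Agent.Y435.T7.Msk

set_option autoImplicit false
set_option maxRecDepth 100000
set_option maxHeartbeats 4000000

namespace Pool.Agent.Y435.T7

def k221_276 : chB 221 rq221 276 1 = true := by decide +kernel
def k221_277 : chB 221 rq221 277 4 = true := by decide +kernel
def k221_281 : chB 221 rq221 281 2 = true := by decide +kernel
def k221_283 : chB 221 rq221 283 2 = true := by decide +kernel
def k221_285 : chB 221 rq221 285 20 = true := by decide +kernel
def k221_305 : chB 221 rq221 305 40 = true := by decide +kernel
def k221_345 : chB 221 rq221 345 4 = true := by decide +kernel
def k221_349 : chB 221 rq221 349 20 = true := by decide +kernel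
def k221_369 : chB 221 rq221 369 1 = true := by decide +kernel
def k221_370 : chB 221 rq221 370 7 = true := by decide +kernel
def k221_377 : chB 221 rq221 377 136 = true := by decide +kernel
def k221_513 : chB 221 rq221 513 1 = true := by decide +kernel
def k221_514 : chB 221 rq221 514 2 = true := by decide +kernel
def k221_516 : chB 221 rq221 516 1 = true := by decide +kernel
def k221_517 : chB 221 rq221 517 1 = true := by decide +kernel
def k221_518 : chB 221 rq221 518 3 = true := by decide +kernel

end Pool.Agent.Y435.T7
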