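import Pool.Agent.Y435.T7.Msk

set_option autoImplicit false
set_option maxRecDepth 100000
set_option maxHeartbeats 4000000

namespace Pool.Agent.Y435.T7

def k221_790 : chB 221 rq221 790 3 = true := by decide +kernel
def k221_793 : chB 221 rq221 793 231 = true := by decide +kernel
def k254_0 : chB 254 rq254 0 1 = true := by decide +kernel
def k254_1 : chB 254 rq254 1 1 = true := by decide +kernel
def k254_2 : chB 254 rq254 2 2 = true := by decide +kernel
def k254_4 : chB 254 rq254 4 1 = true := by decide +kernel
def k254_5 : chB 254 rq254 5 1 = true := by decide +kernel
def k254_6 : chB 254 rq254 6 2 = true := by decide +kernel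
def k254_8 : chB 254 rq254 8 1 = true := by decide +kernel
def k254_9 : chB 254 rq254 9 1 = true := by decide +kernel
def k254_10 : chB 254 rq254 10 2 = true := by decide +kernel
def k254_12 : chB 254 rq254 12 1 = true := by decide +kernel
def k254_13 : chB 254 rq254 13 1 = true := by decide +kernel
def k254_14 : chB 254 rq254 14 2 = true := by decide +kernel
def k254_16 : chB 254 rq254 16 1 = true := by decide +kernel
def k254_17 : chB 254 rq254 17 1 = true := by decide +kernel

end Pool.Agent.Y435.T7
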