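import Pool.Agent.Y435.T7.Msk

set_option autoImplicit false
set_option maxRecDepth 100000
set_option maxHeartbeats 4000000

namespace Pool.Agent.Y435.T7

def k254_74 : chB 254 rq254 74 2 = true := by decide +kernel
def k254_76 : chB 254 rq254 76 1 = true := by decide +kernel
def k254_77 : chB 254 rq254 77 1 = true := by decide +kernel
def k254_78 : chB 254 rq254 78 2 = true := by decide +kernel
def k254_80 : chB 254 rq254 80 1 = true := by decide +kernel
def k254_81 : chB 254 rq254 81 1 = true := by decide +kernel
def k254_82 : chB 254 rq254 82 1 = true := by decide +kernel
def k254_83 : chB 254 rq254 83 1 = true := by decide +kernel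
def k254_84 : chB 254 rq254 84 1 = true := by decide +kernel
def k254_85 : chB 254 rq254 85 1 = true := by decide +kernel
def k254_86 : chB 254 rq254 86 1 = true := by decide +kernel
def k254_87 : chB 254 rq254 87 1 = true := by decide +kernel
def k254_88 : chB 254 rq254 88 1 = true := by decide +kernel
def k254_89 : chB 254 rq254 89 2 = true := by decide +kernel
def k254_91 : chB 254 rq254 91 2 = true := by decide +kernel
def k254_93 : chB 254 rq254 93 2 = true := by decide +kernel

end Pool.Agent.Y435.T7
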