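import Pool.Agent.Y435.T7.Msk

set_option autoImplicit false
set_option maxRecDepth 100000
set_option maxHeartbeats 4000000

namespace Pool.Agent.Y435.T7

def k254_161 : chB 254 rq254 161 1 = true := by decide +kernel
def k254_162 : chB 254 rq254 162 2 = true := by decide +kernel
def k254_164 : chB 254 rq254 164 1 = true := by decide +kernel
def k254_165 : chB 254 rq254 165 1 = true := by decide +kernel
def k254_166 : chB 254 rq254 166 2 = true := by decide +kernel
def k254_168 : chB 254 rq254 168 1 = true := by decide +kernel
def k254_169 : chB 254 rq254 169 1 = true := by decide +kernel
def k254_170 : chB 254 rq254 170 3 = true := by decide +kernel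
def k254_173 : chB 254 rq254 173 1 = true := by decide +kernel
def k254_174 : chB 254 rq254 174 3 = true := by decide +kernel
def k254_177 : chB 254 rq254 177 1 = true := by decide +kernel
def k254_178 : chB 254 rq254 178 1 = true := by decide +kernel
def k254_179 : chB 254 rq254 179 1 = true := by decide +kernel
def k254_180 : chB 254 rq254 180 5 = true := by decide +kernel
def k254_185 : chB 254 rq254 185 32 = true := by decide +kernel
def k254_217 : chB 254 rq254 217 2 = true := by decide +kernel

end Pool.Agent.Y435.T7
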