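import Pool.Agent.Y435.T7.Msk

set_option autoImplicit false
set_option maxRecDepth 100000
set_option maxHeartbeats 4000000

namespace Pool.Agent.Y435.T7

def k254_689 : chB 254 rq254 689 2 = true := by decide +kernel
def k254_691 : chB 254 rq254 691 1 = true := by decide +kernel
def k254_692 : chB 254 rq254 692 253 = true := by decide +kernel
def k254_945 : chB 254 rq254 945 79 = true := by decide +kernel

end Pool.Agent.Y435.T7
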