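import Pool.Agent.W843.N7.WordC0
import Pool.Agent.W843.N7.WordC1
import Pool.Agent.H122R2.N6.Bound

/-! Reduction of a statement on six vertices to the representatives. -/

set_option autoImplicit false
set_option linter.unusedVariables false
set_option maxRecDepth 100000
set_option maxHeartbeats 4000000
open Finset
open Pool.Agent.H122R2.N6 (Sy NoK4 Bt k4b five tg walk walk_all B2 B2_true or_false_left)
open Pool.Agent.W843.N7 (c10 bt cnd isB wnc wnest walk6 wd wnc0 wnc1 wnc3 wnc7 wnc19 wnc20 wnc21 wnc23 wnc28 wnc29 wnc54 wnc55 wnc58 wnc59 wnc62 wnc126 wnc183 wnc184 wnc185 wnc187 wnc220 wnc221 wnc254)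

namespace Pool.Agent.Y435.R7

theorem bt0_chk : (B2 fun b0 => B2 fun b1 => B2 fun b2 => B2 fun b3 => B2 fun b4 => B2 fun b5 => B2 fun b6 => B2 fun b7 => B2 fun b8 => B2 fun b9 => Nat.beq (bt 0 (c10 b0 b1 b2 b3 b4 b5 b6 b7 b8 b9)) b0) = true := by decide +kernel
theorem bt0_eq {b0 b1 b2 b3 b4 b5 b6 b7 b8 b9 : ℕ} (h0 : Bt b0) (h1 : Bt b1) (h2 : Bt b2) (h3 : Bt b3) (h4 : Bt b4) (h5 : Bt b5) (h6 : Bt b6) (h7 : Bt b7) (h8 : Bt b8) (h9 : Bt b9) : bt 0 (c10 b0 b1 b2 b3 b4 b5 b6 b7 b8 b9) = b0 :=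
  Nat.eq_of_beq_eq_true (B2_true (B2_true (B2_true (B2_true (B2_true (B2_true (B2_true (B2_true (B2_true (B2_true bt0_chk h0) h1) h2) h3) h4) h5) h6) h7) h8) h9)
theorem bt1_chk : (B2 fun b0 => B2 fun b1 => B2 fun b2 => B2 fun b3 => B2 fun b4 => B2 fun b5 => B2 fun b6 => B2 fun b7 => B2 fun b8 => B2 fun b9 => Nat.beq (bt 1 (c10 b0 b1 b2 b3 b4 b5 b6 b7 b8 b9)) b1) = true := by decide +kernel
theorem bt1_eq {b0 b1 b2 b3 b4 b5 b6 b7 b8 b9 : ℕ} (h0 : Bt b0) (h1 : Bt b1) (h2 : Bt b2) (h3 : Bt b3) (h4 : Bt b4) (h5 : Bt b5) (h6 : Bt b6) (h7 : Bt b7) (h8 : Bt b8) (h9 : Bt b9) : bt 1 (c10 b0 b1 b2 b3 b4 b5 b6 b7 b8 b9) = b1 :=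
  Nat.eq_of_beq_eq_true (B2_true (B2_true (B2_true (B2_true (B2_true (B2_true (B2_true (B2_true (B2_true (B2_true bt1_chk h0) h1) h2) h3) h4) h5) h6) h7) h8) h9)
theorem bt2_chk : (B2 fun b0 => B2 fun b1 => B2 fun b2 => B2 fun b3 => B2 fun b4 => B2 fun b5 => B2 fun b6 => B2 fun b7 => B2 fun b8 => B2 fun b9 => Nat.beq (bt 2 (c10 b0 b1 b2 b3 b4 b5 b6 b7 b8 b9)) b2) = true := by decide +kernel
theorem bt2_eq {b0 b1 b2 b3 b4 b5 b6 b7 b8 b9 : ℕ} (h0 : Bt b0) (h1 : Bt b1) (h2 : Bt b2) (h3 : Bt b3) (h4 : Bt b4) (h5 : Bt b5) (h6 : Bt b6) (h7 : Bt b7) (h8 : Bt b8) (h9 : Bt b9) : bt 2 (c10 b0 b1 b2 b3 b4 b5 b6 b7 b8 b9) = b2 :=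
  Nat.eq_of_beq_eq_true (B2_true (B2_true (B2_true (B2_true (B2_true (B2_true (B2_true (B2_true (B2_true (B2_true bt2_chk h0) h1) h2) h3) h4) h5) h6) h7) h8) h9)
theorem bt3_chk : (B2 fun b0 => B2 fun b1 => B2 fun b2 => B2 fun b3 => B2 fun b4 => B2 fun b5 => B2 fun b6 => B2 fun b7 => B2 fun b8 => B2 fun b9 => Nat.beq (bt 3 (c10 b0 b1 b2 b3 b4 b5 b6 b7 b8 b9)) b3) = true := by decide +kernel
theorem bt3_eq {b0 b1 b2 b3 b4 b5 b6 b7 b8 b9 : ℕ} (h0 : Bt b0) (h1 : Bt b1) (h2 : Bt b2) (h3 : Bt b3) (h4 : Bt b4) (h5 : Bt b5) (h6 : Bt b6) (h7 : Bt b7) (h8 : Bt b8) (h9 : Bt b9) : bt 3 (c10 b0 b1 b2 b3 b4 b5 b6 b7 b8 b9) = b3 :=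
  Nat.eq_of_beq_eq_true (B2_true (B2_true (B2_true (B2_true (B2_true (B2_true (B2_true (B2_true (B2_true (B2_true bt3_chk h0) h1) h2) h3) h4) h5) h6) h7) h8) h9)
theorem bt4_chk : (B2 fun b0 => B2 fun b1 => B2 fun b2 => B2 fun b3 => B2 fun b4 => B2 fun b5 => B2 fun b6 => B2 fun b7 => B2 fun b8 => B2 fun b9 => Nat.beq (bt 4 (c10 b0 b1 b2 b3 b4 b5 b6 b7 b8 b9)) b4) = true := by decide +kernel
theorem bt4_eq {b0 b1 b2 b3 b4 b5 b6 b7 b8 b9 : ℕ} (h0 : Bt b0) (h1 : Bt b1) (h2 : Bt b2) (h3 : Bt b3) (h4 : Bt b4) (h5 : Bt b5) (h6 : Bt b6) (h7 : Bt b7) (h8 : Bt b8) (h9 : Bt b9) : bt 4 (c10 b0 b1 b2 b3 b4 b5 b6 b7 b8 b9) = b4 :=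
  Nat.eq_of_beq_eq_true (B2_true (B2_true (B2_true (B2_true (B2_true (B2_true (B2_true (B2_true (B2_true (B2_true bt4_chk h0) h1) h2) h3) h4) h5) h6) h7) h8) h9)
theorem bt5_chk : (B2 fun b0 => B2 fun b1 => B2 fun b2 => B2 fun b3 => B2 fun b4 => B2 fun b5 => B2 fun b6 => B2 fun b7 => B2 fun b8 => B2 fun b9 => Nat.beq (bt 5 (c10 b0 b1 b2 b3 b4 b5 b6 b7 b8 b9)) b5) = true := by decide +kernel
theorem bt5_eq {b0 b1 b2 b3 b4 b5 b6 b7 b8 b9 : ℕ} (h0 : Bt b0) (h1 : Bt b1) (h2 : Bt b2) (h3 : Bt b3) (h4 : Bt b4) (h5 : Bt b5) (h6 : Bt b6) (h7 : Bt b7) (h8 : Bt b8) (h9 : Bt b9) : bt 5 (c10 b0 b1 b2 b3 b4 b5 b6 b7 b8 b9) = b5 :=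
  Nat.eq_of_beq_eq_true (B2_true (B2_true (B2_true (B2_true (B2_true (B2_true (B2_true (B2_true (B2_true (B2_true bt5_chk h0) h1) h2) h3) h4) h5) h6) h7) h8) h9)
theorem bt6_chk : (B2 fun b0 => B2 fun b1 => B2 fun b2 => B2 fun b3 => B2 fun b4 => B2 fun b5 => B2 fun b6 => B2 fun b7 => B2 fun b8 => B2 fun b9 => Nat.beq (bt 6 (c10 b0 b1 b2 b3 b4 b5 b6 b7 b8 b9)) b6) = true := by decide +kernel
theorem bt6_eq {b0 b1 b2 b3 b4 b5 b6 b7 b8 b9 : ℕ} (h0 : Bt b0) (h1 : Bt b1) (h2 : Bt b2) (h3 : Bt b3) (h4 : Bt b4) (h5 : Bt b5) (h6 : Bt b6) (h7 : Bt b7) (h8 : Bt b8) (h9 : Bt b9) : bt 6 (c10 b0 b1 b2 b3 b4 b5 b6 b7 b8 b9) = b6 :=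
  Nat.eq_of_beq_eq_true (B2_true (B2_true (B2_true (B2_true (B2_true (B2_true (B2_true (B2_true (B2_true (B2_true bt6_chk h0) h1) h2) h3) h4) h5) h6) h7) h8) h9)
theorem bt7_chk : (B2 fun b0 => B2 fun b1 => B2 fun b2 => B2 fun b3 => B2 fun b4 => B2 fun b5 => B2 fun b6 => B2 fun b7 => B2 fun b8 => B2 fun b9 => Nat.beq (bt 7 (c10 b0 b1 b2 b3 b4 b5 b6 b7 b8 b9)) b7) = true := by decide +kernel
theorem bt7_eq {b0 b1 b2 b3 b4 b5 b6 b7 b8 b9 : ℕ} (h0 : Bt b0) (h1 : Bt b1) (h2 : Bt b2) (h3 : Bt b3) (h4 : Bt b4) (h5 : Bt b5) (h6 : Bt b6) (h7 : Bt b7) (h8 : Bt b8) (h9 : Bt b9) : bt 7 (c10 b0 b1 b2 b3 b4 b5 b6 b7 b8 b9) = b7 :=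
  Nat.eq_of_beq_eq_true (B2_true (B2_true (B2_true (B2_true (B2_true (B2_true (B2_true (B2_true (B2_true (B2_true bt7_chk h0) h1) h2) h3) h4) h5) h6) h7) h8) h9)
theorem bt8_chk : (B2 fun b0 => B2 fun b1 => B2 fun b2 => B2 fun b3 => B2 fun b4 => B2 fun b5 => B2 fun b6 => B2 fun b7 => B2 fun b8 => B2 fun b9 => Nat.beq (bt 8 (c10 b0 b1 b2 b3 b4 b5 b6 b7 b8 b9)) b8) = true := by decide +kernel
theorem bt8_eq {b0 b1 b2 b3 b4 b5 b6 b7 b8 b9 : ℕ} (h0 : Bt b0) (h1 : Bt b1) (h2 : Bt b2) (h3 : Bt b3) (h4 : Bt b4) (h5 : Bt b5) (h6 : Bt b6) (h7 : Bt b7) (h8 : Bt b8) (h9 : Bt b9) : bt 8 (c10 b0 b1 b2 b3 b4 b5 b6 b7 b8 b9) = b8 :=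
  Nat.eq_of_beq_eq_true (B2_true (B2_true (B2_true (B2_true (B2_true (B2_true (B2_true (B2_true (B2_true (B2_true bt8_chk h0) h1) h2) h3) h4) h5) h6) h7) h8) h9)
theorem bt9_chk : (B2 fun b0 => B2 fun b1 => B2 fun b2 => B2 fun b3 => B2 fun b4 => B2 fun b5 => B2 fun b6 => B2 fun b7 => B2 fun b8 => B2 fun b9 => Nat.beq (bt 9 (c10 b0 b1 b2 b3 b4 b5 b6 b7 b8 b9)) b9) = true := by decide +kernel
theorem bt9_eq {b0 b1 b2 b3 b4 b5 b6 b7 b8 b9 : ℕ} (h0 : Bt b0) (h1 : Bt b1) (h2 : Bt b2) (h3 : Bt b3) (h4 : Bt b4) (h5 : Bt b5) (h6 : Bt b6) (h7 : Bt b7) (h8 : Bt b8) (h9 : Bt b9) : bt 9 (c10 b0 b1 b2 b3 b4 b5 b6 b7 b8 b9) = b9 :=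
  Nat.eq_of_beq_eq_true (B2_true (B2_true (B2_true (B2_true (B2_true (B2_true (B2_true (B2_true (B2_true (B2_true bt9_chk h0) h1) h2) h3) h4) h5) h6) h7) h8) h9)

def memR (m : ℕ) : Bool := cnd (Nat.beq m 0) true (cnd (Nat.beq m 1) true (cnd (Nat.beq m 3) true (cnd (Nat.beq m 7) true (cnd (Nat.beq m 19) true (cnd (Nat.beq m 20) true (cnd (Nat.beq m 21) true (cnd (Nat.beq m 23) true (cnd (Nat.beq m 28) true (cnd (Nat.beq m 29) true (cnd (Nat.beq m 54) true (cnd (Nat.beq m 55) true (cnd (Nat.beq m 58) true (cnd (Nat.beq m 59) true (cnd (Nat.beq m 62) true (cnd (Nat.beq m 126) true (cnd (Nat.beq m 183) true (cnd (Nat.beq m 184) true (cnd (Nat.beq m 185) true (cnd (Nat.beq m 187) true (cnd (Nat.beq m 220) true (cnd (Nat.beq m 221) true (cnd (Nat.beq m 254) true (false)))))))))))))))))))))))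

theorem sel_chk : (B2 fun b0 => B2 fun b1 => B2 fun b2 => B2 fun b3 => B2 fun b4 => B2 fun b5 => B2 fun b6 => B2 fun b7 => B2 fun b8 => B2 fun b9 => or (not (Nat.beq (tg b0 b1 b2 b3 b4 b5 b6 b7 b8 b9) 4)) (memR (c10 b0 b1 b2 b3 b4 b5 b6 b7 b8 b9))) = true := by decide +kernel

theorem cnd_or' {c x : Bool} (h : cnd c true x = true) : c = true ∨ x = true := by
  cases c
  · exact Or.inr h
  · exact Or.inl rfl

theorem memR_true {P : ℕ → Bool} (p0 : P 0 = true) (p1 : P 1 = true) (p3 : P 3 = true) (p7 : P 7 = true) (p19 : P 19 = true) (p20 : P 20 = true) (p21 : P 21 = true) (p23 : P 23 = true) (p28 : P 28 = true) (p29 : P 29 = true) (p54 : P 54 = true) (p55 : P 55 = true) (p58 : P 58 = true) (p59 : P 59 = true) (p62 : P 62 = true) (p126 : P 126 = true) (p183 : P 183 = true) (p184 : P 184 = true) (p185 : P 185 = true) (p187 : P 187 = true) (p220 : P 220 = true) (p221 : P 221 = true) (p254 : P 254 = true) {m : ℕ} (h : memR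 m = true) : P m = true := by
  unfold memR at h
  rcases cnd_or' h with e | h
  · rw [Nat.eq_of_beq_eq_true e]; exact p0
  rcases cnd_or' h with e | h
  · rw [Nat.eq_of_beq_eq_true e]; exact p1
  rcases cnd_or' h with e | h
  · rw [Nat.eq_of_beq_eq_true e]; exact p3
  rcases cnd_or' h with e | h
  · rw [Nat.eq_of_beq_eq_true e]; exact p7
  rcases cnd_or' h with e | h
  · rw [Nat.eq_of_beq_eq_true e]; exact p19
  rcases cnd_or' h with e | h
  · rw [Nat.eq_of_beq_eq_true e]; exact p20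
  rcases cnd_or' h with e | h
  · rw [Nat.eq_of_beq_eq_true e]; exact p21
  rcases cnd_or' h with e | h
  · rw [Nat.eq_of_beq_eq_true e]; exact p23
  rcases cnd_or' h with e | h
  · rw [Nat.eq_of_beq_eq_true e]; exact p28
  rcases cnd_or' h with e | h
  · rw [Nat.eq_of_beq_eq_true e]; exact p29
  rcases cnd_or' h with e | h
  · rw [Nat.eq_of_beq_eq_true e]; exact p54
  rcases cnd_or' h with e | h
  · rw [Nat.eq_of_beq_eq_true e]; exact p55
  rcases cnd_or' h with e | h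
  · rw [Nat.eq_of_beq_eq_true e]; exact p58
  rcases cnd_or' h with e | h
  · rw [Nat.eq_of_beq_eq_true e]; exact p59
  rcases cnd_or' h with e | h
  · rw [Nat.eq_of_beq_eq_true e]; exact p62
  rcases cnd_or' h with e | h
  · rw [Nat.eq_of_beq_eq_true e]; exact p126
  rcases cnd_or' h with e | h
  · rw [Nat.eq_of_beq_eq_true e]; exact p183
  rcases cnd_or' h with e | h
  · rw [Nat.eq_of_beq_eq_true e]; exact p184
  rcases cnd_or' h with e | h
  · rw [Nat.eq_of_beq_eq_true e]; exact p185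
  rcases cnd_or' h with e | h
  · rw [Nat.eq_of_beq_eq_true e]; exact p187
  rcases cnd_or' h with e | h
  · rw [Nat.eq_of_beq_eq_true e]; exact p220
  rcases cnd_or' h with e | h
  · rw [Nat.eq_of_beq_eq_true e]; exact p221
  rcases cnd_or' h with e | h
  · rw [Nat.eq_of_beq_eq_true e]; exact p254
  exact absurd h (by decide)

theorem sel {b0 b1 b2 b3 b4 b5 b6 b7 b8 b9 : ℕ} (h0 : Bt b0) (h1 : Bt b1) (h2 : Bt b2) (h3 : Bt b3) (h4 : Bt b4) (h5 : Bt b5) (h6 : Bt b6) (h7 : Bt b7) (h8 : Bt b8) (h9 : Bt b9) (ht : tg b0 b1 b2 b3 b4 b5 b6 b7 b8 b9 = 4) : memR (c10 b0 b1 b2 b3 b4 b5 b6 b7 b8 b9) = true := by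
  have h := (B2_true (B2_true (B2_true (B2_true (B2_true (B2_true (B2_true (B2_true (B2_true (B2_true sel_chk h0) h1) h2) h3) h4) h5) h6) h7) h8) h9)
  rw [ht] at h
  exact h

theorem walk_gen {P : ℕ → ℕ → ℕ → ℕ → ℕ → ℕ → ℕ → ℕ → ℕ → ℕ → Prop}
    (s0 : ∀ b012 b013 b023 b123 b014 b024 b124 b034 b134 b234 : ℕ, P b012 b013 b123 b023 b014 b124 b024 b134 b034 b234 → P b012 b013 b023 b123 b014 b024 b124 b034 b134 b234)
    (s1 : ∀ b012 b013 b023 b123 b014 b024 b124 b034 b134 b234 : ℕ, P b012 b023 b013 b123 b024 b014 b124 b034 b234 b134 → P b012 b013 b023 b123 b014 b024 b124 b034 b134 b234)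
    (s2 : ∀ b012 b013 b023 b123 b014 b024 b124 b034 b134 b234 : ℕ, P b013 b012 b023 b123 b014 b034 b134 b024 b124 b234 → P b012 b013 b023 b123 b014 b024 b124 b034 b134 b234)
    (s3 : ∀ b012 b013 b023 b123 b014 b024 b124 b034 b134 b234 : ℕ, P b012 b014 b024 b124 b013 b023 b123 b034 b134 b234 → P b012 b013 b023 b123 b014 b024 b124 b034 b134 b234)
    (hr : ∀ b012 b013 b023 b123 b014 b024 b124 b034 b134 b234 : ℕ, tg b012 b013 b023 b123 b014 b024 b124 b034 b134 b234 = 4 → P b012 b013 b023 b123 b014 b024 b124 b034 b134 b234) (n : ℕ) :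
    ∀ b012 b013 b023 b123 b014 b024 b124 b034 b134 b234 : ℕ, walk n b012 b013 b023 b123 b014 b024 b124 b034 b134 b234 = true → P b012 b013 b023 b123 b014 b024 b124 b034 b134 b234 := by
  induction n with
  | zero =>
    intro b012 b013 b023 b123 b014 b024 b124 b034 b134 b234 h
    exact hr _ _ _ _ _ _ _ _ _ _ (Nat.eq_of_beq_eq_true h)
  | succ n ih =>
    intro b012 b013 b023 b123 b014 b024 b124 b034 b134 b234 h
    change (cond (Nat.beq (tg b012 b013 b023 b123 b014 b024 b124 b034 b134 b234) 4) true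
      (cond (Nat.beq (tg b012 b013 b023 b123 b014 b024 b124 b034 b134 b234) 0) (walk n b012 b013 b123 b023 b014 b124 b024 b134 b034 b234)
      (cond (Nat.beq (tg b012 b013 b023 b123 b014 b024 b124 b034 b134 b234) 1) (walk n b012 b023 b013 b123 b024 b014 b124 b034 b234 b134)
      (cond (Nat.beq (tg b012 b013 b023 b123 b014 b024 b124 b034 b134 b234) 2) (walk n b013 b012 b023 b123 b014 b034 b134 b024 b124 b234)
      (cond (Nat.beq (tg b012 b013 b023 b123 b014 b024 b124 b034 b134 b234) 3) (walk n b012 b014 b024 b124 b013 b023 b123 b034 b134 b234) false))))) = true at h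
    cases h4 : Nat.beq (tg b012 b013 b023 b123 b014 b024 b124 b034 b134 b234) 4 with
    | true => exact hr _ _ _ _ _ _ _ _ _ _ (Nat.eq_of_beq_eq_true h4)
    | false =>
    rw [h4] at h
    cases h0 : Nat.beq (tg b012 b013 b023 b123 b014 b024 b124 b034 b134 b234) 0 with
    | true => rw [h0] at h; exact s0 _ _ _ _ _ _ _ _ _ _ (ih _ _ _ _ _ _ _ _ _ _ h)
    | false =>
    rw [h0] at h
    cases h1 : Nat.beq (tg b012 b013 b023 b123 b014 b024 b124 b034 b134 b234) 1 with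
    | true => rw [h1] at h; exact s1 _ _ _ _ _ _ _ _ _ _ (ih _ _ _ _ _ _ _ _ _ _ h)
    | false =>
    rw [h1] at h
    cases h2 : Nat.beq (tg b012 b013 b023 b123 b014 b024 b124 b034 b134 b234) 2 with
    | true => rw [h2] at h; exact s2 _ _ _ _ _ _ _ _ _ _ (ih _ _ _ _ _ _ _ _ _ _ h)
    | false =>
    rw [h2] at h
    cases h3 : Nat.beq (tg b012 b013 b023 b123 b014 b024 b124 b034 b134 b234) 3 with
    | true => rw [h3] at h; exact s3 _ _ _ _ _ _ _ _ _ _ (ih _ _ _ _ _ _ _ _ _ _ h)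
    | false => rw [h3] at h; simp at h

theorem wnc_all {m : ℕ} (h : memR m = true) : wnc m = true := memR_true wnc0 wnc1 wnc3 wnc7 wnc19 wnc20 wnc21 wnc23 wnc28 wnc29 wnc54 wnc55 wnc58 wnc59 wnc62 wnc126 wnc183 wnc184 wnc185 wnc187 wnc220 wnc221 wnc254 h

theorem wnest_rep {b0 b1 b2 b3 b4 b5 b6 b7 b8 b9 : ℕ} (h0 : Bt b0) (h1 : Bt b1) (h2 : Bt b2) (h3 : Bt b3) (h4 : Bt b4) (h5 : Bt b5) (h6 : Bt b6) (h7 : Bt b7) (h8 : Bt b8) (h9 : Bt b9) (ht : tg b0 b1 b2 b3 b4 b5 b6 b7 b8 b9 = 4) : wnest b0 b1 b2 b3 b4 b5 b6 b7 b8 b9 = true := by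
  have h := wnc_all (sel h0 h1 h2 h3 h4 h5 h6 h7 h8 h9 ht)
  unfold wnc at h
  rwa [bt0_eq h0 h1 h2 h3 h4 h5 h6 h7 h8 h9, bt1_eq h0 h1 h2 h3 h4 h5 h6 h7 h8 h9, bt2_eq h0 h1 h2 h3 h4 h5 h6 h7 h8 h9, bt3_eq h0 h1 h2 h3 h4 h5 h6 h7 h8 h9, bt4_eq h0 h1 h2 h3 h4 h5 h6 h7 h8 h9, bt5_eq h0 h1 h2 h3 h4 h5 h6 h7 h8 h9, bt6_eq h0 h1 h2 h3 h4 h5 h6 h7 h8 h9, bt7_eq h0 h1 h2 h3 h4 h5 h6 h7 h8 h9, bt8_eq h0 h1 h2 h3 h4 h5 h6 h7 h8 h9, bt9_eq h0 h1 h2 h3 h4 h5 h6 h7 h8 h9] at h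

theorem walk6_gen {P : ℕ → ℕ → ℕ → ℕ → ℕ → ℕ → ℕ → ℕ → ℕ → ℕ → ℕ → ℕ → ℕ → ℕ → ℕ → ℕ → ℕ → ℕ → ℕ → ℕ → Prop}
    (s0 : ∀ b012 b013 b023 b123 b014 b024 b124 b034 b134 b234 b015 b025 b125 b035 b135 b235 b045 b145 b245 b345 : ℕ, P b012 b013 b123 b023 b014 b124 b024 b134 b034 b234 b015 b125 b025 b135 b035 b235 b145 b045 b245 b345 → P b012 b013 b023 b123 b014 b024 b124 b034 b134 b234 b015 b025 b125 b035 b135 b235 b045 b145 b245 b345)
    (s1 : ∀ b012 b013 b023 b123 b014 b024 b124 b034 b134 b234 b015 b025 b125 b035 b135 b235 b045 b145 b245 b345 : ℕ, P b012 b023 b013 b123 b024 b014 b124 b034 b234 b134 b025 b015 b125 b035 b235 b135 b045 b245 b145 b345 → P b012 b013 b023 b123 b014 b024 b124 b034 b134 b234 b015 b025 b125 b035 b135 b235 b045 b145 b245 b345)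
    (s2 : ∀ b012 b013 b023 b123 b014 b024 b124 b034 b134 b234 b015 b025 b125 b035 b135 b235 b045 b145 b245 b345 : ℕ, P b013 b012 b023 b123 b014 b034 b134 b024 b124 b234 b015 b035 b135 b025 b125 b235 b045 b145 b345 b245 → P b012 b013 b023 b123 b014 b024 b124 b034 b134 b234 b015 b025 b125 b035 b135 b235 b045 b145 b245 b345)
    (s3 : ∀ b012 b013 b023 b123 b014 b024 b124 b034 b134 b234 b015 b025 b125 b035 b135 b235 b045 b145 b245 b345 : ℕ, P b012 b014 b024 b124 b013 b023 b123 b034 b134 b234 b015 b025 b125 b045 b145 b245 b035 b135 b235 b345 → P b012 b013 b023 b123 b014 b024 b124 b034 b134 b234 b015 b025 b125 b035 b135 b235 b045 b145 b245 b345)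
    (s4 : ∀ b012 b013 b023 b123 b014 b024 b124 b034 b134 b234 b015 b025 b125 b035 b135 b235 b045 b145 b245 b345 : ℕ, P b012 b013 b023 b123 b015 b025 b125 b035 b135 b235 b014 b024 b124 b034 b134 b234 b045 b145 b245 b345 → P b012 b013 b023 b123 b014 b024 b124 b034 b134 b234 b015 b025 b125 b035 b135 b235 b045 b145 b245 b345)
    (hr : ∀ b012 b013 b023 b123 b014 b024 b124 b034 b134 b234 b015 b025 b125 b035 b135 b235 b045 b145 b245 b345 : ℕ, isB (c10 b012 b013 b023 b123 b014 b024 b124 b034 b134 b234) (c10 b015 b025 b125 b035 b135 b235 b045 b145 b245 b345) = true → P b012 b013 b023 b123 b014 b024 b124 b034 b134 b234 b015 b025 b125 b035 b135 b235 b045 b145 b245 b345) (n : ℕ) :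
    ∀ w b012 b013 b023 b123 b014 b024 b124 b034 b134 b234 b015 b025 b125 b035 b135 b235 b045 b145 b245 b345 : ℕ, walk6 n w b012 b013 b023 b123 b014 b024 b124 b034 b134 b234 b015 b025 b125 b035 b135 b235 b045 b145 b245 b345 = true → P b012 b013 b023 b123 b014 b024 b124 b034 b134 b234 b015 b025 b125 b035 b135 b235 b045 b145 b245 b345 := by
  induction n with
  | zero =>
    intro w b012 b013 b023 b123 b014 b024 b124 b034 b134 b234 b015 b025 b125 b035 b135 b235 b045 b145 b245 b345 h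
    exact hr b012 b013 b023 b123 b014 b024 b124 b034 b134 b234 b015 b025 b125 b035 b135 b235 b045 b145 b245 b345 h
  | succ n ih =>
    intro w b012 b013 b023 b123 b014 b024 b124 b034 b134 b234 b015 b025 b125 b035 b135 b235 b045 b145 b245 b345 h
    change cnd (Nat.beq (Nat.mod w 8) 7) (isB (c10 b012 b013 b023 b123 b014 b024 b124 b034 b134 b234) (c10 b015 b025 b125 b035 b135 b235 b045 b145 b245 b345))
      (cnd (Nat.beq (Nat.mod w 8) 0) (walk6 n (Nat.div w 8) b012 b013 b123 b023 b014 b124 b024 b134 b034 b234 b015 b125 b025 b135 b035 b235 b145 b045 b245 b345)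
      (cnd (Nat.beq (Nat.mod w 8) 1) (walk6 n (Nat.div w 8) b012 b023 b013 b123 b024 b014 b124 b034 b234 b134 b025 b015 b125 b035 b235 b135 b045 b245 b145 b345)
      (cnd (Nat.beq (Nat.mod w 8) 2) (walk6 n (Nat.div w 8) b013 b012 b023 b123 b014 b034 b134 b024 b124 b234 b015 b035 b135 b025 b125 b235 b045 b145 b345 b245)
      (cnd (Nat.beq (Nat.mod w 8) 3) (walk6 n (Nat.div w 8) b012 b014 b024 b124 b013 b023 b123 b034 b134 b234 b015 b025 b125 b045 b145 b245 b035 b135 b235 b345)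
      (cnd (Nat.beq (Nat.mod w 8) 4) (walk6 n (Nat.div w 8) b012 b013 b023 b123 b015 b025 b125 b035 b135 b235 b014 b024 b124 b034 b134 b234 b045 b145 b245 b345)
      false))))) = true at h
    cases e7 : Nat.beq (Nat.mod w 8) 7 with
    | true => rw [e7] at h; exact hr b012 b013 b023 b123 b014 b024 b124 b034 b134 b234 b015 b025 b125 b035 b135 b235 b045 b145 b245 b345 h
    | false =>
    rw [e7] at h
    change cnd (Nat.beq (Nat.mod w 8) 0) _ _ = true at h
    cases e0 : Nat.beq (Nat.mod w 8) 0 with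
    | true => rw [e0] at h; exact s0 b012 b013 b023 b123 b014 b024 b124 b034 b134 b234 b015 b025 b125 b035 b135 b235 b045 b145 b245 b345 (ih (Nat.div w 8) b012 b013 b123 b023 b014 b124 b024 b134 b034 b234 b015 b125 b025 b135 b035 b235 b145 b045 b245 b345 h)
    | false =>
    rw [e0] at h
    change cnd (Nat.beq (Nat.mod w 8) 1) _ _ = true at h
    cases e1 : Nat.beq (Nat.mod w 8) 1 with
    | true => rw [e1] at h; exact s1 b012 b013 b023 b123 b014 b024 b124 b034 b134 b234 b015 b025 b125 b035 b135 b235 b045 b145 b245 b345 (ih (Nat.div w 8) b012 b023 b013 b123 b024 b014 b124 b034 b234 b134 b025 b015 b125 b035 b235 b135 b045 b245 b145 b345 h)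
    | false =>
    rw [e1] at h
    change cnd (Nat.beq (Nat.mod w 8) 2) _ _ = true at h
    cases e2 : Nat.beq (Nat.mod w 8) 2 with
    | true => rw [e2] at h; exact s2 b012 b013 b023 b123 b014 b024 b124 b034 b134 b234 b015 b025 b125 b035 b135 b235 b045 b145 b245 b345 (ih (Nat.div w 8) b013 b012 b023 b123 b014 b034 b134 b024 b124 b234 b015 b035 b135 b025 b125 b235 b045 b145 b345 b245 h)
    | false =>
    rw [e2] at h
    change cnd (Nat.beq (Nat.mod w 8) 3) _ _ = true at h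
    cases e3 : Nat.beq (Nat.mod w 8) 3 with
    | true => rw [e3] at h; exact s3 b012 b013 b023 b123 b014 b024 b124 b034 b134 b234 b015 b025 b125 b035 b135 b235 b045 b145 b245 b345 (ih (Nat.div w 8) b012 b014 b024 b124 b013 b023 b123 b034 b134 b234 b015 b025 b125 b045 b145 b245 b035 b135 b235 b345 h)
    | false =>
    rw [e3] at h
    change cnd (Nat.beq (Nat.mod w 8) 4) _ _ = true at h
    cases e4 : Nat.beq (Nat.mod w 8) 4 with
    | true => rw [e4] at h; exact s4 b012 b013 b023 b123 b014 b024 b124 b034 b134 b234 b015 b025 b125 b035 b135 b235 b045 b145 b245 b345 (ih (Nat.div w 8) b012 b013 b023 b123 b015 b025 b125 b035 b135 b235 b014 b024 b124 b034 b134 b234 b045 b145 b245 b345 h)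
    | false =>
    rw [e4] at h
    exact absurd (show false = true from h) (by decide)

section
variable {V : Type} {E : V → V → V → ℕ}

def G6 (E : V → V → V → ℕ) (P : V → V → V → V → V → V → Prop) (b012 b013 b023 b123 b014 b024 b124 b034 b134 b234 b015 b025 b125 b035 b135 b235 b045 b145 b245 b345 : ℕ) : Prop :=
  ∀ a b c d e f : V, E a b c = b012 → E a b d = b013 → E a c d = b023 → E b c d = b123 → E a b e = b014 → E a c e = b024 → E b c e = b124 → E a d e = b034 → E b d e = b134 → E c d e = b234 → E a b f = b015 → E a c f = b025 → E b c f = b125 → E a d f = b035 → E b d f = b135 → E c d f = b235 → E a e f = b045 → E b e f = b145 → E c e f = b245 → E d e f = b345 → P a b c d e f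

def G5 (E : V → V → V → ℕ) (P : V → V → V → V → V → V → Prop) (b012 b013 b023 b123 b014 b024 b124 b034 b134 b234 : ℕ) : Prop :=
  ∀ a b c d e : V, E a b c = b012 → E a b d = b013 → E a c d = b023 → E b c d = b123 → E a b e = b014 → E a c e = b024 → E b c e = b124 → E a d e = b034 → E b d e = b134 → E c d e = b234 → ∀ f, P a b c d e f

theorem G6_sw0 (hE : Sy E) {P : V → V → V → V → V → V → Prop} (s0 : ∀ a b c d e f, P b a c d e f → P a b c d e f) (b012 b013 b023 b123 b014 b024 b124 b034 b134 b234 b015 b025 b125 b035 b135 b235 b045 b145 b245 b345 : ℕ) (h : G6 E P b012 b013 b123 b023 b014 b124 b024 b134 b034 b234 b015 b125 b025 b135 b035 b235 b145 b045 b245 b345) : G6 E P b012 b013 b023 b123 b014 b024 b124 b034 b134 b234 b015 b025 b125 b035 b135 b235 b045 b145 b245 b345 := by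
  intro a b c d e f h012 h013 h023 h123 h014 h024 h124 h034 h134 h234 h015 h025 h125 h035 h135 h235 h045 h145 h245 h345
  exact s0 a b c d e f (h b a c d e f ((hE.h213 _ _ _).trans h012) ((hE.h213 _ _ _).trans h013) h123 h023 ((hE.h213 _ _ _).trans h014) h124 h024 h134 h034 h234 ((hE.h213 _ _ _).trans h015) h125 h025 h135 h035 h235 h145 h045 h245 h345)

theorem G6_sw1 (hE : Sy E) {P : V → V → V → V → V → V → Prop} (s1 : ∀ a b c d e f, P a c b d e f → P a b c d e f) (b012 b013 b023 b123 b014 b024 b124 b034 b134 b234 b015 b025 b125 b035 b135 b235 b045 b145 b245 b345 : ℕ) (h : G6 E P b012 b023 b013 b123 b024 b014 b124 b034 b234 b134 b025 b015 b125 b035 b235 b135 b045 b245 b145 b345) : G6 E P b012 b013 b023 b123 b014 b024 b124 b034 b134 b234 b015 b025 b125 b035 b135 b235 b045 b145 b245 b345 := by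
  intro a b c d e f h012 h013 h023 h123 h014 h024 h124 h034 h134 h234 h015 h025 h125 h035 h135 h235 h045 h145 h245 h345
  exact s1 a b c d e f (h a c b d e f ((hE.h132 _ _ _).trans h012) h023 h013 ((hE.h213 _ _ _).trans h123) h024 h014 ((hE.h213 _ _ _).trans h124) h034 h234 h134 h025 h015 ((hE.h213 _ _ _).trans h125) h035 h235 h135 h045 h245 h145 h345)

theorem G6_sw2 (hE : Sy E) {P : V → V → V → V → V → V → Prop} (s2 : ∀ a b c d e f, P a b d c e f → P a b c d e f) (b012 b013 b023 b123 b014 b024 b124 b034 b134 b234 b015 b025 b125 b035 b135 b235 b045 b145 b245 b345 : ℕ) (h : G6 E P b013 b012 b023 b123 b014 b034 b134 b024 b124 b234 b015 b035 b135 b025 b125 b235 b045 b145 b345 b245) : G6 E P b012 b013 b023 b123 b014 b024 b124 b034 b134 b234 b015 b025 b125 b035 b135 b235 b045 b145 b245 b345 := by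
  intro a b c d e f h012 h013 h023 h123 h014 h024 h124 h034 h134 h234 h015 h025 h125 h035 h135 h235 h045 h145 h245 h345
  exact s2 a b c d e f (h a b d c e f h013 h012 ((hE.h132 _ _ _).trans h023) ((hE.h132 _ _ _).trans h123) h014 h034 h134 h024 h124 ((hE.h213 _ _ _).trans h234) h015 h035 h135 h025 h125 ((hE.h213 _ _ _).trans h235) h045 h145 h345 h245)

theorem G6_sw3 (hE : Sy E) {P : V → V → V → V → V → V → Prop} (s3 : ∀ a b c d e f, P a b c e d f → P a b c d e f) (b012 b013 b023 b123 b014 b024 b124 b034 b134 b234 b015 b025 b125 b035 b135 b235 b045 b145 b245 b345 : ℕ) (h : G6 E P b012 b014 b024 b124 b013 b023 b123 b034 b134 b234 b015 b025 b125 b045 b145 b245 b035 b135 b235 b345) : G6 E P b012 b013 b023 b123 b014 b024 b124 b034 b134 b234 b015 b025 b125 b035 b135 b235 b045 b145 b245 b345 := by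
  intro a b c d e f h012 h013 h023 h123 h014 h024 h124 h034 h134 h234 h015 h025 h125 h035 h135 h235 h045 h145 h245 h345
  exact s3 a b c d e f (h a b c e d f h012 h014 h024 h124 h013 h023 h123 ((hE.h132 _ _ _).trans h034) ((hE.h132 _ _ _).trans h134) ((hE.h132 _ _ _).trans h234) h015 h025 h125 h045 h145 h245 h035 h135 h235 ((hE.h213 _ _ _).trans h345))

theorem G6_sw4 (hE : Sy E) {P : V → V → V → V → V → V → Prop} (s4 : ∀ a b c d e f, P a b c d f e → P a b c d e f) (b012 b013 b023 b123 b014 b024 b124 b034 b134 b234 b015 b025 b125 b035 b135 b235 b045 b145 b245 b345 : ℕ) (h : G6 E P b012 b013 b023 b123 b015 b025 b125 b035 b135 b235 b014 b024 b124 b034 b134 b234 b045 b145 b245 b345) : G6 E P b012 b013 b023 b123 b014 b024 b124 b034 b134 b234 b015 b025 b125 b035 b135 b235 b045 b145 b245 b345 := by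
  intro a b c d e f h012 h013 h023 h123 h014 h024 h124 h034 h134 h234 h015 h025 h125 h035 h135 h235 h045 h145 h245 h345
  exact s4 a b c d e f (h a b c d f e h012 h013 h023 h123 h015 h025 h125 h035 h135 h235 h014 h024 h124 h034 h134 h234 ((hE.h132 _ _ _).trans h045) ((hE.h132 _ _ _).trans h145) ((hE.h132 _ _ _).trans h245) ((hE.h132 _ _ _).trans h345))

theorem G5_sw0 (hE : Sy E) {P : V → V → V → V → V → V → Prop} (s0 : ∀ a b c d e f, P b a c d e f → P a b c d e f) (b012 b013 b023 b123 b014 b024 b124 b034 b134 b234 : ℕ) (h : G5 E P b012 b013 b123 b023 b014 b124 b024 b134 b034 b234) : G5 E P b012 b013 b023 b123 b014 b024 b124 b034 b134 b234 := by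
  intro a b c d e h012 h013 h023 h123 h014 h024 h124 h034 h134 h234 f
  exact s0 a b c d e f (h b a c d e ((hE.h213 _ _ _).trans h012) ((hE.h213 _ _ _).trans h013) h123 h023 ((hE.h213 _ _ _).trans h014) h124 h024 h134 h034 h234 f)

theorem G5_sw1 (hE : Sy E) {P : V → V → V → V → V → V → Prop} (s1 : ∀ a b c d e f, P a c b d e f → P a b c d e f) (b012 b013 b023 b123 b014 b024 b124 b034 b134 b234 : ℕ) (h : G5 E P b012 b023 b013 b123 b024 b014 b124 b034 b234 b134) : G5 E P b012 b013 b023 b123 b014 b024 b124 b034 b134 b234 := by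
  intro a b c d e h012 h013 h023 h123 h014 h024 h124 h034 h134 h234 f
  exact s1 a b c d e f (h a c b d e ((hE.h132 _ _ _).trans h012) h023 h013 ((hE.h213 _ _ _).trans h123) h024 h014 ((hE.h213 _ _ _).trans h124) h034 h234 h134 f)

theorem G5_sw2 (hE : Sy E) {P : V → V → V → V → V → V → Prop} (s2 : ∀ a b c d e f, P a b d c e f → P a b c d e f) (b012 b013 b023 b123 b014 b024 b124 b034 b134 b234 : ℕ) (h : G5 E P b013 b012 b023 b123 b014 b034 b134 b024 b124 b234) : G5 E P b012 b013 b023 b123 b014 b024 b124 b034 b134 b234 := by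
  intro a b c d e h012 h013 h023 h123 h014 h024 h124 h034 h134 h234 f
  exact s2 a b c d e f (h a b d c e h013 h012 ((hE.h132 _ _ _).trans h023) ((hE.h132 _ _ _).trans h123) h014 h034 h134 h024 h124 ((hE.h213 _ _ _).trans h234) f)

theorem G5_sw3 (hE : Sy E) {P : V → V → V → V → V → V → Prop} (s3 : ∀ a b c d e f, P a b c e d f → P a b c d e f) (b012 b013 b023 b123 b014 b024 b124 b034 b134 b234 : ℕ) (h : G5 E P b012 b014 b024 b124 b013 b023 b123 b034 b134 b234) : G5 E P b012 b013 b023 b123 b014 b024 b124 b034 b134 b234 := by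
  intro a b c d e h012 h013 h023 h123 h014 h024 h124 h034 h134 h234 f
  exact s3 a b c d e f (h a b c e d h012 h014 h024 h124 h013 h023 h123 ((hE.h132 _ _ _).trans h034) ((hE.h132 _ _ _).trans h134) ((hE.h132 _ _ _).trans h234) f)

theorem walk_of_wnest (hE : Sy E) (hK : NoK4 E) (a b c d e f : V) (h : wnest (E a b c) (E a b d) (E a c d) (E b c d) (E a b e) (E a c e) (E b c e) (E a d e) (E b d e) (E c d e) = true) :
    walk6 16 (wd (c10 (E a b c) (E a b d) (E a c d) (E b c d) (E a b e) (E a c e) (E b c e) (E a d e) (E b d e) (E c d e)) (c10 (E a b f) (E a c f) (E b c f) (E a d f) (E b d f) (E c d f) (E a e f) (E b e f) (E c e f) (E d e f))) (E a b c) (E a b d) (E a c d) (E b c d) (E a b e) (E a c e) (E b c e) (E a d e) (E b d e) (E c d e) (E a b f) (E a c f) (E b c f) (E a d f) (E b d f) (E c d f) (E a e f) (E b e f) (E c e f) (E d e f) = true :=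
  (or_false_left (or_false_left (or_false_left (B2_true (or_false_left (or_false_left (B2_true (or_false_left (B2_true (B2_true (or_false_left (or_false_left (B2_true (or_false_left (B2_true (B2_true (or_false_left (B2_true (B2_true (B2_true h (hE.b a b f)) (hE.b a c f)) (hE.b b c f)) (hK a b c f)) (hE.b a d f)) (hE.b b d f)) (hK a b d f)) (hE.b c d f)) (hK a c d f)) (hK b c d f)) (hE.b a e f)) (hE.b b e f)) (hK a b e f)) (hE.b c e f)) (hK a c e f)) (hK b c e f)) (hE.b d e f)) (hK a d e f)) (hK b d e f)) (hK c d e f))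

theorem five_E (hK : NoK4 E) (a b c d e : V) :
    five (E a b c) (E a b d) (E a c d) (E b c d) (E a b e) (E a c e) (E b c e) (E a d e) (E b d e) (E c d e) = false := by
  unfold five
  rw [hK a b c d, hK a b c e, hK a b d e, hK a c d e, hK b c d e]
  rfl

theorem walk_E (hE : Sy E) (hK : NoK4 E) (a b c d e : V) :
    walk 9 (E a b c) (E a b d) (E a c d) (E b c d) (E a b e) (E a c e) (E b c e) (E a d e) (E b d e) (E c d e) = true :=
  or_false_left (B2_true (B2_true (B2_true (B2_true (B2_true (B2_true (B2_true (B2_true (B2_true (B2_true walk_all (hE.b a b c)) (hE.b a b d)) (hE.b a c d)) (hE.b b c d)) (hE.b a b e)) (hE.b a c e)) (hE.b b c e)) (hE.b a d e)) (hE.b b d e)) (hE.b c d e)) (five_E hK a b c d e)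

/-- reduction to the representatives -/
theorem red (hE : Sy E) (hK : NoK4 E) {P : V → V → V → V → V → V → Prop}
    (s0 : ∀ a b c d e f, P b a c d e f → P a b c d e f) (s1 : ∀ a b c d e f, P a c b d e f → P a b c d e f)
    (s2 : ∀ a b c d e f, P a b d c e f → P a b c d e f) (s3 : ∀ a b c d e f, P a b c e d f → P a b c d e f)
    (s4 : ∀ a b c d e f, P a b c d f e → P a b c d e f)
    (base : ∀ a b c d e f, isB (c10 (E a b c) (E a b d) (E a c d) (E b c d) (E a b e) (E a c e) (E b c e) (E a d e) (E b d e) (E c d e)) (c10 (E a b f) (E a c f) (E b c f) (E a d f) (E b d f) (E c d f) (E a e f) (E b e f) (E c e f) (E d e f)) = true → P a b c d e f)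
    (a b c d e f : V) : P a b c d e f := by
  have hb : ∀ b012 b013 b023 b123 b014 b024 b124 b034 b134 b234 b015 b025 b125 b035 b135 b235 b045 b145 b245 b345 : ℕ, isB (c10 b012 b013 b023 b123 b014 b024 b124 b034 b134 b234) (c10 b015 b025 b125 b035 b135 b235 b045 b145 b245 b345) = true → G6 E P b012 b013 b023 b123 b014 b024 b124 b034 b134 b234 b015 b025 b125 b035 b135 b235 b045 b145 b245 b345 := by
    intro b012 b013 b023 b123 b014 b024 b124 b034 b134 b234 b015 b025 b125 b035 b135 b235 b045 b145 b245 b345 h a b c d e f h012 h013 h023 h123 h014 h024 h124 h034 h134 h234 h015 h025 h125 h035 h135 h235 h045 h145 h245 h345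
    subst h012 h013 h023 h123 h014 h024 h124 h034 h134 h234 h015 h025 h125 h035 h135 h235 h045 h145 h245 h345
    exact base a b c d e f h
  have hr : ∀ b012 b013 b023 b123 b014 b024 b124 b034 b134 b234 : ℕ, tg b012 b013 b023 b123 b014 b024 b124 b034 b134 b234 = 4 → G5 E P b012 b013 b023 b123 b014 b024 b124 b034 b134 b234 := by
    intro b012 b013 b023 b123 b014 b024 b124 b034 b134 b234 ht a b c d e h012 h013 h023 h123 h014 h024 h124 h034 h134 h234 f
    subst h012 h013 h023 h123 h014 h024 h124 h034 h134 h234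
    have h1 := walk_of_wnest hE hK a b c d e f (wnest_rep (hE.b _ _ _) (hE.b _ _ _) (hE.b _ _ _) (hE.b _ _ _) (hE.b _ _ _) (hE.b _ _ _) (hE.b _ _ _) (hE.b _ _ _) (hE.b _ _ _) (hE.b _ _ _) ht)
    exact walk6_gen (P := G6 E P) (G6_sw0 hE s0) (G6_sw1 hE s1) (G6_sw2 hE s2)
      (G6_sw3 hE s3) (G6_sw4 hE s4) hb 16 _ _ _ _ _ _ _ _ _ _ _ _ _ _ _ _ _ _ _ _ _ h1 a b c d e f rfl rfl rfl rfl rfl rfl rfl rfl rfl rfl rfl rfl rfl rfl rfl rfl rfl rfl rfl rfl
  exact walk_gen (P := G5 E P) (G5_sw0 hE s0) (G5_sw1 hE s1) (G5_sw2 hE s2) (G5_sw3 hE s3) hr 9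
    _ _ _ _ _ _ _ _ _ _ (walk_E hE hK a b c d e) a b c d e rfl rfl rfl rfl rfl rfl rfl rfl rfl rfl f

end

end Pool.Agent.Y435.R7
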