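import Pool.Agent.Y435.T7.Inv

set_option autoImplicit false
set_option maxRecDepth 100000
set_option maxHeartbeats 4000000

namespace Pool.Agent.Y435.T7

def i0 : chkR 0 16 = true := by decide +kernel
def i16 : chkR 16 16 = true := by decide +kernel
def i32 : chkR 32 16 = true := by decide +kernel
def i48 : chkR 48 16 = true := by decide +kernel
def i64 : chkR 64 16 = true := by decide +kernel
def i80 : chkR 80 16 = true := by decide +kernel
def i96 : chkR 96 16 = true := by decide +kernel
def i112 : chkR 112 16 = true := by decide +kernel
def i128 : chkR 128 16 = true := by decide +kernel
def i144 : chkR 144 16 = true := by decide +kernel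
def i160 : chkR 160 16 = true := by decide +kernel
def i176 : chkR 176 16 = true := by decide +kernel
def i192 : chkR 192 16 = true := by decide +kernel
def i208 : chkR 208 16 = true := by decide +kernel
def i224 : chkR 224 16 = true := by decide +kernel
def i240 : chkR 240 16 = true := by decide +kernel

end Pool.Agent.Y435.T7
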