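import Pool.Agent.Y435.T7.Tab

/-! The vectors of the leaf sums. -/

set_option autoImplicit false
set_option maxRecDepth 100000

namespace Pool.Agent.Y435.T7

noncomputable section

def Dg (r : ℕ) : ℕ := get DT r
/-- class of a structure on five vertices with root -/
def rt (m : ℕ) : ℕ := Nat.land (Nat.shiftRight RT (Nat.mul 6 m)) 63
/-- permutation of a structure on five vertices with root -/
def wt (m : ℕ) : ℕ := Nat.land (Nat.shiftRight WT (Nat.mul 5 m)) 31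
def qL (w l : ℕ) : ℕ := Nat.land (Nat.shiftRight QL (Nat.mul 6 (Nat.add (Nat.mul 64 w) l))) 63
def lt (w j : ℕ) : ℕ := Nat.land (Nat.shiftRight LT (Nat.add (Nat.mul 9 w) j)) 7

/-- block `j` of 256 slots -/
def xb (d j : ℕ) : ℕ := Nat.land (Nat.shiftRight d (Nat.mul 10240 j)) ON10240
/-- record `j` -/
def xr (d j : ℕ) : ℕ := Nat.land (Nat.shiftRight d (Nat.mul 640 j)) ON640
/-- exchange of two index bits of a block, given by a letter -/
def swl (t x : ℕ) : ℕ := sw (xb MT t) (Nat.land (Nat.shiftRight ST (Nat.mul 16 t)) 65535) x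
def pU (w x : ℕ) : ℕ := swl (lt w 6) (swl (lt w 3) (swl (lt w 0) x))
/-- records of the flags with given link on the first four vertices -/
def blk (m l : ℕ) : ℕ := pU (wt m) (st (fun r => xb (Dg r) (qL (wt m) l)) (rt m))

def AV (t l : ℕ) : ℕ := as6 10240 (fun g => blk (Nat.add t (Nat.mul 16 g)) l)
def DV (m : ℕ) : ℕ := as6 10240 (fun l => blk m l)

def kA (a k : ℕ) : ℕ := Nat.land (Nat.shiftRight a k) MK16
def kB (b k : ℕ) : ℕ := Nat.land (Nat.shiftRight b k) ON640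
def kC (b k : ℕ) : ℕ := Nat.land (Nat.shiftRight b k) ON40
def kM (a k : ℕ) : ℕ := Nat.land (Nat.shiftRight a k) MK64
def kN (a k : ℕ) : ℕ := Nat.land (Nat.shiftRight a k) MK1024
/-- transposition of a block -/
def tr (x : ℕ) : ℕ := swp 40 8 3 7 (swp 40 8 2 6 (swp 40 8 1 5 (swp 40 8 0 4 x)))
/-- all scalar products of two blocks -/
def OPX (a b : ℕ) : ℕ := (Nat.add (Nat.mul (kA a 0) (kB b 0)) (Nat.add (Nat.mul (kA a 40) (kB b 640)) (Nat.add (Nat.mul (kA a 80) (kB b 1280)) (Nat.add (Nat.mul (kA a 120) (kB b 1920)) (Nat.add (Nat.mul (kA a 160) (kB b 2560)) (Nat.add (Nat.mul (kA a 200) (kB b 3200)) (Nat.add (Nat.mul (kA a 240) (kB b 3840)) (Nat.add (Nat.mul (kA a 280) (kB b 4480)) (Nat.add (Nat.mul (kA a 320) (kB b 5120)) (Nat.add (Nat.mul (kA a 360) (kB b 5760)) (Nat.add (Nat.mul (kA a 400) (kB b 6400)) (Nat.add (Nat.mul (kA a 440) (kB b 7040)) (Nat.add (Nat.mul (kA a 480) ON16) (Nat.mul OS16 (kB b 7680)))))))))))))))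
def t0 (a b : ℕ) : ℕ := OPX a (tr b)
def t1 (a b : ℕ) : ℕ := Nat.add (t0 (Nat.land a ON10240) (Nat.land b ON10240)) (Nat.shiftLeft (t0 (Nat.shiftRight a 10240) (Nat.shiftRight b 10240)) 10240)
def t2 (a b : ℕ) : ℕ := Nat.add (t1 (Nat.land a ON20480) (Nat.land b ON20480)) (Nat.shiftLeft (t1 (Nat.shiftRight a 20480) (Nat.shiftRight b 20480)) 20480)
def t3 (a b : ℕ) : ℕ := Nat.add (t2 (Nat.land a ON40960) (Nat.land b ON40960)) (Nat.shiftLeft (t2 (Nat.shiftRight a 40960) (Nat.shiftRight b 40960)) 40960)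
def t4 (a b : ℕ) : ℕ := Nat.add (t3 (Nat.land a ON81920) (Nat.land b ON81920)) (Nat.shiftLeft (t3 (Nat.shiftRight a 81920) (Nat.shiftRight b 81920)) 81920)
def t5 (a b : ℕ) : ℕ := Nat.add (t4 (Nat.land a ON163840) (Nat.land b ON163840)) (Nat.shiftLeft (t4 (Nat.shiftRight a 163840) (Nat.shiftRight b 163840)) 163840)
def t6 (a b : ℕ) : ℕ := Nat.add (t5 (Nat.land a ON327680) (Nat.land b ON327680)) (Nat.shiftLeft (t5 (Nat.shiftRight a 327680) (Nat.shiftRight b 327680)) 327680)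
def T1v (t l l2 : ℕ) : ℕ := st (fun t => st (fun l => st (fun l2 => t6 (AV t l) (AV t l2)) l2) l) t
def O4 (d r : ℕ) : ℕ := (Nat.add (Nat.mul (kN d 0) (kC r 0)) (Nat.add (Nat.mul (kN d 40) (kC r 40)) (Nat.add (Nat.mul (kN d 80) (kC r 80)) (Nat.add (Nat.mul (kN d 120) (kC r 120)) (Nat.add (Nat.mul (kN d 160) (kC r 160)) (Nat.add (Nat.mul (kN d 200) (kC r 200)) (Nat.add (Nat.mul (kN d 240) (kC r 240)) (Nat.add (Nat.mul (kN d 280) (kC r 280)) (Nat.add (Nat.mul (kN d 320) (kC r 320)) (Nat.add (Nat.mul (kN d 360) (kC r 360)) (Nat.add (Nat.mul (kN d 400) (kC r 400)) (Nat.add (Nat.mul (kN d 440) (kC r 440)) (Nat.add (kN d 480) (Nat.mul OS1024 (kC r 480)))))))))))))))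
def T4v (m x : ℕ) : ℕ := st (fun m => Nat.mul (O4 (DV m) (xr (DV m) x)) ON16) m
def G0 : ℕ := (swp 640 10 7 9 (swp 640 10 6 8 (swp 640 10 5 9 (swp 640 10 4 8 (swp 640 10 3 7 (swp 640 10 2 3 (swp 640 10 0 6 H0)))))))
def G1 : ℕ := (swp 640 10 7 9 (swp 640 10 6 8 (swp 640 10 5 9 (swp 640 10 4 8 (swp 640 10 3 7 (swp 640 10 2 3 (swp 640 10 0 6 H1)))))))
def xt (g t : ℕ) : ℕ := Nat.land (Nat.shiftRight g (Nat.mul 40960 t)) ON40960
def O2 (a b r s : ℕ) : ℕ := (Nat.add (Nat.mul (kM a 0) (kC r 0)) (Nat.add (Nat.mul (kM a 40) (kC r 40)) (Nat.add (Nat.mul (kM a 80) (kC r 80)) (Nat.add (Nat.mul (kM a 120) (kC r 120)) (Nat.add (Nat.mul (kM a 160) (kC r 160)) (Nat.add (Nat.mul (kM a 200) (kC r 200)) (Nat.add (Nat.mul (kM a 240) (kC r 240)) (Nat.add (Nat.mul (kM a 280) (kC r 280)) (Nat.add (Nat.mul (kM a 320) (kC r 320)) (Nat.add (Nat.mul (kM a 360) (kC r 360)) (Nat.add (Nat.mul (kM b 0) (kC s 0)) (Nat.add (Nat.mul (kM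 b 40) (kC s 40)) (Nat.add (Nat.mul (kM b 80) (kC s 80)) (Nat.add (Nat.mul (kM b 120) (kC s 120)) (Nat.add (Nat.mul (kM b 160) (kC s 160)) (Nat.add (Nat.mul (kM b 200) (kC s 200)) (Nat.add (Nat.mul (kM b 240) (kC s 240)) (Nat.add (Nat.mul (kM b 280) (kC s 280)) (Nat.add (Nat.mul (kM b 320) (kC s 320)) (Nat.add (Nat.mul (kM b 360) (kC s 360)) (Nat.add (kM a 400) (Nat.mul OS64 (kC r 400)))))))))))))))))))))))
def Q2 (t c : ℕ) : ℕ := O2 (xt G0 t) (xt G1 t) (xr H0 c) (xr H1 c)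
/-- index of a structure on three plus two vertices -/
def hx (b012 b013 b023 b123 b014 b024 b124 b034 b134 b234 : ℕ) : ℕ := c10 b023 b024 b123 b124 b012 b013 b014 b034 b134 b234
def V2 (b012 b013 b023 b123 b014 b024 b124 b034 b134 b234 b015 b025 b125 b035 b135 b235 b045 b145 b245 b345 : ℕ) : ℕ :=
  (Nat.add (Q2 (c4 b012 b013 b023 b123) (hx b012 b014 b024 b124 b015 b025 b125 b045 b145 b245)) (Nat.add (swp 640 6 1 5 (swp 640 6 0 4 (Q2 (c4 b123 b013 b023 b012) (hx b123 b134 b234 b124 b135 b235 b125 b345 b145 b245)))) (Nat.add (swp 640 6 2 5 (swp 640 6 0 3 (Q2 (c4 b023 b013 b012 b123) (hx b023 b034 b024 b234 b035 b025 b235 b045 b345 b245)))) (swp 640 6 2 4 (swp 640 6 1 3 (Q2 (c4 b013 b012 b023 b123) (hx b013 b014 b034 b134 b015 b035 b135 b045 b145 b345)))))))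
def T2v (v : ℕ) : ℕ := as6 10240 (fun g => Nat.mul (kC v (Nat.mul 640 g)) ON256)
def OPY (a b c d : ℕ) : ℕ := (Nat.add (Nat.mul (kA a 0) (kB c 0)) (Nat.add (Nat.mul (kA a 40) (kB c 640)) (Nat.add (Nat.mul (kA a 80) (kB c 1280)) (Nat.add (Nat.mul (kA a 120) (kB c 1920)) (Nat.add (Nat.mul (kA a 160) (kB c 2560)) (Nat.add (Nat.mul (kA a 200) (kB c 3200)) (Nat.add (Nat.mul (kA a 240) (kB c 3840)) (Nat.add (Nat.mul (kA a 280) (kB c 4480)) (Nat.add (Nat.mul (kA a 320) (kB c 5120)) (Nat.add (Nat.mul (kA a 360) (kB c 5760)) (Nat.add (Nat.mul (kA b 0) (kB d 0)) (Nat.add (Nat.mul (kA b 40) (kB d 640)) (Nat.add (Nat.mul (kA b 80) (kB d 1280)) (Nat.add (Nat.mul (kA b 120) (kB d 1920)) (Nat.add (Nat.mul (kA b 160) (kB d 2560)) (Nat.add (Nat.mul (kA b 200) (kB d 3200)) (Nat.add (Nat.mul (kA b 240) (kB d 3840)) (Nat.add (Nat.mul (kA b 280) (kB d 4480)) (Nat.add (Nat.mul (kA b 320) (kB d 5120)) (Nat.add (Nat.mul (kA b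 360) (kB d 5760)) (Nat.add (Nat.mul (kA a 400) ON16) (Nat.mul OS16 (kB c 6400)))))))))))))))))))))))
def MB (x y : ℕ) : ℕ := swp 40 8 1 7 (swp 40 8 0 6 (OPY (xb H0 x) (xb H1 x) (tr (xb H0 y)) (tr (xb H1 y))))
def MC (x y : ℕ) : ℕ := st (fun x => st (fun y => MB x y) y) x
def T3v (b012 b013 b023 b123 b014 b024 b124 b034 b134 b234 b015 b025 b125 b035 b135 b235 b045 b145 b245 b345 : ℕ) : ℕ :=
  lev 655360 fun ef => lev 327680 fun g5 => lev 163840 fun g4 => lev 81920 fun g3 => lev 40960 fun g2 => lev 20480 fun g1 => lev 10240 fun g0 => (Nat.add (MC (c6 ef b045 b145 b014 b015 g0) (c6 ef b245 b345 b234 b235 g5)) (Nat.add (swp 40 8 5 6 (swp 40 8 1 2 (MC (c6 ef b045 b245 b024 b025 g1) (c6 ef b145 b345 b134 b135 g4)))) (swp 40 8 5 7 (swp 40 8 1 3 (MC (c6 ef b045 b345 b034 b035 g3) (c6 ef b245 b145 b124 b125 g2))))))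
/-- frame without the terms of the sixth vertex -/
def TA (b012 b013 b023 b123 b014 b024 b124 b034 b134 b234 b015 b025 b125 b035 b135 b235 b045 b145 b245 b345 : ℕ) : ℕ :=
  Nat.add (d2 655360 (Nat.add (T1v (c4 b012 b013 b023 b123) (c6 b014 b024 b124 b034 b134 b234) (c6 b015 b025 b125 b035 b135 b235)) (T2v (V2 b012 b013 b023 b123 b014 b024 b124 b034 b134 b234 b015 b025 b125 b035 b135 b235 b045 b145 b245 b345)))) (T3v b012 b013 b023 b123 b014 b024 b124 b034 b134 b234 b015 b025 b125 b035 b135 b235 b045 b145 b245 b345)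
def TD (b012 b013 b023 b123 b014 b024 b124 b034 b134 b234 b015 b025 b125 b035 b135 b235 b045 b145 b245 b345 : ℕ) : ℕ := d2 655360 (T4v (Nat.add (c4 b012 b013 b023 b123) (Nat.mul 16 (c6 b014 b024 b124 b034 b134 b234))) (Nat.add (c4 b045 b145 b245 b345) (Nat.mul 16 (c6 b015 b025 b125 b035 b135 b235))))
def ch15 (b012 b013 b023 b123 b014 b024 b124 b034 b134 b234 b015 b025 b125 b035 b135 b235 b045 b145 b245 b345 : ℕ) : ℕ := (TD b012 b013 b023 b123 b014 b024 b124 b034 b134 b234 b015 b025 b125 b035 b135 b235 b045 b145 b245 b345)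
def ch14 (b012 b013 b023 b123 b014 b024 b124 b034 b134 b234 b015 b025 b125 b035 b135 b235 b045 b145 b245 b345 : ℕ) : ℕ := (Nat.add (TA b012 b013 b023 b123 b014 b024 b124 b034 b134 b234 b015 b025 b125 b035 b135 b235 b045 b145 b245 b345) (Nat.add (TD b012 b013 b023 b123 b014 b024 b124 b034 b134 b234 b015 b025 b125 b035 b135 b235 b045 b145 b245 b345) (swp 40 15 3 7 (swp 40 15 2 6 (swp 40 15 1 5 (swp 40 15 0 4 (ch15 b012 b013 b023 b123 b015 b025 b125 b035 b135 b235 b014 b024 b124 b034 b134 b234 b045 b145 b245 b345)))))))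
def ch13 (b012 b013 b023 b123 b014 b024 b124 b034 b134 b234 b015 b025 b125 b035 b135 b235 b045 b145 b245 b345 : ℕ) : ℕ := (Nat.add (TA b012 b013 b023 b123 b014 b024 b124 b034 b134 b234 b015 b025 b125 b035 b135 b235 b045 b145 b245 b345) (swp 40 15 7 14 (swp 40 15 2 13 (swp 40 15 1 12 (swp 40 15 0 11 (ch14 b012 b015 b025 b125 b014 b024 b124 b045 b145 b245 b013 b023 b123 b035 b135 b235 b034 b134 b234 b345))))))
def ch12 (b012 b013 b023 b123 b014 b024 b124 b034 b134 b234 b015 b025 b125 b035 b135 b235 b045 b145 b245 b345 : ℕ) : ℕ := (Nat.add (TA b012 b013 b023 b123 b014 b024 b124 b034 b134 b234 b015 b025 b125 b035 b135 b235 b045 b145 b245 b345) (Nat.add (TD b012 b013 b023 b123 b014 b024 b124 b034 b134 b234 b015 b025 b125 b035 b135 b235 b045 b145 b245 b345) (swp 40 15 3 14 (swp 40 15 6 13 (swp 40 15 5 12 (swp 40 15 4 11 (ch13 b012 b014 b024 b124 b013 b023 b123 b034 b134 b234 b015 b025 b125 b045 b145 b245 b035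 b135 b235 b345)))))))
def ch11 (b012 b013 b023 b123 b014 b024 b124 b034 b134 b234 b015 b025 b125 b035 b135 b235 b045 b145 b245 b345 : ℕ) : ℕ := (Nat.add (TA b012 b013 b023 b123 b014 b024 b124 b034 b134 b234 b015 b025 b125 b035 b135 b235 b045 b145 b245 b345) (swp 40 15 6 14 (swp 40 15 3 13 (swp 40 15 1 10 (swp 40 15 0 9 (ch12 b015 b013 b035 b135 b014 b045 b145 b034 b134 b345 b012 b025 b125 b023 b123 b235 b024 b124 b245 b234))))))
def ch10 (b012 b013 b023 b123 b014 b024 b124 b034 b134 b234 b015 b025 b125 b035 b135 b235 b045 b145 b245 b345 : ℕ) : ℕ := (Nat.add (TA b012 b013 b023 b123 b014 b024 b124 b034 b134 b234 b015 b025 b125 b035 b135 b235 b045 b145 b245 b345) (swp 40 15 3 14 (swp 40 15 6 13 (swp 40 15 5 12 (swp 40 15 4 11 (ch11 b012 b014 b024 b124 b013 b023 b123 b034 b134 b234 b015 b025 b125 b045 b145 b245 b035 b135 b235 b345))))))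
def ch9 (b012 b013 b023 b123 b014 b024 b124 b034 b134 b234 b015 b025 b125 b035 b135 b235 b045 b145 b245 b345 : ℕ) : ℕ := (Nat.add (TA b012 b013 b023 b123 b014 b024 b124 b034 b134 b234 b015 b025 b125 b035 b135 b235 b045 b145 b245 b345) (Nat.add (TD b012 b013 b023 b123 b014 b024 b124 b034 b134 b234 b015 b025 b125 b035 b135 b235 b045 b145 b245 b345) (swp 40 15 2 14 (swp 40 15 7 13 (swp 40 15 5 10 (swp 40 15 4 9 (ch10 b014 b013 b034 b134 b012 b024 b124 b023 b123 b234 b015 b045 b145 b035 b135 b345 b025 b125 b245 b235)))))))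
def ch8 (b012 b013 b023 b123 b014 b024 b124 b034 b134 b234 b015 b025 b125 b035 b135 b235 b045 b145 b245 b345 : ℕ) : ℕ := (Nat.add (TA b012 b013 b023 b123 b014 b024 b124 b034 b134 b234 b015 b025 b125 b035 b135 b235 b045 b145 b245 b345) (swp 40 15 5 14 (swp 40 15 3 12 (swp 40 15 2 10 (swp 40 15 0 8 (ch9 b025 b035 b023 b235 b045 b024 b245 b034 b345 b234 b015 b012 b125 b013 b135 b123 b014 b145 b124 b134))))))
def ch7 (b012 b013 b023 b123 b014 b024 b124 b034 b134 b234 b015 b025 b125 b035 b135 b235 b045 b145 b245 b345 : ℕ) : ℕ := (Nat.add (TA b012 b013 b023 b123 b014 b024 b124 b034 b134 b234 b015 b025 b125 b035 b135 b235 b045 b145 b245 b345) (swp 40 15 3 14 (swp 40 15 6 13 (swp 40 15 5 12 (swp 40 15 4 11 (ch8 b012 b014 b024 b124 b013 b023 b123 b034 b134 b234 b015 b025 b125 b045 b145 b245 b035 b135 b235 b345))))))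
def ch6 (b012 b013 b023 b123 b014 b024 b124 b034 b134 b234 b015 b025 b125 b035 b135 b235 b045 b145 b245 b345 : ℕ) : ℕ := (Nat.add (TA b012 b013 b023 b123 b014 b024 b124 b034 b134 b234 b015 b025 b125 b035 b135 b235 b045 b145 b245 b345) (swp 40 15 2 14 (swp 40 15 7 13 (swp 40 15 5 10 (swp 40 15 4 9 (ch7 b014 b013 b034 b134 b012 b024 b124 b023 b123 b234 b015 b045 b145 b035 b135 b345 b025 b125 b245 b235))))))
def ch5 (b012 b013 b023 b123 b014 b024 b124 b034 b134 b234 b015 b025 b125 b035 b135 b235 b045 b145 b245 b345 : ℕ) : ℕ := (Nat.add (TA b012 b013 b023 b123 b014 b024 b124 b034 b134 b234 b015 b025 b125 b035 b135 b235 b045 b145 b245 b345) (Nat.add (TD b012 b013 b023 b123 b014 b024 b124 b034 b134 b234 b015 b025 b125 b035 b135 b235 b045 b145 b245 b345) (swp 40 15 1 14 (swp 40 15 7 12 (swp 40 15 6 10 (swp 40 15 4 8 (ch6 b024 b034 b023 b234 b014 b012 b124 b013 b134 b123 b045 b025 b245 b035 b345 b235 b015 b145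 b125 b135)))))))
def ch4 (b012 b013 b023 b123 b014 b024 b124 b034 b134 b234 b015 b025 b125 b035 b135 b235 b045 b145 b245 b345 : ℕ) : ℕ := (Nat.add (TA b012 b013 b023 b123 b014 b024 b124 b034 b134 b234 b015 b025 b125 b035 b135 b235 b045 b145 b245 b345) (swp 40 15 4 14 (swp 40 15 3 11 (swp 40 15 2 9 (swp 40 15 1 8 (ch5 b125 b135 b235 b123 b145 b245 b124 b345 b134 b234 b015 b025 b012 b035 b013 b023 b045 b014 b024 b034))))))
def ch3 (b012 b013 b023 b123 b014 b024 b124 b034 b134 b234 b015 b025 b125 b035 b135 b235 b045 b145 b245 b345 : ℕ) : ℕ := (Nat.add (TA b012 b013 b023 b123 b014 b024 b124 b034 b134 b234 b015 b025 b125 b035 b135 b235 b045 b145 b245 b345) (swp 40 15 3 14 (swp 40 15 6 13 (swp 40 15 5 12 (swp 40 15 4 11 (ch4 b012 b014 b024 b124 b013 b023 b123 b034 b134 b234 b015 b025 b125 b045 b145 b245 b035 b135 b235 b345))))))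
def ch2 (b012 b013 b023 b123 b014 b024 b124 b034 b134 b234 b015 b025 b125 b035 b135 b235 b045 b145 b245 b345 : ℕ) : ℕ := (Nat.add (TA b012 b013 b023 b123 b014 b024 b124 b034 b134 b234 b015 b025 b125 b035 b135 b235 b045 b145 b245 b345) (swp 40 15 2 14 (swp 40 15 7 13 (swp 40 15 5 10 (swp 40 15 4 9 (ch3 b014 b013 b034 b134 b012 b024 b124 b023 b123 b234 b015 b045 b145 b035 b135 b345 b025 b125 b245 b235))))))
def ch1 (b012 b013 b023 b123 b014 b024 b124 b034 b134 b234 b015 b025 b125 b035 b135 b235 b045 b145 b245 b345 : ℕ) : ℕ := (Nat.add (TA b012 b013 b023 b123 b014 b024 b124 b034 b134 b234 b015 b025 b125 b035 b135 b235 b045 b145 b245 b345) (swp 40 15 1 14 (swp 40 15 7 12 (swp 40 15 6 10 (swp 40 15 4 8 (ch2 b024 b034 b023 b234 b014 b012 b124 b013 b134 b123 b045 b025 b245 b035 b345 b235 b015 b145 b125 b135))))))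
def ch0 (b012 b013 b023 b123 b014 b024 b124 b034 b134 b234 b015 b025 b125 b035 b135 b235 b045 b145 b245 b345 : ℕ) : ℕ := (Nat.add (TA b012 b013 b023 b123 b014 b024 b124 b034 b134 b234 b015 b025 b125 b035 b135 b235 b045 b145 b245 b345) (Nat.add (TD b012 b013 b023 b123 b014 b024 b124 b034 b134 b234 b015 b025 b125 b035 b135 b235 b045 b145 b245 b345) (swp 40 15 0 14 (swp 40 15 7 11 (swp 40 15 6 9 (swp 40 15 5 8 (ch1 b124 b134 b234 b123 b014 b024 b012 b034 b013 b023 b145 b245 b125 b345 b135 b235 b045 b015 b025 b035)))))))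
def cC : ℕ := 72091913225
def CV : ℕ := (d2 655360 (d2 327680 (d2 163840 (d2 81920 (d2 40960 (d2 20480 (d2 10240 (d2 5120 (d2 2560 (d2 1280 (d2 640 (d2 320 (d2 160 (d2 80 (d2 40 477663900662)))))))))))))))
def TV : ℕ := (d2 655360 (d2 327680 (d2 163840 (d2 81920 (d2 40960 (d2 20480 (d2 10240 (d2 5120 (d2 2560 (d2 1280 (d2 640 (d2 320 (d2 160 (d2 80 (d2 40 549755813888)))))))))))))))
def chk (b012 b013 b023 b123 b014 b024 b124 b034 b134 b234 b015 b025 b125 b035 b135 b235 b045 b145 b245 b345 : ℕ) : Bool := Nat.beq (Nat.land (Nat.add (ch0 b012 b013 b023 b123 b014 b024 b124 b034 b134 b234 b015 b025 b125 b035 b135 b235 b045 b145 b245 b345) CV) TV) 0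
def chm (m f : ℕ) : Bool := chk (bt 0 m) (bt 1 m) (bt 2 m) (bt 3 m) (bt 4 m) (bt 5 m) (bt 6 m) (bt 7 m) (bt 8 m) (bt 9 m) (bt 0 f) (bt 1 f) (bt 2 f) (bt 3 f) (bt 4 f) (bt 5 f) (bt 6 f) (bt 7 f) (bt 8 f) (bt 9 f)

end

end Pool.Agent.Y435.T7
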